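import Mathlib

open Filter Topology Set

namespace Pool.Agent.Helper97.IW

lemma exists_kappa {τ : ℕ → ℕ} (hτ : StrictMono τ) :
    ∃ κ : ℕ → ℕ, Tendsto κ atTop atTop ∧ ∀ n, τ 0 ≤ n → τ (κ n) ≤ n ∧ n < τ (κ n + 1) := by
  classical
  refine ⟨fun n => Nat.findGreatest (fun k => τ k ≤ n) n, ?_, fun n hn => ⟨?_, ?_⟩⟩
  · rw [tendsto_atTop]
    intro K
    filter_upwards [eventually_ge_atTop (τ K)] with n hn
    exact Nat.le_findGreatest ((hτ.le_apply).trans hn) hn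
  · exact Nat.findGreatest_spec (P := fun k => τ k ≤ n) (Nat.zero_le n) hn
  · by_contra hcon
    push Not at hcon
    have h1 : Nat.findGreatest (fun k => τ k ≤ n) n + 1 ≤ n := (hτ.le_apply).trans hcon
    exact Nat.findGreatest_is_greatest (P := fun k => τ k ≤ n) (Nat.lt_succ_self _) h1 hcon

lemma ratio_succ {τ : ℕ → ℝ} {t : ℝ} (h : Tendsto (fun k : ℕ => τ k / k) atTop (𝓝 t)) :
    Tendsto (fun k : ℕ => τ (k + 1) / k) atTop (𝓝 t) := by
  have h1 : Tendsto (fun k : ℕ => τ (k + 1) / ((k + 1 : ℕ) : ℝ)) atTop (𝓝 t) :=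
    h.comp (tendsto_add_atTop_nat 1)
  have h2 : Tendsto (fun k : ℕ => ((k + 1 : ℕ) : ℝ) / k) atTop (𝓝 1) := by
    have h3 : Tendsto (fun k : ℕ => (1 : ℝ) + 1 / (k : ℝ)) atTop (𝓝 (1 + 0)) :=
      tendsto_const_nhds.add tendsto_one_div_atTop_nhds_zero_nat
    rw [add_zero] at h3
    refine h3.congr' ?_
    filter_upwards [eventually_gt_atTop 0] with k hk
    have : (k : ℝ) ≠ 0 := by exact_mod_cast hk.ne'
    push_cast
    field_simp
  have h4 := h1.mul h2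
  rw [mul_one] at h4
  refine h4.congr' ?_
  filter_upwards [eventually_gt_atTop 0] with k hk
  have h5 : (k : ℝ) ≠ 0 := by exact_mod_cast hk.ne'
  have h6 : ((k + 1 : ℕ) : ℝ) ≠ 0 := by positivity
  field_simp

lemma speed_A {τ : ℕ → ℕ} (hτ : StrictMono τ) {t γ : ℝ} (ht : 0 < t)
    (h1 : Tendsto (fun k : ℕ => (τ k : ℝ) / k) atTop (𝓝 t)) {c y : ℕ → ℝ}
    (h2 : Tendsto (fun k : ℕ => c k / k) atTop (𝓝 γ))
    (h3 : ∀ k n, τ k ≤ n → n < τ (k + 1) → |y n - c k| ≤ (τ (k + 1) : ℝ) - τ k) :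
    Tendsto (fun n : ℕ => y n / n) atTop (𝓝 (γ / t)) := by
  obtain ⟨κ, hκ, hκ2⟩ := exists_kappa hτ
  have hs := ratio_succ (τ := fun k => (τ k : ℝ)) h1
  have hκ0 : ∀ᶠ n in atTop, 0 < κ n := hκ.eventually_gt_atTop 0
  have hn0 : ∀ᶠ n : ℕ in atTop, τ 0 ≤ n := eventually_ge_atTop _
  -- n / κ n → t
  have hr : Tendsto (fun n : ℕ => (n : ℝ) / κ n) atTop (𝓝 t) := by
    refine tendsto_of_tendsto_of_tendsto_of_le_of_le' (h1.comp hκ) (hs.comp hκ) ?_ ?_
    · filter_upwards [hκ0, hn0] with n hn1 hn2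
      simp only [Function.comp]
      have : (0 : ℝ) < κ n := by exact_mod_cast hn1
      gcongr
      exact_mod_cast (hκ2 n hn2).1
    · filter_upwards [hκ0, hn0] with n hn1 hn2
      simp only [Function.comp]
      have : (0 : ℝ) < κ n := by exact_mod_cast hn1
      gcongr
      exact_mod_cast (hκ2 n hn2).2.le
  have hri : Tendsto (fun n : ℕ => (κ n : ℝ) / n) atTop (𝓝 t⁻¹) := by
    refine (hr.inv₀ ht.ne').congr fun n => ?_
    rw [inv_div]
  have hA : Tendsto (fun n : ℕ => (c (κ n) / κ n) * ((κ n : ℝ) / n)) atTop (𝓝 (γ * t⁻¹)) :=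
    (h2.comp hκ).mul hri
  have hB : Tendsto (fun n : ℕ => (((τ (κ n + 1) : ℝ) / κ n) - (τ (κ n) : ℝ) / κ n) *
      ((κ n : ℝ) / n)) atTop (𝓝 ((t - t) * t⁻¹)) :=
    ((hs.comp hκ).sub (h1.comp hκ)).mul hri
  rw [sub_self, zero_mul] at hB
  have hC : Tendsto (fun n : ℕ => y n / n - (c (κ n) / κ n) * ((κ n : ℝ) / n)) atTop (𝓝 0) := by
    refine squeeze_zero_norm' ?_ hB
    filter_upwards [hκ0, hn0, eventually_gt_atTop 0] with n hn1 hn2 hn3
    have e1 : (0 : ℝ) < κ n := by exact_mod_cast hn1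
    have e2 : (0 : ℝ) < n := by exact_mod_cast hn3
    have e3 := h3 (κ n) n (hκ2 n hn2).1 (hκ2 n hn2).2
    have e4 : y n / n - (c (κ n) / κ n) * ((κ n : ℝ) / n) = (y n - c (κ n)) / n := by
      field_simp
    have e5 : (((τ (κ n + 1) : ℝ) / κ n) - (τ (κ n) : ℝ) / κ n) * ((κ n : ℝ) / n) =
        ((τ (κ n + 1) : ℝ) - τ (κ n)) / n := by
      field_simp
    rw [e4, e5, Real.norm_eq_abs, abs_div, abs_of_pos e2]
    gcongr
  have hD := hC.add hA
  rw [zero_add, ← div_eq_mul_inv] at hD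
  refine hD.congr fun n => ?_
  ring

lemma speed_B {τ : ℕ → ℕ} (hτ : StrictMono τ)
    (h1 : Tendsto (fun k : ℕ => (τ k : ℝ) / k) atTop atTop) {s y : ℕ → ℝ} {γ : ℝ}
    (h2 : Tendsto (fun k : ℕ => s k / k) atTop (𝓝 γ))
    (h3 : ∀ k n, τ k ≤ n → n < τ (k + 1) → |y n| ≤ s (k + 1)) :
    Tendsto (fun n : ℕ => y n / n) atTop (𝓝 0) := by
  obtain ⟨κ, hκ, hκ2⟩ := exists_kappa hτ
  have hs := ratio_succ h2
  have hκ0 : ∀ᶠ n in atTop, 0 < κ n := hκ.eventually_gt_atTop 0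
  have hn0 : ∀ᶠ n : ℕ in atTop, τ 0 ≤ n := eventually_ge_atTop _
  have hinv : Tendsto (fun k : ℕ => ((τ k : ℝ) / k)⁻¹) atTop (𝓝 0) :=
    tendsto_inv_atTop_zero.comp h1
  have hA : Tendsto (fun n : ℕ => (s (κ n + 1) / κ n) * ((τ (κ n) : ℝ) / κ n)⁻¹) atTop
      (𝓝 (γ * 0)) := (hs.comp hκ).mul (hinv.comp hκ)
  rw [mul_zero] at hA
  refine squeeze_zero_norm' ?_ hA
  filter_upwards [hκ0, hn0, eventually_gt_atTop 0] with n hn1 hn2 hn3
  have e1 : (0 : ℝ) < κ n := by exact_mod_cast hn1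
  have e2 : (0 : ℝ) < n := by exact_mod_cast hn3
  have e3 := h3 (κ n) n (hκ2 n hn2).1 (hκ2 n hn2).2
  have e4 : (0 : ℝ) < τ (κ n) := by
    have : κ n ≤ τ (κ n) := hτ.le_apply
    have : 0 < τ (κ n) := by omega
    exact_mod_cast this
  have e5 : (τ (κ n) : ℝ) ≤ n := by exact_mod_cast (hκ2 n hn2).1
  have e6 : (s (κ n + 1) / κ n) * ((τ (κ n) : ℝ) / κ n)⁻¹ = s (κ n + 1) / τ (κ n) := by
    field_simp
  rw [e6, Real.norm_eq_abs, abs_div, abs_of_pos e2]
  have e7 : 0 ≤ s (κ n + 1) := (abs_nonneg _).trans e3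
  calc |y n| / n ≤ s (κ n + 1) / n := by gcongr
    _ ≤ s (κ n + 1) / τ (κ n) := by gcongr

/-- From the two-sided ergodic bounds to the asymptotics of the hitting times: finite case. -/
lemma tau_A {τ : ℕ → ℝ} {N : ℕ → ℕ → ℝ} {B : ℕ → ℝ} {a : ℕ → ℝ} {C E : ℝ}
    (hlow : ∀ g k, ∑ j ∈ Finset.range k, N g j ≤ τ (k + g))
    (hup : ∀ k, τ k ≤ C + ∑ j ∈ Finset.range k, B j)
    (hN : ∀ g, Tendsto (fun k : ℕ => (k : ℝ)⁻¹ * ∑ j ∈ Finset.range k, N g j) atTop (𝓝 (a g)))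
    (hB : Tendsto (fun k : ℕ => (k : ℝ)⁻¹ * ∑ j ∈ Finset.range k, B j) atTop (𝓝 E))
    (ha : Tendsto a atTop (𝓝 E)) :
    Tendsto (fun k : ℕ => τ k / k) atTop (𝓝 E) := by
  rw [tendsto_order]
  constructor
  · intro b hb
    obtain ⟨g, hg⟩ := ((tendsto_order.1 ha).1 b hb).exists
    -- shift the lower bound
    have h1 : Tendsto (fun k : ℕ => (((k - g : ℕ) : ℝ)⁻¹ * ∑ j ∈ Finset.range (k - g), N g j) *
        (((k - g : ℕ) : ℝ) / k)) atTop (𝓝 (a g * 1)) := by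
      refine ((hN g).comp (tendsto_sub_atTop_nat g)).mul ?_
      have h3 : Tendsto (fun k : ℕ => (1 : ℝ) - (g : ℝ) / (k : ℝ)) atTop (𝓝 (1 - 0)) :=
        tendsto_const_nhds.sub (tendsto_const_nhds.div_atTop tendsto_natCast_atTop_atTop)
      rw [sub_zero] at h3
      refine h3.congr' ?_
      filter_upwards [eventually_gt_atTop g] with k hk
      have : (k : ℝ) ≠ 0 := by
        have : 0 < k := by omega
        exact_mod_cast this.ne'
      rw [Nat.cast_sub hk.le]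
      field_simp
    rw [mul_one] at h1
    filter_upwards [(tendsto_order.1 h1).1 b hg, eventually_gt_atTop g] with k hk hkg
    refine lt_of_lt_of_le hk ?_
    have e1 : (0 : ℝ) < k := by
      have : 0 < k := by omega
      exact_mod_cast this
    have e2 : (0 : ℝ) < ((k - g : ℕ) : ℝ) := by
      have : 0 < k - g := by omega
      exact_mod_cast this
    have e3 : (((k - g : ℕ) : ℝ)⁻¹ * ∑ j ∈ Finset.range (k - g), N g j) *
        (((k - g : ℕ) : ℝ) / k) = (∑ j ∈ Finset.range (k - g), N g j) / k := by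
      field_simp
    rw [e3]
    have e4 := hlow g (k - g)
    rw [show k - g + g = k by omega] at e4
    gcongr
  · intro b hb
    have h1 : Tendsto (fun k : ℕ => C / k + (k : ℝ)⁻¹ * ∑ j ∈ Finset.range k, B j) atTop
        (𝓝 (0 + E)) := (tendsto_const_nhds.div_atTop tendsto_natCast_atTop_atTop).add hB
    rw [zero_add] at h1
    filter_upwards [(tendsto_order.1 h1).2 b hb, eventually_gt_atTop 0] with k hk hk0
    refine lt_of_le_of_lt ?_ hk
    have e1 : (0 : ℝ) < k := by exact_mod_cast hk0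
    have e2 : C / k + (k : ℝ)⁻¹ * ∑ j ∈ Finset.range k, B j =
        (C + ∑ j ∈ Finset.range k, B j) / k := by
      field_simp
    rw [e2]
    have := hup k
    gcongr

lemma tau_B {τ : ℕ → ℝ} {N : ℕ → ℕ → ℝ} {a : ℕ → ℝ}
    (hlow : ∀ g k, ∑ j ∈ Finset.range k, N g j ≤ τ (k + g))
    (hN : ∀ g, Tendsto (fun k : ℕ => (k : ℝ)⁻¹ * ∑ j ∈ Finset.range k, N g j) atTop (𝓝 (a g)))
    (ha : Tendsto a atTop atTop) :
    Tendsto (fun k : ℕ => τ k / k) atTop atTop := by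
  rw [tendsto_atTop]
  intro b
  obtain ⟨g, hg⟩ := (ha.eventually_gt_atTop b).exists
  have h1 : Tendsto (fun k : ℕ => (((k - g : ℕ) : ℝ)⁻¹ * ∑ j ∈ Finset.range (k - g), N g j) *
      (((k - g : ℕ) : ℝ) / k)) atTop (𝓝 (a g * 1)) := by
    refine ((hN g).comp (tendsto_sub_atTop_nat g)).mul ?_
    have h3 : Tendsto (fun k : ℕ => (1 : ℝ) - (g : ℝ) / (k : ℝ)) atTop (𝓝 (1 - 0)) :=
      tendsto_const_nhds.sub (tendsto_const_nhds.div_atTop tendsto_natCast_atTop_atTop)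
    rw [sub_zero] at h3
    refine h3.congr' ?_
    filter_upwards [eventually_gt_atTop g] with k hk
    have : (k : ℝ) ≠ 0 := by
      have : 0 < k := by omega
      exact_mod_cast this.ne'
    rw [Nat.cast_sub hk.le]
    field_simp
  rw [mul_one] at h1
  filter_upwards [(tendsto_order.1 h1).1 b hg, eventually_gt_atTop g] with k hk hkg
  refine hk.le.trans ?_
  have e1 : (0 : ℝ) < k := by
    have : 0 < k := by omega
    exact_mod_cast this
  have e2 : (0 : ℝ) < ((k - g : ℕ) : ℝ) := by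
    have : 0 < k - g := by omega
    exact_mod_cast this
  have e3 : (((k - g : ℕ) : ℝ)⁻¹ * ∑ j ∈ Finset.range (k - g), N g j) *
      (((k - g : ℕ) : ℝ) / k) = (∑ j ∈ Finset.range (k - g), N g j) / k := by
    field_simp
  rw [e3]
  have e4 := hlow g (k - g)
  rw [show k - g + g = k by omega] at e4
  gcongr

end Pool.Agent.Helper97.IW
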