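import Mathlib

open MeasureTheory ProbabilityTheory Filter Topology Set

namespace Pool.Agent.Helper97.IW

section Select

variable {Ω κ β : Type*} [MeasurableSpace Ω] [Countable κ] [MeasurableSpace κ]
  [MeasurableSingletonClass κ] [MeasurableSpace β]

lemma meas_select {f : Ω → κ} (hf : Measurable f) {g : κ → Ω → β} (hg : ∀ k, Measurable (g k)) :
    Measurable (fun ω => g (f ω) ω) := by
  intro s hs
  have : (fun ω => g (f ω) ω) ⁻¹' s = ⋃ k, f ⁻¹' {k} ∩ (g k) ⁻¹' s := by
    ext ω
    simp
  rw [this]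
  exact MeasurableSet.iUnion fun k => (hf (measurableSet_singleton k)).inter (hg k hs)

end Select

section MixP

variable {ι X : Type*} [MeasurableSpace X]

open Classical in
/-- Use the second configuration at the places where `Q` holds. -/
noncomputable def mixP (Q : ι → Prop) (p : (ι → X) × (ι → X)) : ι → X :=
  fun i => if Q i then p.2 i else p.1 i

lemma mixP_pos {Q : ι → Prop} {i : ι} (h : Q i) (p : (ι → X) × (ι → X)) : mixP Q p i = p.2 i := by
  simp [mixP, h]

lemma mixP_neg {Q : ι → Prop} {i : ι} (h : ¬ Q i) (p : (ι → X) × (ι → X)) :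
    mixP Q p i = p.1 i := by
  simp [mixP, h]

lemma measurable_mixP (Q : ι → Prop) : Measurable (mixP Q : (ι → X) × (ι → X) → (ι → X)) := by
  unfold mixP
  refine measurable_pi_lambda _ fun i => ?_
  by_cases hi : Q i
  · simp only [hi, if_true]; fun_prop
  · simp only [hi, if_false]; fun_prop

lemma map_mixP (μ : ι → Measure X) [∀ i, IsProbabilityMeasure (μ i)] (Q : ι → Prop) :
    Measure.map (mixP Q) ((Measure.infinitePi μ).prod (Measure.infinitePi μ)) =
      Measure.infinitePi μ := by
  classical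
  apply Measure.eq_infinitePi
  intro s t ht
  rw [Measure.map_apply (measurable_mixP Q) (.pi s.countable_toSet (fun i _ => ht i))]
  have hpre : mixP Q ⁻¹' (Set.pi s t) =
      (Set.pi (↑(s.filter (fun i => ¬ Q i))) t) ×ˢ (Set.pi (↑(s.filter (fun i => Q i))) t) := by
    ext p
    simp only [mem_preimage, Set.mem_pi, Finset.mem_coe, mem_prod, Finset.mem_filter]
    constructor
    · intro H
      refine ⟨fun i hi => ?_, fun i hi => ?_⟩
      · have := H i hi.1
        rwa [mixP_neg hi.2] at this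
      · have := H i hi.1
        rwa [mixP_pos hi.2] at this
    · rintro ⟨H1, H2⟩ i hi
      by_cases hQ : Q i
      · rw [mixP_pos hQ]; exact H2 i ⟨hi, hQ⟩
      · rw [mixP_neg hQ]; exact H1 i ⟨hi, hQ⟩
  rw [hpre, Measure.prod_prod, Measure.infinitePi_pi _ (fun i _ => ht i),
    Measure.infinitePi_pi _ (fun i _ => ht i), mul_comm]
  exact Finset.prod_filter_mul_prod_filter_not s (fun i => Q i) _

lemma mp_mixP (μ : ι → Measure X) [∀ i, IsProbabilityMeasure (μ i)] (Q : ι → Prop) :
    MeasurePreserving (mixP Q) ((Measure.infinitePi μ).prod (Measure.infinitePi μ))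
      (Measure.infinitePi μ) :=
  ⟨measurable_mixP Q, map_mixP μ Q⟩

/-- `F` depends only on the coordinates satisfying `Q`. -/
def DepOn (Q : ι → Prop) {β : Type*} (F : (ι → X) → β) : Prop :=
  ∀ η η' : ι → X, (∀ i, Q i → η i = η' i) → F η = F η'

lemma DepOn.mono {Q Q' : ι → Prop} (h : ∀ i, Q i → Q' i) {β : Type*} {F : (ι → X) → β}
    (hF : DepOn Q F) : DepOn Q' F := fun η η' H => hF η η' fun i hi => H i (h i hi)

lemma indep_mixP (μ : ι → Measure X) [∀ i, IsProbabilityMeasure (μ i)] (Q : ι → Prop)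
    {E F : Set (ι → X)} (hE : MeasurableSet E) (hF : MeasurableSet F)
    (dE : DepOn (fun i => ¬ Q i) (· ∈ E)) (dF : DepOn Q (· ∈ F)) :
    Measure.infinitePi μ (E ∩ F) = Measure.infinitePi μ E * Measure.infinitePi μ F := by
  have h1 := (mp_mixP μ Q).measure_preimage (hE.inter hF).nullMeasurableSet
  rw [← h1]
  have : mixP Q ⁻¹' (E ∩ F) = E ×ˢ F := by
    ext p
    simp only [mem_preimage, mem_inter_iff, mem_prod]
    have e1 : (mixP Q p ∈ E) = (p.1 ∈ E) := dE _ _ fun i hi => mixP_neg hi p
    have e2 : (mixP Q p ∈ F) = (p.2 ∈ F) := dF _ _ fun i hi => mixP_pos hi p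
    rw [e1, e2]
  rw [this, Measure.prod_prod]

lemma mp_reindex (μ : ι → Measure X) [∀ i, IsProbabilityMeasure (μ i)] {f : ι → ι}
    (hf : Function.Injective f) (hμ : ∀ i, μ (f i) = μ i) :
    MeasurePreserving (fun (ω : ι → X) i => ω (f i)) (Measure.infinitePi μ)
      (Measure.infinitePi μ) := by
  refine ⟨by fun_prop, ?_⟩
  rw [Measure.map_infinitePi_infinitePi_of_inj hf]
  congr 1
  funext i
  exact hμ i

end MixP

end Pool.Agent.Helper97.IW
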