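import Mathlib

open MeasureTheory Filter Topology

namespace Pool.Agent.Helper97.IW

/-- The signed coordinate directions: `(j, true)` stands for `e_j`, `(j, false)` for `-e_j`. -/
abbrev Dir (d : ℕ) : Type := Fin d × Bool

/-- The lattice `ℤ^d`. -/
abbrev Pt (d : ℕ) : Type := Fin d → ℤ

variable {d : ℕ}

/-- The unit vector belonging to a direction. -/
def vec (e : Dir d) : Pt d := fun j => if j = e.1 then (if e.2 then 1 else -1) else 0

/-- The opposite direction. -/
def opp (e : Dir d) : Dir d := (e.1, !e.2)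

lemma vec_opp (e : Dir d) : vec (opp e) = - vec e := by
  funext j
  obtain ⟨k, b⟩ := e
  cases b <;> simp [vec, opp] <;> split_ifs <;> simp

lemma opp_opp (e : Dir d) : opp (opp e) = e := by
  obtain ⟨k, b⟩ := e
  simp [opp]

lemma vec_ne_zero (e : Dir d) : vec e ≠ 0 := by
  intro h
  have := congrFun h e.1
  simp only [vec, if_true, Pi.zero_apply] at this
  split_ifs at this <;> omega

lemma vec_injective : Function.Injective (vec : Dir d → Pt d) := by
  rintro ⟨j, b⟩ ⟨k, c⟩ h
  have h1 := congrFun h j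
  simp only [vec, if_true] at h1
  by_cases hjk : j = k
  · subst hjk
    simp only [if_true] at h1
    cases b <;> cases c <;> simp_all
  · rw [if_neg hjk] at h1
    cases b <;> simp at h1

/-- The nearest neighbour graph of `ℤ^d`. -/
def lattice (d : ℕ) : SimpleGraph (Pt d) where
  Adj x y := ∃ e : Dir d, y = x + vec e
  symm := ⟨by
    rintro x y ⟨e, rfl⟩
    exact ⟨opp e, by rw [vec_opp]; abel⟩⟩
  loopless := ⟨by
    rintro x ⟨e, h⟩
    exact vec_ne_zero e (by simpa using h.symm)⟩

/-- The trace of a path: the graph of all the (undirected) edges it crosses. -/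
def traceGraph (x : ℕ → Pt d) : SimpleGraph (Pt d) :=
  SimpleGraph.fromRel fun a b => ∃ n, x n = a ∧ x (n + 1) = b

open Classical in
/-- The total weight of the edges of `G` at `x`. -/
noncomputable def degW (p : Dir d → ℝ) (G : SimpleGraph (Pt d)) (x : Pt d) : ℝ :=
  ∑ e : Dir d, if G.Adj x (x + vec e) then p e else 0

open Classical in
/-- The transition probability from `x` to `y` of the `p`-random walk on `G`: it is
`p e` divided by the total weight of the edges of `G` at `x` if `y = x + e` for a unit vector `e`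
such that `(x, y)` is an edge of `G`, and `0` otherwise. -/
noncomputable def stepProb (p : Dir d → ℝ) (G : SimpleGraph (Pt d)) (x y : Pt d) : ℝ :=
  ∑ e : Dir d, if G.Adj x y ∧ y = x + vec e then p e / degW p G x else 0

/-- `W` is, conditionally on the sigma-algebra `m`, a `p`-random walk started at `0` on the random
graph `G`: the next position is `y` with conditional probability `stepProb p G (W n) y`, given `m`
and the positions up to time `n`. (The ambient sigma-algebra is `mΩ`.) -/
structure IsWalkOn {Ω : Type*} (m : MeasurableSpace Ω) [mΩ : MeasurableSpace Ω] (μ : Measure Ω)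
    (p : Dir d → ℝ) (G : Ω → SimpleGraph (Pt d)) (W : ℕ → Ω → Pt d) : Prop where
  measurable : ∀ n, Measurable[mΩ] (W n)
  start : ∀ᵐ ω ∂μ, W 0 ω = 0
  step : ∀ (n : ℕ) (y : Pt d) (A : Set Ω),
    MeasurableSet[m ⊔ ⨆ k : Fin (n + 1), MeasurableSpace.comap (W k) ⊤] A →
      μ (A ∩ {ω | W (n + 1) ω = y}) =
        ∫⁻ ω in A, ENNReal.ofReal (stepProb p (G ω) (W n ω) y) ∂μ

/-- The environments: `Z^(0)` is the lattice and `Z^(i+1)` is the trace of `X^(i)`. -/
def env {Ω : Type*} (X : ℕ → ℕ → Ω → Pt d) : ℕ → Ω → SimpleGraph (Pt d)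
  | 0, _ => lattice d
  | i + 1, ω => traceGraph fun n => X i n ω

/-- The limiting environment, the intersection of all the environments. -/
def envInf {Ω : Type*} (X : ℕ → ℕ → Ω → Pt d) (ω : Ω) : SimpleGraph (Pt d) :=
  ⨅ i : ℕ, env X i ω

/-- `X i n` is the position at time `n` of the walk `X^(i)`, and `Y n` that of `X^(∞)`.
Conditionally on the walks `X^(j)`, `j < i`, the walk `X^(i)` is a `p^(i)`-random walk on `Z^(i)`;
conditionally on `Z^(∞)`, the walk `Y` is a `p^(∞)`-random walk on `Z^(∞)`. -/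
structure IsIteratedWalk {Ω : Type*} [MeasurableSpace Ω] (μ : Measure Ω)
    (p : ℕ → Dir d → ℝ) (pInf : Dir d → ℝ) (X : ℕ → ℕ → Ω → Pt d) (Y : ℕ → Ω → Pt d) : Prop where
  walk : ∀ i : ℕ, IsWalkOn
    (⨆ j : Fin i, ⨆ n : ℕ, MeasurableSpace.comap (X j n) ⊤) μ (p i) (env X i) (X i)
  walkInf : IsWalkOn
    (⨆ ab : Pt d × Pt d, MeasurableSpace.comap (fun ω => (envInf X ω).Adj ab.1 ab.2) ⊤)
    μ pInf (envInf X) Y

/-- The drift vector `δ_j = p(e_j) - p(-e_j)`. -/
def drift (p : Dir d → ℝ) (j : Fin d) : ℝ := p (j, true) - p (j, false)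

/-- `ℓ̂_j = log (p(e_j) / p(-e_j))`. -/
noncomputable def ellHat (p : Dir d → ℝ) (j : Fin d) : ℝ := Real.log (p (j, true) / p (j, false))

/-- `ℓ = ℓ̂ / ‖ℓ̂‖`. -/
noncomputable def ell (p : Dir d → ℝ) (j : Fin d) : ℝ :=
  ellHat p j / Real.sqrt (∑ k, ellHat p k ^ 2)

/-- Condition (C), together with the requirement that all `p^(i)` are probability
distributions. -/
structure CondC (i₀ : Fin d) (p : ℕ → Dir d → ℝ) (pInf : Dir d → ℝ) : Prop where
  sum_one : ∀ i, ∑ e, p i e = 1
  sum_one_inf : ∑ e, pInf e = 1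
  drift_nonneg : ∀ j, 0 ≤ drift (p 0) j
  drift_pos : 0 < drift (p 0) i₀
  pos : ∀ i e, 0 < p i e
  pos_inf : ∀ e, 0 < pInf e
  dot_pos : ∀ i, 1 ≤ i → 0 < ∑ j, drift (p 0) j * ell (p i) j
  dot_pos_inf : 0 < ∑ j, drift (p 0) j * ell pInf j

end Pool.Agent.Helper97.IW
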