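import Mathlib
import Pool.Agent.Helper97.IterWalk.Defs

open MeasureTheory Filter Topology Set

namespace Pool.Agent.Helper97.IW

set_option linter.unusedSectionVars false

variable {d : ℕ}

/-- One step of a stack walk; the state is the position together with the visit counts.
If `g = some e` then the instruction `e` at the origin means to stay. -/
def stp (g : Option (Dir d)) (I : Pt d → ℕ → Dir d) (s : Pt d × (Pt d → ℕ)) :
    Pt d × (Pt d → ℕ) :=
  (if s.1 = 0 ∧ some (I s.1 (s.2 s.1)) = g then 0 else s.1 + vec (I s.1 (s.2 s.1)),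
   fun v => s.2 v + if v = s.1 then 1 else 0)

/-- The state after `n` steps. -/
def st (g : Option (Dir d)) (I : Pt d → ℕ → Dir d) : ℕ → Pt d × (Pt d → ℕ)
  | 0 => (0, fun _ => 0)
  | n + 1 => stp g I (st g I n)

/-- The position after `n` steps. -/
def pos (g : Option (Dir d)) (I : Pt d → ℕ → Dir d) (n : ℕ) : Pt d := (st g I n).1

/-- The visit counts before time `n`. -/
def cnt (g : Option (Dir d)) (I : Pt d → ℕ → Dir d) (n : ℕ) : Pt d → ℕ := (st g I n).2

/-- The instruction used at time `n`. -/
def ins (g : Option (Dir d)) (I : Pt d → ℕ → Dir d) (n : ℕ) : Dir d :=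
  I (pos g I n) (cnt g I n (pos g I n))

lemma pos_zero (g : Option (Dir d)) (I : Pt d → ℕ → Dir d) : pos g I 0 = 0 := rfl

lemma cnt_zero (g : Option (Dir d)) (I : Pt d → ℕ → Dir d) (v : Pt d) : cnt g I 0 v = 0 := rfl

lemma pos_succ (g : Option (Dir d)) (I : Pt d → ℕ → Dir d) (n : ℕ) :
    pos g I (n + 1) = if pos g I n = 0 ∧ some (ins g I n) = g then 0
      else pos g I n + vec (ins g I n) := rfl

lemma cnt_succ (g : Option (Dir d)) (I : Pt d → ℕ → Dir d) (n : ℕ) (v : Pt d) :
    cnt g I (n + 1) v = cnt g I n v + if v = pos g I n then 1 else 0 := rfl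

lemma pos_succ_none (I : Pt d → ℕ → Dir d) (n : ℕ) :
    pos none I (n + 1) = pos none I n + vec (ins none I n) := by
  rw [pos_succ]; simp

lemma cnt_eq_card (g : Option (Dir d)) (I : Pt d → ℕ → Dir d) (n : ℕ) (v : Pt d) :
    cnt g I n v = ((Finset.range n).filter (fun m => pos g I m = v)).card := by
  induction n with
  | zero => simp [cnt_zero]
  | succ n ih =>
    rw [cnt_succ, ih, Finset.range_add_one, Finset.filter_insert]
    by_cases h : pos g I n = v
    · rw [if_pos h.symm, if_pos h, Finset.card_insert_of_notMem (by simp)]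
    · rw [if_neg (fun h' => h h'.symm), if_neg h, add_zero]

/-- The number of visits of `w k` before time `k`. -/
def cw (w : ℕ → Pt d) (k : ℕ) : ℕ := ((Finset.range k).filter (fun j => w j = w k)).card

lemma path_iff (I : Pt d → ℕ → Dir d) (w : ℕ → Pt d) (n : ℕ) :
    (∀ k ≤ n, pos none I k = w k) ↔
      (w 0 = 0 ∧ ∀ k < n, w k + vec (I (w k) (cw w k)) = w (k + 1)) := by
  induction n with
  | zero =>
    simp only [nonpos_iff_eq_zero, forall_eq, pos_zero, not_lt_zero', IsEmpty.forall_iff,
      implies_true, and_true]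
    exact eq_comm
  | succ n ih =>
    have key : (∀ k ≤ n, pos none I k = w k) → ins none I n = I (w n) (cw w n) := by
      intro h
      have h1 : pos none I n = w n := h n le_rfl
      unfold ins
      rw [h1, cnt_eq_card]
      congr 2
      apply Finset.filter_congr
      intro m hm
      rw [h m (Finset.mem_range.1 hm).le]
    constructor
    · intro h
      have h1 : ∀ k ≤ n, pos none I k = w k := fun k hk => h k (by omega)
      obtain ⟨h2, h3⟩ := ih.1 h1
      refine ⟨h2, fun k hk => ?_⟩
      rcases Nat.lt_succ_iff_lt_or_eq.1 hk with h4 | h4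
      · exact h3 k h4
      · subst h4
        rw [← h (k + 1) le_rfl, pos_succ_none, key h1, h1 k le_rfl]
    · rintro ⟨h2, h3⟩
      have h1 := ih.2 ⟨h2, fun k hk => h3 k (by omega)⟩
      intro k hk
      rcases Nat.le_succ_iff.1 hk with h4 | h4
      · exact h1 k h4
      · subst h4
        rw [pos_succ_none, key h1, h1 n le_rfl]
        exact h3 n (by omega)

lemma cw_lt (w : ℕ → Pt d) {k n : ℕ} (hk : k < n) (h : w k = w n) : cw w k < cw w n := by
  unfold cw
  apply Finset.card_lt_card
  rw [Finset.ssubset_iff_of_subset]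
  · exact ⟨k, by simp [hk, h], by simp⟩
  · intro j hj
    simp only [Finset.mem_filter, Finset.mem_range] at hj ⊢
    exact ⟨by omega, by rw [hj.2, h]⟩

end Pool.Agent.Helper97.IW
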