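import Mathlib
import Pool.Agent.Helper97.IterWalk.Walk

open MeasureTheory Filter Topology Set

namespace Pool.Agent.Helper97.IW

set_option linter.unusedSectionVars false

variable {d : ℕ}

/-- An instruction: a choice of a direction for every set of allowed directions. -/
abbrev Instr (d : ℕ) : Type := Finset (Dir d) → Dir d

/-- Index of an instruction: (time index of the vertex, level, number of visit). -/
abbrev Ix : Type := ℕ × ℕ × ℕ

/-- The canonical space. -/
abbrev Om (d : ℕ) : Type := Ix → Instr d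

/-- The walk `X^(0)`. -/
def xs (η : Om d) : ℕ → Pt d
  | 0 => 0
  | n + 1 => xs η n + vec (η (n, 0, 0) Finset.univ)

/-- First visit time of a vertex. -/
noncomputable def fv (η : Om d) (v : Pt d) : ℕ := sInf {n | xs η n = v}

/-- The additional direction at the origin. -/
def ghost (g : Option (Dir d)) (v : Pt d) : Finset (Dir d) := if v = 0 then g.toFinset else ∅

open Classical in
/-- The directions of the edges at `v` crossed by `W`. -/
noncomputable def edg (W : ℕ → Pt d) (v : Pt d) : Finset (Dir d) :=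
  Finset.univ.filter fun e => (∃ n, W n = v ∧ W (n + 1) = v + vec e) ∨
    (∃ n, W n = v + vec e ∧ W (n + 1) = v)

/-- The instruction field at level `a` with allowed sets `A`. -/
noncomputable def Is (η : Om d) (a : ℕ) (A : Pt d → Finset (Dir d)) : Pt d → ℕ → Dir d :=
  fun v m => η (fv η v, a, m) (A v)

/-- The walk at level `a` with allowed sets `A`. -/
noncomputable def Wk (g : Option (Dir d)) (η : Om d) (a : ℕ) (A : Pt d → Finset (Dir d)) :
    ℕ → Pt d := pos g (Is η a A)

/-- Allowed sets of the walk `X^(i+1)`. -/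
noncomputable def al (g : Option (Dir d)) (η : Om d) : ℕ → Pt d → Finset (Dir d)
  | 0 => fun v => edg (xs η) v ∪ ghost g v
  | i + 1 => fun v => edg (Wk g η (i + 2) (al g η i)) v ∪ ghost g v

open Classical in
/-- Allowed sets of the walk `X^(∞)`. -/
noncomputable def alInf (g : Option (Dir d)) (η : Om d) (v : Pt d) : Finset (Dir d) :=
  Finset.univ.filter fun e => ∀ i, e ∈ al g η i v

lemma xs_zero (η : Om d) : xs η 0 = 0 := rfl

lemma xs_succ (η : Om d) (n : ℕ) : xs η (n + 1) = xs η n + vec (η (n, 0, 0) Finset.univ) := rfl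

lemma mem_edg {W : ℕ → Pt d} {v : Pt d} {e : Dir d} :
    e ∈ edg W v ↔ (∃ n, W n = v ∧ W (n + 1) = v + vec e) ∨
      (∃ n, W n = v + vec e ∧ W (n + 1) = v) := by
  simp [edg]

lemma mem_alInf {g : Option (Dir d)} {η : Om d} {v : Pt d} {e : Dir d} :
    e ∈ alInf g η v ↔ ∀ i, e ∈ al g η i v := by
  simp [alInf]

lemma ghost_none (v : Pt d) : ghost none v = ∅ := by
  unfold ghost; split_ifs <;> simp

lemma mem_ghost {e₀ e : Dir d} {v : Pt d} : e ∈ ghost (some e₀) v ↔ v = 0 ∧ e = e₀ := by
  unfold ghost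
  split_ifs with h
  · simp [h]
  · simp [h]

lemma add_vec_opp (v : Pt d) (e : Dir d) : v + vec e + vec (opp e) = v := by
  rw [vec_opp]; abel

lemma edg_symm {W : ℕ → Pt d} {v : Pt d} {e : Dir d} (h : e ∈ edg W v) :
    opp e ∈ edg W (v + vec e) := by
  rw [mem_edg] at h ⊢
  rw [add_vec_opp]
  exact h.symm

lemma edg_left_mem {W : ℕ → Pt d} {v : Pt d} {e : Dir d} (h : e ∈ edg W v) :
    v ∈ Set.range W := by
  rw [mem_edg] at h
  rcases h with ⟨n, h, _⟩ | ⟨n, _, h⟩
  · exact ⟨n, h⟩
  · exact ⟨n + 1, h⟩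

/-- All the instructions are legal. -/
def Legal (η : Om d) : Prop := ∀ i S, S.Nonempty → η i S ∈ S

/-- Admissible environments relative to `X^(0)`. -/
structure GoodA (η : Om d) (A : Pt d → Finset (Dir d)) : Prop where
  sub : ∀ v, A v ⊆ edg (xs η) v
  symm : ∀ v e, e ∈ A v → opp e ∈ A (v + vec e)
  ne : (A 0).Nonempty

/-- The main one-step facts. -/
lemma walk_facts {η : Om d} (hη : Legal η) {A : Pt d → Finset (Dir d)} (hA : GoodA η A) (a n : ℕ) :
    (A (Wk none η a A n)).Nonempty ∧
      ins none (Is η a A) n ∈ A (Wk none η a A n) ∧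
      Wk none η a A (n + 1) = Wk none η a A n + vec (ins none (Is η a A) n) := by
  have h3 : ∀ n, Wk none η a A (n + 1) = Wk none η a A n + vec (ins none (Is η a A) n) :=
    fun n => pos_succ_none _ _
  have h1 : ∀ n, (A (Wk none η a A n)).Nonempty ∧ ins none (Is η a A) n ∈ A (Wk none η a A n) := by
    intro n
    induction n with
    | zero =>
      have : Wk none η a A 0 = 0 := rfl
      rw [this]
      exact ⟨hA.ne, hη _ _ hA.ne⟩
    | succ n ih =>
      have : (A (Wk none η a A (n + 1))).Nonempty := by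
        rw [h3]
        exact ⟨_, hA.symm _ _ ih.2⟩
      exact ⟨this, hη _ _ this⟩
  exact ⟨(h1 n).1, (h1 n).2, h3 n⟩

lemma Wk_zero (g : Option (Dir d)) (η : Om d) (a : ℕ) (A : Pt d → Finset (Dir d)) :
    Wk g η a A 0 = 0 := rfl

lemma edg_Wk_sub {η : Om d} (hη : Legal η) {A : Pt d → Finset (Dir d)} (hA : GoodA η A) (a : ℕ)
    (v : Pt d) : edg (Wk none η a A) v ⊆ A v := by
  intro e he
  rw [mem_edg] at he
  rcases he with ⟨n, h1, h2⟩ | ⟨n, h1, h2⟩
  · obtain ⟨_, h4, h5⟩ := walk_facts hη hA a n
    rw [h1] at h4 h5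
    rw [h2] at h5
    have := vec_injective (add_left_cancel h5)
    rw [this]; exact h4
  · obtain ⟨_, h4, h5⟩ := walk_facts hη hA a n
    rw [h1] at h4 h5
    rw [h2] at h5
    have h6 := hA.symm _ _ h4
    rw [← h5] at h6
    have h7 : vec e + vec (ins none (Is η a A) n) = 0 := by
      have : v + (vec e + vec (ins none (Is η a A) n)) = v + 0 := by
        rw [← add_assoc, ← h5, add_zero]
      exact add_left_cancel this
    have h8 : e = opp (ins none (Is η a A) n) := by
      apply vec_injective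
      rw [vec_opp]
      exact eq_neg_of_add_eq_zero_left h7
    rw [h8]; exact h6

lemma edg_zero_nonempty {W : ℕ → Pt d} (h0 : W 0 = 0) (h1 : ∃ e, W 1 = W 0 + vec e) :
    (edg W 0).Nonempty := by
  obtain ⟨e, he⟩ := h1
  exact ⟨e, mem_edg.2 (Or.inl ⟨0, h0, by rw [he, h0]⟩)⟩

lemma goodA_al {η : Om d} (hη : Legal η) (i : ℕ) : GoodA η (al none η i) := by
  induction i with
  | zero =>
    have : al none η 0 = edg (xs η) := by
      funext v
      show edg (xs η) v ∪ ghost none v = _
      rw [ghost_none, Finset.union_empty]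
    rw [this]
    exact ⟨fun v => Finset.Subset.refl _, fun v e => edg_symm,
      edg_zero_nonempty rfl ⟨_, rfl⟩⟩
  | succ i ih =>
    have : al none η (i + 1) = edg (Wk none η (i + 2) (al none η i)) := by
      funext v
      show edg (Wk none η (i + 2) (al none η i)) v ∪ ghost none v = _
      rw [ghost_none, Finset.union_empty]
    rw [this]
    exact ⟨fun v => (edg_Wk_sub hη ih _ v).trans (ih.sub v), fun v e => edg_symm,
      edg_zero_nonempty rfl ⟨_, (walk_facts hη ih _ 0).2.2⟩⟩

lemma al_none_zero (η : Om d) : al none η 0 = edg (xs η) := by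
  funext v
  show edg (xs η) v ∪ ghost none v = _
  rw [ghost_none, Finset.union_empty]

lemma al_none_succ (η : Om d) (i : ℕ) :
    al none η (i + 1) = edg (Wk none η (i + 2) (al none η i)) := by
  funext v
  show edg (Wk none η (i + 2) (al none η i)) v ∪ ghost none v = _
  rw [ghost_none, Finset.union_empty]

lemma al_succ_sub {η : Om d} (hη : Legal η) (i : ℕ) (v : Pt d) :
    al none η (i + 1) v ⊆ al none η i v := by
  rw [al_none_succ]
  exact edg_Wk_sub hη (goodA_al hη i) _ v

lemma al_anti {η : Om d} (hη : Legal η) (v : Pt d) : Antitone (fun i => al none η i v) :=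
  antitone_nat_of_succ_le fun i => al_succ_sub hη i v

/-- Stabilization of a decreasing sequence of finite sets. -/
lemma exists_stab {η : Om d} (hη : Legal η) (v : Pt d) :
    ∃ i₀, ∀ i, i₀ ≤ i → al none η i v = alInf none η v := by
  classical
  have h : ∀ e : Dir d, ∃ i₀, ∀ i, i₀ ≤ i → (e ∈ al none η i v ↔ e ∈ alInf none η v) := by
    intro e
    by_cases he : e ∈ alInf none η v
    · exact ⟨0, fun i _ => ⟨fun _ => he, fun _ => mem_alInf.1 he i⟩⟩
    · have : ∃ i, e ∉ al none η i v := by
        rw [mem_alInf] at he; push Not at he; exact he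
      obtain ⟨i₀, hi₀⟩ := this
      exact ⟨i₀, fun i hi => ⟨fun h => absurd (al_anti hη v hi h) hi₀, fun h => absurd h he⟩⟩
  choose f hf using h
  refine ⟨Finset.univ.sup f, fun i hi => ?_⟩
  ext e
  exact hf e i ((Finset.le_sup (Finset.mem_univ e)).trans hi)

lemma exists_stab_finset {η : Om d} (hη : Legal η) (F : Finset (Pt d)) :
    ∃ i₀, ∀ v ∈ F, al none η i₀ v = alInf none η v := by
  choose f hf using exists_stab hη
  exact ⟨F.sup f, fun v hv => hf v _ (Finset.le_sup hv)⟩

lemma goodA_alInf {η : Om d} (hη : Legal η) : GoodA η (alInf none η) := by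
  refine ⟨fun v e he => ?_, fun v e he => ?_, ?_⟩
  · have := mem_alInf.1 he 0
    rwa [al_none_zero] at this
  · rw [mem_alInf] at he ⊢
    exact fun i => (goodA_al hη i).symm v e (he i)
  · obtain ⟨i₀, h⟩ := exists_stab hη (0 : Pt d)
    rw [← h i₀ le_rfl]
    exact (goodA_al hη i₀).ne

end Pool.Agent.Helper97.IW
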