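import Mathlib
import Pool.Agent.Helper97.IterWalk.Sys

open MeasureTheory Filter Topology Set

namespace Pool.Agent.Helper97.IW

set_option linter.unusedSectionVars false

variable {d : ℕ}

/-- Time shift of the instructions. -/
def sh (σ : ℕ) (η : Om d) : Om d := fun i => η (σ + i.1, i.2.1, i.2.2)

/-- `σ` is a cut time of `X^(0)`. -/
def IsCut (i₀ : Fin d) (η : Om d) (σ : ℕ) : Prop :=
  1 ≤ σ ∧ (∀ m < σ, xs η m i₀ < xs η σ i₀) ∧ (∀ m, σ ≤ m → xs η σ i₀ ≤ xs η m i₀)

lemma xs_sh (σ : ℕ) (η : Om d) (n : ℕ) : xs (sh σ η) n = xs η (σ + n) - xs η σ := by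
  induction n with
  | zero => simp [xs_zero]
  | succ n ih =>
    rw [xs_succ, ih, ← add_assoc, xs_succ η (σ + n)]
    show _ + vec (η (σ + n, 0, 0) Finset.univ) = _
    abel

lemma sh_sh (σ τ : ℕ) (η : Om d) : sh τ (sh σ η) = sh (σ + τ) η := by
  funext i
  show η (σ + (τ + i.1), i.2.1, i.2.2) = η (σ + τ + i.1, i.2.1, i.2.2)
  rw [add_assoc]

lemma legal_sh {η : Om d} (hη : Legal η) (σ : ℕ) : Legal (sh σ η) :=
  fun _ S hS => hη _ S hS

lemma fv_sh {i₀ : Fin d} {η : Om d} {σ : ℕ} (hc : IsCut i₀ η σ) {v : Pt d} (hv : 0 ≤ v i₀)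
    (hr : v + xs η σ ∈ Set.range (xs η)) : fv η (v + xs η σ) = σ + fv (sh σ η) v := by
  have hne : {n | xs η n = v + xs η σ}.Nonempty := hr
  have h1 : xs η (fv η (v + xs η σ)) = v + xs η σ := Nat.sInf_mem hne
  have h2 : σ ≤ fv η (v + xs η σ) := by
    by_contra hlt
    push Not at hlt
    have := hc.2.1 _ hlt
    rw [h1] at this
    simp only [Pi.add_apply] at this
    omega
  obtain ⟨k, hk⟩ := Nat.exists_eq_add_of_le h2
  have h3 : xs (sh σ η) k = v := by
    rw [xs_sh, ← hk, h1]; abel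
  have h4 : fv (sh σ η) v ≤ k := Nat.sInf_le h3
  have h5 : xs (sh σ η) (fv (sh σ η) v) = v := Nat.sInf_mem (⟨k, h3⟩ : {n | xs (sh σ η) n = v}.Nonempty)
  rw [xs_sh] at h5
  have h6 : fv η (v + xs η σ) ≤ σ + fv (sh σ η) v :=
    Nat.sInf_le (by
      show xs η (σ + fv (sh σ η) v) = v + xs η σ
      exact sub_eq_iff_eq_add.1 h5)
  omega

lemma vec_apply_le (e : Dir d) (i : Fin d) : vec e i ≤ 1 := by
  unfold vec; split_ifs <;> omega

lemma neg_le_vec_apply (e : Dir d) (i : Fin d) : -1 ≤ vec e i := by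
  unfold vec; split_ifs <;> omega

lemma eq_back_of_vec {e : Dir d} {i₀ : Fin d} (h : vec e i₀ < 0) : e = (i₀, false) := by
  obtain ⟨j, b⟩ := e
  unfold vec at h
  simp only at h
  by_cases hj : i₀ = j
  · subst hj
    rw [if_pos rfl] at h
    cases b
    · rfl
    · simp at h
  · rw [if_neg hj] at h; omega

lemma vec_back (i₀ : Fin d) : vec ((i₀, false) : Dir d) i₀ = -1 := by
  simp [vec]

/-- The only edge crossing a cut from right to left. -/
lemma cross {i₀ : Fin d} {η : Om d} {σ : ℕ} (hc : IsCut i₀ η σ) {v : Pt d} {e : Dir d}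
    (he : e ∈ edg (xs η) v) (h1 : xs η σ i₀ ≤ v i₀) (h2 : (v + vec e) i₀ < xs η σ i₀) :
    v = xs η σ ∧ e = (i₀, false) := by
  have hb : e = (i₀, false) := by
    apply eq_back_of_vec
    simp only [Pi.add_apply] at h2
    omega
  refine ⟨?_, hb⟩
  have hR : ∀ n, xs η n = v → σ ≤ n := by
    intro n hn
    by_contra hlt
    push Not at hlt
    have := hc.2.1 _ hlt
    rw [hn] at this
    omega
  have hL : ∀ n, xs η n = v + vec e → n < σ := by
    intro n hn
    by_contra hlt
    push Not at hlt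
    have := hc.2.2 _ hlt
    rw [hn] at this
    omega
  rw [mem_edg] at he
  rcases he with ⟨n, h3, h4⟩ | ⟨n, h3, h4⟩
  · have := hR n h3
    have := hL _ h4
    omega
  · have h5 := hR _ h4
    have h6 := hL _ h3
    have : σ = n + 1 := by omega
    rw [this, h4]

/-- Number of times before `n` at which `W` is in the half space `{b ≤ x_{i₀}}`. -/
def rc (i₀ : Fin d) (b : ℤ) (W : ℕ → Pt d) : ℕ → ℕ
  | 0 => 0
  | n + 1 => rc i₀ b W n + if b ≤ W n i₀ then 1 else 0

/-- The situation of the restriction lemma. -/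
structure Restr (i₀ : Fin d) (η : Om d) (σ : ℕ) (A A' : Pt d → Finset (Dir d)) : Prop where
  cut : IsCut i₀ η σ
  legal : Legal η
  good : GoodA η A
  mtch : ∀ v, 0 ≤ v i₀ → v + xs η σ ∈ Set.range (xs η) → A' v = A (v + xs η σ)

section

variable {i₀ : Fin d} {η : Om d} {σ : ℕ} {A A' : Pt d → Finset (Dir d)}

lemma Wk_mem_range (hη : Legal η) (hA : GoodA η A) (a n : ℕ) :
    Wk none η a A n ∈ Set.range (xs η) := by
  obtain ⟨e, he⟩ := (walk_facts hη hA a n).1
  exact edg_left_mem (hA.sub _ he)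

theorem restr_inv (h : Restr i₀ η σ A A') (a n : ℕ) :
    (xs η σ i₀ ≤ Wk none η a A n i₀ →
      Wk (some (i₀, false)) (sh σ η) a A' (rc i₀ (xs η σ i₀) (Wk none η a A) n) =
        Wk none η a A n - xs η σ) ∧
    (Wk none η a A n i₀ < xs η σ i₀ →
      Wk (some (i₀, false)) (sh σ η) a A' (rc i₀ (xs η σ i₀) (Wk none η a A) n) = 0) ∧
    (∀ v : Pt d, 0 ≤ v i₀ → cnt none (Is η a A) n (v + xs η σ) =
      cnt (some (i₀, false)) (Is (sh σ η) a A') (rc i₀ (xs η σ i₀) (Wk none η a A) n) v) := by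
  set c := xs η σ with hcdef
  set W := Wk none η a A with hW
  set W' := Wk (some (i₀, false)) (sh σ η) a A' with hW'
  induction n with
  | zero =>
    have hW0 : W 0 = 0 := rfl
    have h0 : W 0 i₀ < c i₀ := by
      have := h.cut.2.1 0 (by have := h.cut.1; omega)
      simpa [hW0, xs_zero] using this
    refine ⟨fun h1 => by omega, fun _ => rfl, fun v _ => rfl⟩
  | succ n ih =>
    obtain ⟨ih1, ih2, ih3⟩ := ih
    obtain ⟨f1, f2, f3⟩ := walk_facts h.legal h.good a n
    rw [← hW] at f1 f2 f3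
    set e := ins none (Is η a A) n with he
    have hstep : vec e i₀ ≤ 1 := vec_apply_le e i₀
    have hW1 : W (n + 1) i₀ = W n i₀ + vec e i₀ := by rw [f3]; rfl
    by_cases hr : c i₀ ≤ W n i₀
    · -- the walk is on the right
      have hrc : rc i₀ (c i₀) W (n + 1) = rc i₀ (c i₀) W n + 1 := by
        show rc i₀ (c i₀) W n + (if c i₀ ≤ W n i₀ then 1 else 0) = _
        rw [if_pos hr]
      have e1 := ih1 hr
      have hv0 : 0 ≤ (W n - c) i₀ := by simp only [Pi.sub_apply]; omega
      have hrange : (W n - c) + c ∈ Set.range (xs η) := by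
        rw [sub_add_cancel]; exact Wk_mem_range h.legal h.good a n
      have einst : ins (some (i₀, false)) (Is (sh σ η) a A') (rc i₀ (c i₀) W n) = e := by
        show Is (sh σ η) a A' (W' (rc i₀ (c i₀) W n)) (cnt _ _ _ (W' (rc i₀ (c i₀) W n))) = _
        rw [e1, he]
        show (sh σ η) (fv (sh σ η) (W n - c), a, _) (A' (W n - c)) =
          η (fv η (W n), a, _) (A (W n))
        rw [h.mtch _ hv0 hrange, sub_add_cancel, ← ih3 _ hv0, sub_add_cancel]
        show η (σ + fv (sh σ η) (W n - c), a, _) _ = _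
        rw [← fv_sh h.cut hv0 hrange, sub_add_cancel]
        rfl
      have hW'1 : W' (rc i₀ (c i₀) W n + 1) =
          if W n - c = 0 ∧ e = (i₀, false) then 0 else W n - c + vec e := by
        rw [hW']
        show pos _ _ _ = _
        have a2 : pos (some (i₀, false)) (Is (sh σ η) a A') (rc i₀ (c i₀) W n) = W n - c := e1
        rw [pos_succ, einst]
        simp only [a2, Option.some.injEq]
      have hcnt : ∀ v : Pt d, 0 ≤ v i₀ → cnt none (Is η a A) (n + 1) (v + c) =
          cnt (some (i₀, false)) (Is (sh σ η) a A') (rc i₀ (c i₀) W n + 1) v := by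
        intro v hv
        rw [cnt_succ, cnt_succ, ih3 v hv]
        have : (v + c = pos none (Is η a A) n) ↔
            (v = pos (some (i₀, false)) (Is (sh σ η) a A') (rc i₀ (c i₀) W n)) := by
          have a1 : pos none (Is η a A) n = W n := rfl
          have a2 : pos (some (i₀, false)) (Is (sh σ η) a A') (rc i₀ (c i₀) W n) =
            W' (rc i₀ (c i₀) W n) := rfl
          rw [a1, a2, e1]
          exact ⟨fun h => by rw [← h]; abel, fun h => by rw [h]; abel⟩
        simp only [this]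
      rw [hrc]
      refine ⟨fun h1 => ?_, fun h1 => ?_, hcnt⟩
      · rw [hW'1, if_neg, f3]
        · abel
        · rintro ⟨h2, h3⟩
          have : W n = c := sub_eq_zero.1 h2
          rw [hW1, h3, vec_back, this] at h1
          omega
      · have hcr := cross h.cut (h.good.sub _ f2) hr (by
          rw [← f3]; exact h1)
        rw [hW'1, if_pos ⟨by rw [hcr.1]; exact sub_self _, hcr.2⟩]
    · -- the walk is on the left
      push Not at hr
      have hrc : rc i₀ (c i₀) W (n + 1) = rc i₀ (c i₀) W n := by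
        show rc i₀ (c i₀) W n + (if c i₀ ≤ W n i₀ then 1 else 0) = _
        rw [if_neg (by omega), add_zero]
      rw [hrc]
      refine ⟨fun h1 => ?_, fun _ => ih2 hr, fun v hv => ?_⟩
      · rw [ih2 hr]
        have h2 : opp e ∈ edg (xs η) (W (n + 1)) := by
          rw [f3]
          exact edg_symm (h.good.sub _ f2)
        have h3 : W (n + 1) + vec (opp e) = W n := by
          rw [f3, add_vec_opp]
        have := (cross h.cut h2 h1 (by rw [h3]; exact hr)).1
        rw [this, sub_self]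
      · rw [cnt_succ, ih3 v hv, if_neg, add_zero]
        intro h1
        have h2 : v + c = W n := h1
        have : (v + c) i₀ = W n i₀ := by rw [h2]
        simp only [Pi.add_apply] at this
        omega

lemma restr_ins (h : Restr i₀ η σ A A') (a n : ℕ) (hr : xs η σ i₀ ≤ Wk none η a A n i₀) :
    ins (some (i₀, false)) (Is (sh σ η) a A') (rc i₀ (xs η σ i₀) (Wk none η a A) n) =
      ins none (Is η a A) n := by
  obtain ⟨ih1, ih2, ih3⟩ := restr_inv h a n
  have e1 := ih1 hr
  have hv0 : 0 ≤ (Wk none η a A n - xs η σ) i₀ := by simp only [Pi.sub_apply]; omega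
  have hrange : (Wk none η a A n - xs η σ) + xs η σ ∈ Set.range (xs η) := by
    rw [sub_add_cancel]; exact Wk_mem_range h.legal h.good a n
  show Is (sh σ η) a A' (Wk (some (i₀, false)) (sh σ η) a A'
    (rc i₀ (xs η σ i₀) (Wk none η a A) n)) (cnt _ _ _ (Wk (some (i₀, false)) (sh σ η) a A'
    (rc i₀ (xs η σ i₀) (Wk none η a A) n))) = _
  rw [e1]
  show (sh σ η) (fv (sh σ η) (Wk none η a A n - xs η σ), a, _) (A' (Wk none η a A n - xs η σ)) =
    η (fv η (Wk none η a A n), a, _) (A (Wk none η a A n))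
  rw [h.mtch _ hv0 hrange, sub_add_cancel, ← ih3 _ hv0, sub_add_cancel]
  show η (σ + fv (sh σ η) (Wk none η a A n - xs η σ), a, _) _ = _
  rw [← fv_sh h.cut hv0 hrange, sub_add_cancel]
  rfl

end

end Pool.Agent.Helper97.IW
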