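import Mathlib
import Pool.Agent.Helper97.IterWalk.Restr

open MeasureTheory Filter Topology Set

namespace Pool.Agent.Helper97.IW

set_option linter.unusedSectionVars false

variable {d : ℕ}

section

variable {i₀ : Fin d} {η : Om d} {σ : ℕ} {A A' : Pt d → Finset (Dir d)}

lemma restr_sum (h : Restr i₀ η σ A A') (a : ℕ) {R : Type*} [AddCommMonoid R] (f : Pt d → R)
    (T : ℕ) :
    ∑ n ∈ Finset.range T, (if xs η σ i₀ ≤ Wk none η a A n i₀ then
      f (Wk none η a A n - xs η σ) else 0) =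
    ∑ m ∈ Finset.range (rc i₀ (xs η σ i₀) (Wk none η a A) T),
      f (Wk (some (i₀, false)) (sh σ η) a A' m) := by
  induction T with
  | zero => rfl
  | succ T ih =>
    rw [Finset.sum_range_succ, ih]
    by_cases hr : xs η σ i₀ ≤ Wk none η a A T i₀
    · have hrc : rc i₀ (xs η σ i₀) (Wk none η a A) (T + 1) =
          rc i₀ (xs η σ i₀) (Wk none η a A) T + 1 := by
        show rc i₀ _ _ T + (if xs η σ i₀ ≤ Wk none η a A T i₀ then 1 else 0) = _
        rw [if_pos hr]
      rw [hrc, Finset.sum_range_succ, if_pos hr, (restr_inv h a T).1 hr]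
    · have hrc : rc i₀ (xs η σ i₀) (Wk none η a A) (T + 1) =
          rc i₀ (xs η σ i₀) (Wk none η a A) T := by
        show rc i₀ _ _ T + (if xs η σ i₀ ≤ Wk none η a A T i₀ then 1 else 0) = _
        rw [if_neg hr, add_zero]
      rw [hrc, if_neg hr, add_zero]

lemma rc_mono (b : ℤ) (W : ℕ → Pt d) : Monotone (rc i₀ b W) :=
  monotone_nat_of_le_succ fun n => Nat.le_add_right _ _

lemma rc_succ_le (b : ℤ) (W : ℕ → Pt d) (n : ℕ) : rc i₀ b W (n + 1) ≤ rc i₀ b W n + 1 := by
  show rc i₀ b W n + (if b ≤ W n i₀ then 1 else 0) ≤ _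
  split_ifs <;> omega

/-- Each value of the counter is attained at a right time if the walk is frequently on the
right. -/
lemma rc_surj {b : ℤ} {W : ℕ → Pt d} (h : ∀ N, ∃ n, N ≤ n ∧ b ≤ W n i₀) (k : ℕ) :
    ∃ n, rc i₀ b W n = k ∧ b ≤ W n i₀ := by
  have hunb : ∀ k, ∃ n, k ≤ rc i₀ b W n := by
    intro k
    induction k with
    | zero => exact ⟨0, Nat.zero_le _⟩
    | succ k ih =>
      obtain ⟨N, hN⟩ := ih
      obtain ⟨n, hn, hb⟩ := h N
      refine ⟨n + 1, ?_⟩
      show k + 1 ≤ rc i₀ b W n + (if b ≤ W n i₀ then 1 else 0)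
      rw [if_pos hb]
      have := rc_mono (i₀ := i₀) b W hn
      omega
  -- the first time the counter exceeds `k`
  have hex : ∃ n, k + 1 ≤ rc i₀ b W n := hunb (k + 1)
  classical
  have hf := Nat.find_spec hex
  have hne : Nat.find hex ≠ 0 := by
    intro h0
    rw [h0] at hf
    have : rc i₀ b W 0 = 0 := rfl
    omega
  obtain ⟨m, hm⟩ := Nat.exists_eq_succ_of_ne_zero hne
  have hmin : ¬ (k + 1 ≤ rc i₀ b W m) := Nat.find_min hex (by omega)
  rw [hm] at hf
  have hs : rc i₀ b W (m + 1) = rc i₀ b W m + (if b ≤ W m i₀ then 1 else 0) := rfl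
  refine ⟨m, ?_, ?_⟩
  · have := rc_succ_le (i₀ := i₀) b W m
    simp only [Nat.succ_eq_add_one] at hf
    omega
  · by_contra hb
    rw [if_neg hb] at hs
    simp only [Nat.succ_eq_add_one] at hf
    omega

lemma back_mem (hc : IsCut i₀ η σ) {W : ℕ → Pt d}
    (hW : ∀ n, ∃ e ∈ edg (xs η) (W n), W (n + 1) = W n + vec e)
    (h0 : W 0 i₀ < xs η σ i₀) (h1 : ∃ n, xs η σ i₀ ≤ W n i₀) :
    (i₀, false) ∈ edg W (xs η σ) := by
  classical
  have hf := Nat.find_spec h1
  have hne : Nat.find h1 ≠ 0 := by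
    intro h
    rw [h] at hf
    omega
  obtain ⟨m, hm⟩ := Nat.exists_eq_succ_of_ne_zero hne
  have hmin : ¬ (xs η σ i₀ ≤ W m i₀) := Nat.find_min h1 (by omega)
  rw [hm] at hf
  simp only [Nat.succ_eq_add_one] at hf
  obtain ⟨e, he, he2⟩ := hW m
  have h2 : opp e ∈ edg (xs η) (W (m + 1)) := by rw [he2]; exact edg_symm he
  have h3 : W (m + 1) + vec (opp e) = W m := by rw [he2, add_vec_opp]
  obtain ⟨c1, c2⟩ := cross hc h2 hf (by rw [h3]; omega)
  rw [mem_edg]
  refine Or.inr ⟨m, ?_, c1⟩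
  rw [← c1, ← c2, h3]

lemma xs_step (η : Om d) (n : ℕ) : ∃ e ∈ edg (xs η) (xs η n), xs η (n + 1) = xs η n + vec e :=
  ⟨η (n, 0, 0) Finset.univ, mem_edg.2 (Or.inl ⟨n, rfl, rfl⟩), rfl⟩

lemma Wk_step (hη : Legal η) (hA : GoodA η A) (a n : ℕ) :
    ∃ e ∈ edg (xs η) (Wk none η a A n), Wk none η a A (n + 1) = Wk none η a A n + vec e :=
  ⟨_, hA.sub _ (walk_facts hη hA a n).2.1, (walk_facts hη hA a n).2.2⟩

lemma cut_zero_lt (hc : IsCut i₀ η σ) : (0 : Pt d) i₀ < xs η σ i₀ := by
  have := hc.2.1 0 (by have := hc.1; omega)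
  simpa [xs_zero] using this

/-- The trace of `X^(0)` on the right of a cut. -/
lemma edg_xs_match (hc : IsCut i₀ η σ) {v : Pt d} (hv : 0 ≤ v i₀) :
    edg (xs (sh σ η)) v ∪ ghost (some (i₀, false)) v = edg (xs η) (v + xs η σ) := by
  ext e
  rw [Finset.mem_union, mem_ghost]
  have hRight : ∀ n u, xs η n = u + xs η σ → 0 ≤ u i₀ → σ ≤ n := by
    intro n u hn hu
    by_contra hlt
    push Not at hlt
    have := hc.2.1 _ hlt
    rw [hn] at this
    simp only [Pi.add_apply] at this
    omega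
  constructor
  · rintro (h | ⟨rfl, rfl⟩)
    · rw [mem_edg] at h ⊢
      rcases h with ⟨n, h1, h2⟩ | ⟨n, h1, h2⟩
      · left
        refine ⟨σ + n, ?_, ?_⟩
        · rw [xs_sh] at h1; rw [← h1]; abel
        · rw [xs_sh] at h2
          have : xs η (σ + n + 1) = (v + vec e) + xs η σ := by
            rw [← h2, add_assoc σ n 1]; abel
          rw [this]; abel
      · right
        refine ⟨σ + n, ?_, ?_⟩
        · rw [xs_sh] at h1
          have : xs η (σ + n) = (v + vec e) + xs η σ := by rw [← h1]; abel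
          rw [this]; abel
        · rw [xs_sh] at h2; rw [← h2, add_assoc σ n 1]; abel
    · rw [zero_add]
      exact back_mem hc (xs_step η) (by rw [xs_zero]; exact cut_zero_lt hc) ⟨σ, le_rfl⟩
  · intro h
    by_cases hve : (v + vec e) i₀ < 0
    · right
      have := cross hc h (by simp only [Pi.add_apply]; omega)
        (by simp only [Pi.add_apply] at hve ⊢; omega)
      refine ⟨?_, this.2⟩
      have h2 := this.1
      have : v = v + xs η σ - xs η σ := by abel
      rw [this, h2, sub_self]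
    · push Not at hve
      left
      rw [mem_edg] at h ⊢
      rcases h with ⟨n, h1, h2⟩ | ⟨n, h1, h2⟩
      · left
        obtain ⟨k, rfl⟩ := Nat.exists_eq_add_of_le (hRight n v h1 hv)
        refine ⟨k, by rw [xs_sh, h1]; abel, ?_⟩
        rw [xs_sh, ← add_assoc, h2]; abel
      · right
        obtain ⟨k, rfl⟩ := Nat.exists_eq_add_of_le (hRight n (v + vec e) (by rw [h1]; abel) hve)
        refine ⟨k, by rw [xs_sh, h1]; abel, ?_⟩
        rw [xs_sh, ← add_assoc, h2]; abel

/-- The trace of a walk on the right of a cut. -/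
lemma edg_Wk_match (h : Restr i₀ η σ A A') (a : ℕ)
    (hfr : ∀ N, ∃ n, N ≤ n ∧ xs η σ i₀ ≤ Wk none η a A n i₀) {v : Pt d} (hv : 0 ≤ v i₀) :
    edg (Wk (some (i₀, false)) (sh σ η) a A') v ∪ ghost (some (i₀, false)) v =
      edg (Wk none η a A) (v + xs η σ) := by
  ext e
  rw [Finset.mem_union, mem_ghost]
  have hsub : ∀ u, edg (Wk none η a A) u ⊆ edg (xs η) u := fun u =>
    (edg_Wk_sub h.legal h.good a u).trans (h.good.sub u)
  -- a step of the restricted walk which is not a ghost step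
  have hstep : ∀ k, Wk (some (i₀, false)) (sh σ η) a A' (k + 1) ≠
      Wk (some (i₀, false)) (sh σ η) a A' k →
      ∃ n, Wk none η a A n = Wk (some (i₀, false)) (sh σ η) a A' k + xs η σ ∧
        Wk none η a A (n + 1) = Wk (some (i₀, false)) (sh σ η) a A' (k + 1) + xs η σ := by
    intro k hk
    obtain ⟨n, hn, hr⟩ := rc_surj hfr k
    have e1 := (restr_inv h a n).1 hr
    have e2 := restr_ins h a n hr
    rw [hn] at e1 e2
    refine ⟨n, by rw [e1]; abel, ?_⟩
    have e3 : Wk (some (i₀, false)) (sh σ η) a A' (k + 1) =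
        if Wk (some (i₀, false)) (sh σ η) a A' k = 0 ∧
          some (ins (some (i₀, false)) (Is (sh σ η) a A') k) = some (i₀, false) then 0
        else Wk (some (i₀, false)) (sh σ η) a A' k +
          vec (ins (some (i₀, false)) (Is (sh σ η) a A') k) := pos_succ _ _ _
    split_ifs at e3 with hg
    · exfalso
      exact hk (by rw [e3, hg.1])
    · rw [e3, e2, e1, (walk_facts h.legal h.good a n).2.2]
      abel
  constructor
  · rintro (h1 | ⟨rfl, rfl⟩)
    · rw [mem_edg] at h1 ⊢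
      rcases h1 with ⟨k, h1, h2⟩ | ⟨k, h1, h2⟩
      · left
        obtain ⟨n, hn1, hn2⟩ := hstep k (by
          rw [h1, h2]; intro hh; exact vec_ne_zero e (by simpa using hh))
        exact ⟨n, by rw [hn1, h1], by rw [hn2, h2]; abel⟩
      · right
        obtain ⟨n, hn1, hn2⟩ := hstep k (by
          rw [h1, h2]; intro hh; exact vec_ne_zero e (by simpa using hh.symm))
        exact ⟨n, by rw [hn1, h1]; abel, by rw [hn2, h2]⟩
    · rw [zero_add]
      obtain ⟨n, _, hn⟩ := hfr 0
      exact back_mem h.cut (Wk_step h.legal h.good a) (cut_zero_lt h.cut) ⟨n, hn⟩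
  · intro he
    by_cases hve : (v + vec e) i₀ < 0
    · right
      have := cross h.cut (hsub _ he) (by simp only [Pi.add_apply]; omega)
        (by simp only [Pi.add_apply] at hve ⊢; omega)
      refine ⟨?_, this.2⟩
      have h2 := this.1
      have : v = v + xs η σ - xs η σ := by abel
      rw [this, h2, sub_self]
    · push Not at hve
      left
      have hkey : ∀ n u u', Wk none η a A n = u + xs η σ → Wk none η a A (n + 1) = u' + xs η σ →
          0 ≤ u i₀ → 0 ≤ u' i₀ → ∃ k, Wk (some (i₀, false)) (sh σ η) a A' k = u ∧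
            Wk (some (i₀, false)) (sh σ η) a A' (k + 1) = u' := by
        intro n u u' hn hn' hu hu'
        have hr : xs η σ i₀ ≤ Wk none η a A n i₀ := by
          rw [hn]; simp only [Pi.add_apply]; omega
        have hr' : xs η σ i₀ ≤ Wk none η a A (n + 1) i₀ := by
          rw [hn']; simp only [Pi.add_apply]; omega
        have hrc : rc i₀ (xs η σ i₀) (Wk none η a A) (n + 1) =
            rc i₀ (xs η σ i₀) (Wk none η a A) n + 1 := by
          show rc i₀ _ _ n + (if xs η σ i₀ ≤ Wk none η a A n i₀ then 1 else 0) = _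
          rw [if_pos hr]
        refine ⟨rc i₀ (xs η σ i₀) (Wk none η a A) n, ?_, ?_⟩
        · rw [(restr_inv h a n).1 hr, hn]; abel
        · rw [← hrc, (restr_inv h a (n + 1)).1 hr', hn']; abel
      rw [mem_edg] at he ⊢
      rcases he with ⟨n, h1, h2⟩ | ⟨n, h1, h2⟩
      · left
        exact hkey n v (v + vec e) h1 (by rw [h2]; abel) hv hve
      · right
        exact hkey n (v + vec e) v (by rw [h1]; abel) h2 hve hv

/-- All levels match on the right of a cut. -/
lemma al_match (hη : Legal η) (hc : IsCut i₀ η σ)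
    (htr : ∀ i N, ∃ n, N ≤ n ∧ xs η σ i₀ ≤ Wk none η (i + 2) (al none η i) n i₀)
    (i : ℕ) {v : Pt d} (hv : 0 ≤ v i₀) :
    al (some (i₀, false)) (sh σ η) i v = al none η i (v + xs η σ) := by
  induction i generalizing v with
  | zero =>
    rw [al_none_zero]
    exact edg_xs_match hc hv
  | succ i ih =>
    rw [al_none_succ]
    exact edg_Wk_match ⟨hc, hη, goodA_al hη i, fun v hv _ => ih hv⟩ (i + 2) (htr i) hv

lemma alInf_match (hη : Legal η) (hc : IsCut i₀ η σ)
    (htr : ∀ i N, ∃ n, N ≤ n ∧ xs η σ i₀ ≤ Wk none η (i + 2) (al none η i) n i₀)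
    {v : Pt d} (hv : 0 ≤ v i₀) :
    alInf (some (i₀, false)) (sh σ η) v = alInf none η (v + xs η σ) := by
  ext e
  rw [mem_alInf, mem_alInf]
  exact forall_congr' fun i => by rw [al_match hη hc htr i hv]

lemma restr_inf (hη : Legal η) (hc : IsCut i₀ η σ)
    (htr : ∀ i N, ∃ n, N ≤ n ∧ xs η σ i₀ ≤ Wk none η (i + 2) (al none η i) n i₀) :
    Restr i₀ η σ (alInf none η) (alInf (some (i₀, false)) (sh σ η)) :=
  ⟨hc, hη, goodA_alInf hη, fun _ hv _ => alInf_match hη hc htr hv⟩

end

end Pool.Agent.Helper97.IW
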