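import Mathlib
import Pool.Agent.Helper97.IterWalk.Restr2
import Pool.Agent.Helper97.IterWalk.Mix

open MeasureTheory ProbabilityTheory Filter Topology Set

namespace Pool.Agent.Helper97.IW

set_option linter.unusedSectionVars false

variable {d : ℕ}

/-- A probability distribution on the directions with positive masses. -/
structure PD (d : ℕ) where
  /-- the masses -/
  p : Dir d → ℝ
  pos : ∀ e, 0 < p e
  sum_one : ∑ e, p e = 1

lemma PD.nonempty (Q : PD d) : Nonempty (Dir d) := by
  by_contra h
  rw [not_nonempty_iff] at h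
  have := Q.sum_one
  rw [Finset.univ_eq_empty, Finset.sum_empty] at this
  exact zero_ne_one this

/-- Replace the empty set by the full set. -/
def ful (S : Finset (Dir d)) : Finset (Dir d) := if S.Nonempty then S else Finset.univ

lemma ful_nonempty (Q : PD d) (S : Finset (Dir d)) : (ful S).Nonempty := by
  haveI := Q.nonempty
  unfold ful
  split_ifs with h
  · exact h
  · exact Finset.univ_nonempty

lemma ful_of_nonempty {S : Finset (Dir d)} (h : S.Nonempty) : ful S = S := if_pos h

/-- Conditional probabilities. -/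
noncomputable def qq (p : Dir d → ℝ) (S : Finset (Dir d)) (e : Dir d) : ℝ :=
  if e ∈ ful S then p e / ∑ e' ∈ ful S, p e' else 0

lemma qq_nonneg (Q : PD d) (S : Finset (Dir d)) (e : Dir d) : 0 ≤ qq Q.p S e := by
  unfold qq
  split_ifs
  · exact div_nonneg (Q.pos e).le (Finset.sum_nonneg fun e _ => (Q.pos e).le)
  · exact le_rfl

lemma qq_sum (Q : PD d) (S : Finset (Dir d)) : ∑ e, qq Q.p S e = 1 := by
  unfold qq
  rw [Finset.sum_ite_mem, Finset.univ_inter, ← Finset.sum_div]
  exact div_self (Finset.sum_pos (fun e _ => Q.pos e) (ful_nonempty Q S)).ne'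

/-- The law of a single choice. -/
noncomputable def qm (Q : PD d) (S : Finset (Dir d)) : Measure (Dir d) :=
  ∑ e, ENNReal.ofReal (qq Q.p S e) • Measure.dirac e

instance (Q : PD d) (S : Finset (Dir d)) : IsProbabilityMeasure (qm Q S) := by
  constructor
  unfold qm
  rw [Measure.finsetSum_apply]
  simp only [Measure.smul_apply, measure_univ, smul_eq_mul, mul_one]
  rw [← ENNReal.ofReal_sum_of_nonneg (fun e _ => qq_nonneg Q S e), qq_sum, ENNReal.ofReal_one]

lemma qm_singleton (Q : PD d) (S : Finset (Dir d)) (e : Dir d) :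
    qm Q S {e} = ENNReal.ofReal (qq Q.p S e) := by
  unfold qm
  rw [Measure.finsetSum_apply]
  simp only [Measure.smul_apply, smul_eq_mul]
  rw [Finset.sum_eq_single e]
  · simp
  · intro b _ hb
    rw [Measure.dirac_apply' _ (measurableSet_singleton e)]
    simp [hb]
  · simp

/-- The law of an instruction. -/
noncomputable def IM (Q : PD d) : Measure (Instr d) := Measure.pi fun S => qm Q S

instance (Q : PD d) : IsProbabilityMeasure (IM Q) := by unfold IM; infer_instance

/-- The canonical measure; `P a` is the distribution used at level `a`. -/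
noncomputable def Pc (P : ℕ → PD d) : Measure (Om d) := Measure.infinitePi fun i : Ix => IM (P i.2.1)

instance (P : ℕ → PD d) : IsProbabilityMeasure (Pc P) := by unfold Pc; infer_instance

lemma map_eval_IM (Q : PD d) (S : Finset (Dir d)) : (IM Q).map (fun f => f S) = qm Q S :=
  (measurePreserving_eval (fun S => qm Q S) S).map_eq

lemma map_eval_Pc (P : ℕ → PD d) (i : Ix) (S : Finset (Dir d)) :
    (Pc P).map (fun η => η i S) = qm (P i.2.1) S := by
  rw [← map_eval_IM, ← Measure.infinitePi_map_eval (fun i : Ix => IM (P i.2.1)) i,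
    Measure.map_map (by fun_prop) (by fun_prop)]
  rfl

lemma Pc_eval (P : ℕ → PD d) (i : Ix) (S : Finset (Dir d)) (e : Dir d) :
    Pc P {η | η i S = e} = ENNReal.ofReal (qq (P i.2.1).p S e) := by
  rw [← qm_singleton, ← map_eval_Pc P i S, Measure.map_apply (by fun_prop)
    (measurableSet_singleton e)]
  rfl

lemma ae_legal (P : ℕ → PD d) : ∀ᵐ η ∂(Pc P), Legal η := by
  unfold Legal
  rw [ae_all_iff]
  intro i
  rw [ae_all_iff]
  intro S
  by_cases hS : S.Nonempty
  swap
  · exact ae_of_all _ fun η h => absurd h hS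
  have : {η : Om d | ¬ (S.Nonempty → η i S ∈ S)} ⊆
      ⋃ e ∈ {e : Dir d | e ∉ S}, {η | η i S = e} := by
    intro η h
    simp only [mem_setOf_eq] at h
    push Not at h
    simp only [mem_iUnion, mem_setOf_eq]
    exact ⟨η i S, h.2, rfl⟩
  refine measure_mono_null this ?_
  rw [measure_biUnion_null_iff (Set.to_countable _)]
  intro e he
  rw [Pc_eval]
  unfold qq
  rw [ful_of_nonempty hS, if_neg he, ENNReal.ofReal_zero]

lemma xs_eq_sum (η : Om d) (n : ℕ) (j : Fin d) :
    ((xs η n j : ℤ) : ℝ) = ∑ k ∈ Finset.range n, ((vec (η (k, 0, 0) Finset.univ) j : ℤ) : ℝ) := by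
  induction n with
  | zero => simp [xs_zero]
  | succ n ih =>
    rw [xs_succ, Finset.sum_range_succ, ← ih]
    simp

lemma qq_univ (Q : PD d) (e : Dir d) : qq Q.p Finset.univ e = Q.p e := by
  haveI := Q.nonempty
  unfold qq
  rw [ful_of_nonempty Finset.univ_nonempty, if_pos (Finset.mem_univ e), Q.sum_one, div_one]

lemma mean_vec (Q : PD d) (j : Fin d) :
    ∫ e, ((vec e j : ℤ) : ℝ) ∂(qm Q Finset.univ) = drift Q.p j := by
  rw [integral_fintype Integrable.of_finite]
  have h1 : ∀ e : Dir d, (qm Q Finset.univ).real {e} = Q.p e := by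
    intro e
    rw [Measure.real, qm_singleton, qq_univ, ENNReal.toReal_ofReal (Q.pos e).le]
  simp only [h1, smul_eq_mul]
  rw [Fintype.sum_prod_type, Finset.sum_eq_single j]
  · simp [vec, drift]
    ring
  · intro k _ hk
    simp [vec, hk.symm]
  · simp

/-- Law of large numbers for `X^(0)`. -/
lemma slln_xs (P : ℕ → PD d) : ∀ᵐ η ∂(Pc P), ∀ j : Fin d,
    Tendsto (fun n : ℕ => ((xs η n j : ℤ) : ℝ) / n) atTop (𝓝 (drift (P 0).p j)) := by
  rw [ae_all_iff]
  intro j
  set g : Instr d → ℝ := fun f => ((vec (f Finset.univ) j : ℤ) : ℝ) with hg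
  have hgm : Measurable g := by
    have : Measurable fun e : Dir d => ((vec e j : ℤ) : ℝ) := measurable_of_countable _
    exact this.comp (measurable_pi_apply _)
  have hgn : ∀ n : ℕ, Measurable fun η : Om d => g (η (n, 0, 0)) := fun n =>
    hgm.comp (measurable_pi_apply _)
  have hindep : iIndepFun (fun (i : Ix) (η : Om d) => g (η i)) (Pc P) := by
    unfold Pc
    exact iIndepFun_infinitePi (P := fun i : Ix => IM (P i.2.1)) (X := fun _ => g)
      (fun _ => hgm)
  have hinj : Function.Injective (fun n : ℕ => ((n, 0, 0) : Ix)) := by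
    intro a b h
    exact congrArg Prod.fst h
  have hindep2 : iIndepFun (fun (n : ℕ) (η : Om d) => g (η (n, 0, 0))) (Pc P) :=
    iIndepFun.precomp hinj hindep
  have hbd : ∀ η : Om d, ∀ n, |g (η (n, 0, 0))| ≤ 1 := by
    intro η n
    show |((vec (η (n, 0, 0) Finset.univ) j : ℤ) : ℝ)| ≤ 1
    rw [abs_le]
    have h1 := neg_le_vec_apply (η (n, 0, 0) Finset.univ) j
    have h2 := vec_apply_le (η (n, 0, 0) Finset.univ) j
    constructor
    · exact_mod_cast h1
    · exact_mod_cast h2
  have hmap : ∀ n : ℕ, (Pc P).map (fun η => η (n, 0, 0)) = IM (P 0) := fun n =>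
    Measure.infinitePi_map_eval (fun i : Ix => IM (P i.2.1)) (n, 0, 0)
  have h := strong_law_ae_real (fun (n : ℕ) (η : Om d) => g (η (n, 0, 0))) (μ := Pc P)
    (Integrable.of_bound (C := 1) (hgn 0).aestronglyMeasurable (ae_of_all _ fun η => hbd η 0))
    (fun i j hij => hindep2.indepFun hij)
    (fun n => ⟨(hgn n).aemeasurable, (hgn 0).aemeasurable, by
      have h1 : ∀ n : ℕ, Measure.map (fun η : Om d => g (η (n, 0, 0))) (Pc P) =
          (IM (P 0)).map g := by
        intro n
        rw [← hmap n, Measure.map_map hgm (by fun_prop)]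
        rfl
      rw [h1 n]
      exact (h1 0).symm⟩)
  have hmean : ∫ η, g (η (0, 0, 0)) ∂(Pc P) = drift (P 0).p j := by
    have hm1 : Measurable fun η : Om d => η (0, 0, 0) Finset.univ := by fun_prop
    rw [← mean_vec, ← map_eval_Pc P (0, 0, 0) Finset.univ, integral_map hm1.aemeasurable
      (measurable_of_countable _).aestronglyMeasurable]
  simp only [hmean] at h
  filter_upwards [h] with η hη
  simp only [xs_eq_sum]
  exact hη

end Pool.Agent.Helper97.IW
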