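import Mathlib
import Pool.Agent.Helper97.IterWalk.Restr
import Pool.Agent.Helper97.IterWalk.Mix

open MeasureTheory ProbabilityTheory Filter Topology Set

namespace Pool.Agent.Helper97.IW

set_option linter.unusedSectionVars false

variable {d : ℕ}

section

variable {Ω : Type*} [MeasurableSpace Ω]

lemma measurable_sInf_nat {S : ℕ → Set Ω} (hS : ∀ n, MeasurableSet (S n)) :
    Measurable (fun ω => sInf {n | ω ∈ S n}) := by
  apply measurable_to_countable'
  intro k
  have : (fun ω => sInf {n | ω ∈ S n}) ⁻¹' {k} =
      (S k ∩ ⋂ j ∈ {j | j < k}, (S j)ᶜ) ∪ {ω | k = 0 ∧ ∀ j, ω ∉ S j} := by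
    ext ω
    simp only [mem_preimage, mem_singleton_iff, mem_union, mem_inter_iff, mem_iInter,
      mem_setOf_eq, mem_compl_iff]
    constructor
    · intro h
      by_cases hne : {n | ω ∈ S n}.Nonempty
      · left
        refine ⟨?_, fun j hj hjS => ?_⟩
        · have := Nat.sInf_mem hne
          rw [h] at this; exact this
        · have := Nat.sInf_le (show j ∈ {n | ω ∈ S n} from hjS)
          omega
      · right
        rw [Set.not_nonempty_iff_eq_empty] at hne
        rw [hne, Nat.sInf_empty] at h
        refine ⟨h.symm, fun j hj => ?_⟩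
        have : j ∈ {n | ω ∈ S n} := hj
        rw [hne] at this
        exact this
    · rintro (⟨h1, h2⟩ | ⟨h1, h2⟩)
      · apply le_antisymm (Nat.sInf_le h1)
        by_contra hlt
        push Not at hlt
        exact h2 _ hlt (Nat.sInf_mem (⟨k, h1⟩ : {n | ω ∈ S n}.Nonempty))
      · have : {n | ω ∈ S n} = ∅ := by
          ext j; simp [h2 j]
        rw [this, Nat.sInf_empty, h1]
  rw [this]
  refine ((hS k).inter (MeasurableSet.biInter (Set.to_countable _) fun j _ => (hS j).compl)).union ?_
  by_cases hk : k = 0
  · simp only [hk, true_and]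
    have : {ω | ∀ j, ω ∉ S j} = ⋂ j, (S j)ᶜ := by ext; simp
    rw [this]
    exact MeasurableSet.iInter fun j => (hS j).compl
  · simp [hk]

/-- the discrete sigma-algebra on finite sets of directions -/
local instance : MeasurableSpace (Finset (Dir d)) := ⊤

local instance : MeasurableSingletonClass (Finset (Dir d)) := ⟨fun _ => trivial⟩

lemma measurable_of_mem {f : Ω → Finset (Dir d)} (h : ∀ e, MeasurableSet {ω | e ∈ f ω}) :
    Measurable f := by
  apply measurable_to_countable'
  intro S
  have : f ⁻¹' {S} = ⋂ e, {ω | e ∈ f ω ↔ e ∈ S} := by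
    ext ω
    simp only [mem_preimage, mem_singleton_iff, mem_iInter, mem_setOf_eq]
    exact Finset.ext_iff
  rw [this]
  refine MeasurableSet.iInter fun e => ?_
  by_cases he : e ∈ S
  · simpa [he] using h e
  · simp only [he, iff_false]
    exact (h e).compl

lemma measurableSet_mem {f : Ω → Finset (Dir d)} (h : Measurable f) (e : Dir d) :
    MeasurableSet {ω | e ∈ f ω} :=
  h (show MeasurableSet {S : Finset (Dir d) | e ∈ S} from trivial)

lemma measurableSet_eq_pt {f : Ω → Pt d} (h : Measurable f) (v : Pt d) :
    MeasurableSet {ω | f ω = v} := h (measurableSet_singleton v)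

lemma measurable_edg {W : Ω → ℕ → Pt d} (hW : ∀ n, Measurable fun ω => W ω n) (v : Pt d) :
    Measurable fun ω => edg (W ω) v := by
  apply measurable_of_mem
  intro e
  simp only [mem_edg, setOf_or, setOf_exists, setOf_and]
  exact (MeasurableSet.iUnion fun n => (measurableSet_eq_pt (hW n) _).inter
    (measurableSet_eq_pt (hW (n + 1)) _)).union (MeasurableSet.iUnion fun n =>
    (measurableSet_eq_pt (hW n) _).inter (measurableSet_eq_pt (hW (n + 1)) _))

section walk

variable {I : Ω → Pt d → ℕ → Dir d}

lemma measurable_walk (g : Option (Dir d)) (hI : ∀ v m, Measurable fun ω => I ω v m) (n : ℕ) :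
    Measurable (fun ω => pos g (I ω) n) ∧ (∀ v, Measurable (fun ω => cnt g (I ω) n v)) ∧
      Measurable (fun ω => ins g (I ω) n) := by
  have key : ∀ n, Measurable (fun ω => pos g (I ω) n) →
      (∀ v, Measurable (fun ω => cnt g (I ω) n v)) → Measurable (fun ω => ins g (I ω) n) := by
    intro n h1 h2
    have h3 : Measurable fun ω => cnt g (I ω) n (pos g (I ω) n) :=
      meas_select (g := fun v ω => cnt g (I ω) n v) h1 h2
    have h4 : Measurable fun ω => (pos g (I ω) n, cnt g (I ω) n (pos g (I ω) n)) :=
      h1.prodMk h3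
    exact meas_select (g := fun (k : Pt d × ℕ) ω => I ω k.1 k.2) h4 fun k => hI _ _
  induction n with
  | zero =>
    have h1 : Measurable (fun ω => pos g (I ω) 0) := measurable_const
    have h2 : ∀ v, Measurable (fun ω => cnt g (I ω) 0 v) := fun v => measurable_const
    exact ⟨h1, h2, key 0 h1 h2⟩
  | succ n ih =>
    obtain ⟨h1, h2, h3⟩ := ih
    have h4 : Measurable (fun ω => pos g (I ω) (n + 1)) := by
      have : (fun ω => pos g (I ω) (n + 1)) = (fun q : Pt d × Dir d =>
          if q.1 = 0 ∧ some q.2 = g then 0 else q.1 + vec q.2) ∘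
          (fun ω => (pos g (I ω) n, ins g (I ω) n)) := rfl
      rw [this]
      exact (measurable_of_countable _).comp (h1.prodMk h3)
    have h5 : ∀ v, Measurable (fun ω => cnt g (I ω) (n + 1) v) := by
      intro v
      have : (fun ω => cnt g (I ω) (n + 1) v) = (fun q : Pt d × ℕ =>
          q.2 + if v = q.1 then 1 else 0) ∘ (fun ω => (pos g (I ω) n, cnt g (I ω) n v)) := rfl
      rw [this]
      exact (measurable_of_countable _).comp (h1.prodMk (h2 v))
    exact ⟨h4, h5, key _ h4 h5⟩

end walk

lemma measurable_xs (n : ℕ) : Measurable fun η : Om d => xs η n := by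
  induction n with
  | zero => exact measurable_const
  | succ n ih =>
    have : (fun η : Om d => xs η (n + 1)) = (fun q : Pt d × Dir d => q.1 + vec q.2) ∘
        (fun η => (xs η n, η (n, 0, 0) Finset.univ)) := rfl
    rw [this]
    exact (measurable_of_countable _).comp (ih.prodMk (by fun_prop))

lemma measurable_fv (v : Pt d) : Measurable fun η : Om d => fv η v :=
  measurable_sInf_nat (S := fun n => {η : Om d | xs η n = v})
    fun n => measurableSet_eq_pt (measurable_xs n) v

lemma measurable_Is (a : ℕ) {A : Om d → Pt d → Finset (Dir d)}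
    (hA : ∀ v, Measurable fun η => A η v) (v : Pt d) (m : ℕ) :
    Measurable fun η => Is η a (A η) v m := by
  have h : Measurable fun η => (fv η v, A η v) := (measurable_fv v).prodMk (hA v)
  exact meas_select (g := fun (k : ℕ × Finset (Dir d)) (η : Om d) => η (k.1, a, m) k.2) h
    fun k => by fun_prop

lemma measurable_Wk (g : Option (Dir d)) (a : ℕ) {A : Om d → Pt d → Finset (Dir d)}
    (hA : ∀ v, Measurable fun η => A η v) (n : ℕ) :
    Measurable fun η => Wk g η a (A η) n :=
  (measurable_walk g (measurable_Is a hA) n).1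

lemma measurable_union_ghost (g : Option (Dir d)) {f : Ω → Finset (Dir d)} (v : Pt d)
    (hf : Measurable f) : Measurable fun ω => f ω ∪ ghost g v := by
  have : (fun ω => f ω ∪ ghost g v) = (fun S : Finset (Dir d) => S ∪ ghost g v) ∘ f := rfl
  rw [this]
  exact (measurable_of_countable _).comp hf

lemma measurable_al (g : Option (Dir d)) (i : ℕ) (v : Pt d) :
    Measurable fun η : Om d => al g η i v := by
  induction i generalizing v with
  | zero =>
    exact measurable_union_ghost g v (measurable_edg (fun n => measurable_xs n) v)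
  | succ i ih =>
    exact measurable_union_ghost g v (measurable_edg (fun n => measurable_Wk g (i + 2) ih n) v)

lemma measurable_alInf (g : Option (Dir d)) (v : Pt d) :
    Measurable fun η : Om d => alInf g η v := by
  apply measurable_of_mem
  intro e
  simp only [mem_alInf, setOf_forall]
  exact MeasurableSet.iInter fun i => measurableSet_mem (measurable_al g i v) e

/-- The walk `X^(i+1)` at time `n`. -/
lemma measurable_Wal (g : Option (Dir d)) (i n : ℕ) :
    Measurable fun η : Om d => Wk g η (i + 2) (al g η i) n :=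
  measurable_Wk g (i + 2) (measurable_al g i) n

lemma measurable_WInf (g : Option (Dir d)) (n : ℕ) :
    Measurable fun η : Om d => Wk g η 1 (alInf g η) n :=
  measurable_Wk g 1 (measurable_alInf g) n

lemma measurableSet_mem_al (g : Option (Dir d)) (i : ℕ) (v : Pt d) (e : Dir d) :
    MeasurableSet {η : Om d | e ∈ al g η i v} := measurableSet_mem (measurable_al g i v) e

lemma measurableSet_mem_alInf (g : Option (Dir d)) (v : Pt d) (e : Dir d) :
    MeasurableSet {η : Om d | e ∈ alInf g η v} := measurableSet_mem (measurable_alInf g v) e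

lemma measurable_sh (σ : ℕ) : Measurable (sh σ : Om d → Om d) := by
  unfold sh; fun_prop

lemma measurableSet_isCut (i₀ : Fin d) (σ : ℕ) : MeasurableSet {η : Om d | IsCut i₀ η σ} := by
  have hm : ∀ m n (r : ℤ → ℤ → Prop), MeasurableSet {η : Om d | r (xs η m i₀) (xs η n i₀)} := by
    intro m n r
    have : {η : Om d | r (xs η m i₀) (xs η n i₀)} =
        (fun η : Om d => (xs η m, xs η n)) ⁻¹' {q | r (q.1 i₀) (q.2 i₀)} := rfl
    rw [this]
    exact ((measurable_xs m).prodMk (measurable_xs n)) (Set.to_countable _).measurableSet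
  have : {η : Om d | IsCut i₀ η σ} = {η | 1 ≤ σ} ∩ (⋂ m ∈ {m | m < σ},
      {η | xs η m i₀ < xs η σ i₀}) ∩ (⋂ m ∈ {m | σ ≤ m}, {η | xs η σ i₀ ≤ xs η m i₀}) := by
    ext η
    simp only [IsCut, mem_inter_iff, mem_iInter, mem_setOf_eq]
    tauto
  rw [this]
  exact ((MeasurableSet.const _).inter (MeasurableSet.biInter (Set.to_countable _)
    fun m _ => hm m σ (· < ·))).inter (MeasurableSet.biInter (Set.to_countable _)
    fun m _ => hm σ m (· ≤ ·))

end

end Pool.Agent.Helper97.IW
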