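import Mathlib
import Pool.Agent.Helper97.IterWalk.Sys

open MeasureTheory Filter Topology Set

namespace Pool.Agent.Helper97.IW

set_option linter.unusedSectionVars false

variable {d : ℕ}

/-- The logarithm of the reversible weight. -/
noncomputable def hh (p : Dir d → ℝ) (x : Pt d) : ℝ := ∑ j, (x j : ℝ) * ellHat p j

/-- Conductance of the edge at `x` in direction `e`. -/
noncomputable def cc (p : Dir d → ℝ) (x : Pt d) (e : Dir d) : ℝ := Real.exp (hh p x) * p e

lemma hh_add (p : Dir d → ℝ) (x y : Pt d) : hh p (x + y) = hh p x + hh p y := by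
  unfold hh
  rw [← Finset.sum_add_distrib]
  refine Finset.sum_congr rfl fun j _ => ?_
  simp only [Pi.add_apply, Int.cast_add]
  ring

lemma hh_vec {p : Dir d → ℝ} (hp : ∀ e, 0 < p e) (e : Dir d) :
    Real.exp (hh p (vec e)) * p (opp e) = p e := by
  have h1 : hh p (vec e) = (if e.2 then 1 else -1) * ellHat p e.1 := by
    unfold hh
    rw [Finset.sum_eq_single e.1]
    · simp only [vec, if_true]; split_ifs <;> simp
    · intro j _ hj
      simp [vec, hj]
    · simp
  rw [h1]
  obtain ⟨j, b⟩ := e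
  have ht := hp (j, true)
  have hf := hp (j, false)
  have hpos : 0 < p (j, true) / p (j, false) := div_pos ht hf
  cases b
  · simp only [opp, Bool.false_eq_true, if_false, Bool.not_false]
    rw [neg_one_mul, Real.exp_neg]
    unfold ellHat
    rw [Real.exp_log hpos]
    field_simp
  · simp only [opp, if_true, Bool.not_true, one_mul]
    unfold ellHat
    rw [Real.exp_log hpos]
    field_simp

lemma cc_pos {p : Dir d → ℝ} (hp : ∀ e, 0 < p e) (x : Pt d) (e : Dir d) : 0 < cc p x e :=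
  mul_pos (Real.exp_pos _) (hp e)

lemma cc_symm {p : Dir d → ℝ} (hp : ∀ e, 0 < p e) (x : Pt d) (e : Dir d) :
    cc p (x + vec e) (opp e) = cc p x e := by
  unfold cc
  rw [hh_add, Real.exp_add, mul_assoc, hh_vec hp]

/-- The involution reversing directed edges. -/
def rev : Pt d × Dir d ≃ Pt d × Dir d where
  toFun q := (q.1 + vec q.2, opp q.2)
  invFun q := (q.1 + vec q.2, opp q.2)
  left_inv q := by
    obtain ⟨x, e⟩ := q
    simp only [add_vec_opp, opp_opp]
  right_inv q := by
    obtain ⟨x, e⟩ := q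
    simp only [add_vec_opp, opp_opp]

section

variable (A : Pt d → Finset (Dir d)) (p : Dir d → ℝ)

/-- conductances restricted to allowed edges -/
noncomputable def aa (x : Pt d) (e : Dir d) : ℝ := if e ∈ A x then cc p x e else 0

variable {A p}

lemma aa_symm (hp : ∀ e, 0 < p e) (hA : ∀ v e, e ∈ A v → opp e ∈ A (v + vec e)) (x : Pt d)
    (e : Dir d) : aa A p (x + vec e) (opp e) = aa A p x e := by
  unfold aa
  have : opp e ∈ A (x + vec e) ↔ e ∈ A x := by
    refine ⟨fun h => ?_, hA x e⟩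
    have := hA _ _ h
    rwa [add_vec_opp, opp_opp] at this
  simp only [this, cc_symm hp]

lemma aa_nonneg (hp : ∀ e, 0 < p e) (x : Pt d) (e : Dir d) : 0 ≤ aa A p x e := by
  unfold aa; split_ifs
  · exact (cc_pos hp x e).le
  · exact le_rfl

/-- enlarged finite set -/
noncomputable def fb (F : Finset (Pt d)) : Finset (Pt d) :=
  F ∪ (Finset.univ : Finset (Dir d)).biUnion fun e => F.image fun x => x - vec e

lemma notMem_fb {F : Finset (Pt d)} {x : Pt d} (h : x ∉ fb F) (e : Dir d) :
    x ∉ F ∧ x + vec e ∉ F := by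
  unfold fb at h
  simp only [Finset.mem_union, Finset.mem_biUnion, Finset.mem_univ, true_and, Finset.mem_image,
    not_or, not_exists, not_and] at h
  exact ⟨h.1, fun h2 => h.2 e _ h2 (by abel)⟩

lemma summable_fb {F : Finset (Pt d)} {f : Pt d × Dir d → ℝ}
    (hf : ∀ x e, x ∉ F → x + vec e ∉ F → f (x, e) = 0) : Summable f := by
  apply summable_of_ne_finset_zero (s := fb F ×ˢ Finset.univ)
  rintro ⟨x, e⟩ h
  simp only [Finset.mem_product, Finset.mem_univ, and_true] at h
  exact hf x e (notMem_fb h e).1 (notMem_fb h e).2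

lemma energy_eq (hp : ∀ e, 0 < p e) (hA : ∀ v e, e ∈ A v → opp e ∈ A (v + vec e))
    {F : Finset (Pt d)} {V : Pt d → ℝ} (hV : ∀ x, x ∉ F → V x = 0) :
    ∑' q : Pt d × Dir d, aa A p q.1 q.2 * (V q.1 - V (q.1 + vec q.2)) ^ 2 =
      2 * ∑ x ∈ F, V x * ∑ e, aa A p x e * (V x - V (x + vec e)) := by
  have h1 : ∑' q : Pt d × Dir d, aa A p q.1 q.2 * (V (q.1 + vec q.2) * (V (q.1 + vec q.2) - V q.1))
      = ∑' q : Pt d × Dir d, aa A p q.1 q.2 * (V q.1 * (V q.1 - V (q.1 + vec q.2))) := by
    rw [← Equiv.tsum_eq rev]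
    refine tsum_congr fun q => ?_
    obtain ⟨x, e⟩ := q
    show aa A p (x + vec e) (opp e) * (V (x + vec e + vec (opp e)) *
      (V (x + vec e + vec (opp e)) - V (x + vec e))) = _
    rw [aa_symm hp hA, add_vec_opp]
  have s1 : Summable fun q : Pt d × Dir d =>
      aa A p q.1 q.2 * (V q.1 * (V q.1 - V (q.1 + vec q.2))) :=
    summable_fb (F := F) fun x e h1 h2 => by simp [hV _ h1]
  have s2 : Summable fun q : Pt d × Dir d =>
      aa A p q.1 q.2 * (V (q.1 + vec q.2) * (V (q.1 + vec q.2) - V q.1)) :=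
    summable_fb (F := F) fun x e h1 h2 => by simp [hV _ h2]
  have h2 : ∑' q : Pt d × Dir d, aa A p q.1 q.2 * (V q.1 - V (q.1 + vec q.2)) ^ 2 =
      ∑' q : Pt d × Dir d, aa A p q.1 q.2 * (V q.1 * (V q.1 - V (q.1 + vec q.2))) +
      ∑' q : Pt d × Dir d,
        aa A p q.1 q.2 * (V (q.1 + vec q.2) * (V (q.1 + vec q.2) - V q.1)) := by
    rw [← s1.tsum_add s2]
    refine tsum_congr fun q => ?_
    ring
  have h3 : ∑' q : Pt d × Dir d, aa A p q.1 q.2 * (V q.1 * (V q.1 - V (q.1 + vec q.2))) =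
      ∑ x ∈ F, V x * ∑ e, aa A p x e * (V x - V (x + vec e)) := by
    rw [tsum_eq_sum (s := F ×ˢ Finset.univ)]
    · rw [Finset.sum_product]
      refine Finset.sum_congr rfl fun x _ => ?_
      rw [Finset.mul_sum]
      refine Finset.sum_congr rfl fun e _ => ?_
      ring
    · rintro ⟨x, e⟩ h
      simp only [Finset.mem_product, Finset.mem_univ, and_true] at h
      simp [hV _ h]
  rw [h2, h1, h3]; ring

/-- The graph of allowed edges. -/
def GA (A : Pt d → Finset (Dir d)) (hA : ∀ v e, e ∈ A v → opp e ∈ A (v + vec e)) :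
    SimpleGraph (Pt d) where
  Adj x y := ∃ e ∈ A x, y = x + vec e
  symm := ⟨by
    rintro x y ⟨e, he, rfl⟩
    exact ⟨opp e, hA x e he, by rw [add_vec_opp]⟩⟩
  loopless := ⟨by
    rintro x ⟨e, _, h⟩
    exact vec_ne_zero e (by simpa using h.symm)⟩

lemma path_bound [Nonempty (Dir d)] (hp : ∀ e, 0 < p e) (hA : ∀ v e, e ∈ A v → opp e ∈ A (v + vec e))
    {F : Finset (Pt d)} {V : Pt d → ℝ} (hV : ∀ x, x ∉ F → V x = 0) {R E : ℝ}
    (hR : ∀ S : Finset (Pt d × Dir d), (∀ q ∈ S, q.2 ∈ A q.1) →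
      ∑ q ∈ S, 1 / cc p q.1 q.2 ≤ R)
    (hE : ∑' q : Pt d × Dir d, aa A p q.1 q.2 * (V q.1 - V (q.1 + vec q.2)) ^ 2 ≤ E)
    {x y : Pt d} (hy : y ∉ F) (hxy : (GA A hA).Reachable x y) : V x ^ 2 ≤ R * E := by
  classical
  obtain ⟨q⟩ := hxy
  set r := q.toPath with hr
  set g : ℕ → Pt d := (r : (GA A hA).Walk x y).getVert with hg
  set len := (r : (GA A hA).Walk x y).length with hlen
  have hadj : ∀ k, k < len → ∃ e ∈ A (g k), g (k + 1) = g k + vec e := fun k hk =>
    (r : (GA A hA).Walk x y).adj_getVert_succ hk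
  choose! ee hee using hadj
  have hinj : Set.InjOn g {k | k ≤ len} := r.2.getVert_injOn
  have htel : V x = ∑ k ∈ Finset.range len, (V (g k) - V (g (k + 1))) := by
    rw [Finset.sum_range_sub']
    have h0 : g 0 = x := (r : (GA A hA).Walk x y).getVert_zero
    have h1 : g len = y := (r : (GA A hA).Walk x y).getVert_length
    rw [h0, h1, hV y hy, sub_zero]
  set ι : ℕ → Pt d × Dir d := fun k => (g k, ee k) with hι
  have hιinj : Set.InjOn ι (Finset.range len : Set ℕ) := by
    intro k hk l hl hkl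
    simp only [Finset.coe_range, Set.mem_Iio] at hk hl
    exact hinj (show k ≤ len by omega) (show l ≤ len by omega) (congrArg Prod.fst hkl)
  have hc : ∀ k ∈ Finset.range len, 0 < cc p (g k) (ee k) := fun k _ => cc_pos hp _ _
  have h1 : ∑ k ∈ Finset.range len, 1 / cc p (g k) (ee k) ≤ R := by
    have := hR ((Finset.range len).image ι) (by
      intro q hq
      rw [Finset.mem_image] at hq
      obtain ⟨k, hk, rfl⟩ := hq
      exact (hee k (Finset.mem_range.1 hk)).1)
    rwa [Finset.sum_image hιinj] at this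
  have h2 : ∑ k ∈ Finset.range len, cc p (g k) (ee k) * (V (g k) - V (g (k + 1))) ^ 2 ≤ E := by
    refine le_trans ?_ hE
    have s : Summable fun q : Pt d × Dir d =>
        aa A p q.1 q.2 * (V q.1 - V (q.1 + vec q.2)) ^ 2 :=
      summable_fb (F := F) fun x e h1 h2 => by simp [hV _ h1, hV _ h2]
    have h3 := s.sum_le_tsum ((Finset.range len).image ι) (fun q _ =>
      mul_nonneg (aa_nonneg hp _ _) (sq_nonneg _))
    rw [Finset.sum_image hιinj] at h3
    refine le_trans (le_of_eq ?_) h3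
    refine Finset.sum_congr rfl fun k hk => ?_
    have h4 := hee k (Finset.mem_range.1 hk)
    simp only [hι]
    rw [← h4.2]
    unfold aa
    rw [if_pos h4.1]
  have hCS := Finset.sum_mul_sq_le_sq_mul_sq (Finset.range len)
    (fun k => Real.sqrt (1 / cc p (g k) (ee k)))
    (fun k => Real.sqrt (cc p (g k) (ee k)) * (V (g k) - V (g (k + 1))))
  have e1 : ∑ k ∈ Finset.range len, Real.sqrt (1 / cc p (g k) (ee k)) *
      (Real.sqrt (cc p (g k) (ee k)) * (V (g k) - V (g (k + 1)))) = V x := by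
    rw [htel]
    refine Finset.sum_congr rfl fun k hk => ?_
    rw [← mul_assoc, ← Real.sqrt_mul (by have := hc k hk; positivity),
      one_div_mul_cancel (hc k hk).ne', Real.sqrt_one, one_mul]
  have e2 : ∑ k ∈ Finset.range len, Real.sqrt (1 / cc p (g k) (ee k)) ^ 2 =
      ∑ k ∈ Finset.range len, 1 / cc p (g k) (ee k) := by
    refine Finset.sum_congr rfl fun k hk => ?_
    rw [Real.sq_sqrt (by have := hc k hk; positivity)]
  have e3 : ∑ k ∈ Finset.range len,
      (Real.sqrt (cc p (g k) (ee k)) * (V (g k) - V (g (k + 1)))) ^ 2 =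
      ∑ k ∈ Finset.range len, cc p (g k) (ee k) * (V (g k) - V (g (k + 1))) ^ 2 := by
    refine Finset.sum_congr rfl fun k hk => ?_
    rw [mul_pow, Real.sq_sqrt (hc k hk).le]
  rw [e1, e2, e3] at hCS
  refine hCS.trans ?_
  have hRn : 0 ≤ R := le_trans (Finset.sum_nonneg fun k hk => by
    have := hc k hk; positivity) h1
  exact mul_le_mul h1 h2 (Finset.sum_nonneg fun k hk =>
    mul_nonneg (hc k hk).le (sq_nonneg _)) hRn

end

end Pool.Agent.Helper97.IW
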