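import Mathlib
import Pool.Agent.Helper97.IterWalk.Energy

open MeasureTheory Filter Topology Set

namespace Pool.Agent.Helper97.IW

set_option linter.unusedSectionVars false

variable {d : ℕ}

/-- Occupation probabilities of the walk in a fixed environment. -/
structure Occ (A : Pt d → Finset (Dir d)) (p : Dir d → ℝ) (u : ℕ → Pt d → ℝ) : Prop where
  nonneg : ∀ n x, 0 ≤ u n x
  zero : ∀ x, u 0 x = if x = 0 then 1 else 0
  succ : ∀ n y, u (n + 1) y =
    ∑ e ∈ A y, u n (y + vec e) * (p (opp e) / ∑ e' ∈ A (y + vec e), p e')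

section

variable {A : Pt d → Finset (Dir d)} {p : Dir d → ℝ} {u : ℕ → Pt d → ℝ}

/-- total conductance -/
noncomputable def ppi (A : Pt d → Finset (Dir d)) (p : Dir d → ℝ) (x : Pt d) : ℝ :=
  ∑ e ∈ A x, cc p x e

lemma ppi_eq (x : Pt d) : ppi A p x = Real.exp (hh p x) * ∑ e ∈ A x, p e := by
  unfold ppi cc; rw [Finset.mul_sum]

lemma occ_supp (h : Occ A p u) (n : ℕ) : ∃ F : Finset (Pt d), ∀ x, x ∉ F → u n x = 0 := by
  induction n with
  | zero =>
    refine ⟨{0}, fun x hx => ?_⟩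
    rw [h.zero, if_neg (by simpa using hx)]
  | succ n ih =>
    obtain ⟨F, hF⟩ := ih
    refine ⟨fb F, fun x hx => ?_⟩
    rw [h.succ]
    refine Finset.sum_eq_zero fun e _ => ?_
    rw [hF _ (notMem_fb hx e).2, zero_mul]

lemma occ_reach (h : Occ A p u) (hA : ∀ v e, e ∈ A v → opp e ∈ A (v + vec e)) (n : ℕ) (x : Pt d)
    (hx : u n x ≠ 0) : (GA A hA).Reachable 0 x := by
  induction n generalizing x with
  | zero =>
    rw [h.zero] at hx
    have : x = 0 := by
      by_contra h0
      exact hx (if_neg h0)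
    rw [this]
  | succ n ih =>
    rw [h.succ] at hx
    obtain ⟨e, he, hne⟩ := Finset.exists_ne_zero_of_sum_ne_zero hx
    have h1 : u n (x + vec e) ≠ 0 := fun h0 => hne (by rw [h0, zero_mul])
    have h2 : (GA A hA).Adj x (x + vec e) := ⟨e, he, rfl⟩
    exact (ih _ h1).trans h2.symm.reachable

/-- the truncated Green function divided by the reversible measure -/
noncomputable def VM (A : Pt d → Finset (Dir d)) (p : Dir d → ℝ) (u : ℕ → Pt d → ℝ) (M : ℕ)
    (x : Pt d) : ℝ := (∑ n ∈ Finset.range M, u n x) / ppi A p x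

lemma ppi_pos (hp : ∀ e, 0 < p e) {x : Pt d} (hx : (A x).Nonempty) : 0 < ppi A p x :=
  Finset.sum_pos (fun e _ => cc_pos hp x e) hx

lemma ppi_nonneg (hp : ∀ e, 0 < p e) (x : Pt d) : 0 ≤ ppi A p x :=
  Finset.sum_nonneg fun e _ => (cc_pos hp x e).le

lemma VM_nonneg (h : Occ A p u) (hp : ∀ e, 0 < p e) (M : ℕ) (x : Pt d) : 0 ≤ VM A p u M x :=
  div_nonneg (Finset.sum_nonneg fun n _ => h.nonneg n x) (ppi_nonneg hp x)

lemma VM_laplace (h : Occ A p u) (hp : ∀ e, 0 < p e)
    (hA : ∀ v e, e ∈ A v → opp e ∈ A (v + vec e)) (M : ℕ) {x : Pt d} (hx : (A x).Nonempty) :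
    ∑ e, aa A p x e * (VM A p u M x - VM A p u M (x + vec e)) = u 0 x - u M x := by
  have h1 : ∑ e, aa A p x e * (VM A p u M x - VM A p u M (x + vec e)) =
      ∑ e ∈ A x, cc p x e * (VM A p u M x - VM A p u M (x + vec e)) := by
    unfold aa
    simp only [ite_mul, zero_mul]
    rw [Finset.sum_ite_mem, Finset.univ_inter]
  have h2 : ∀ e ∈ A x, cc p x e * VM A p u M (x + vec e) =
      ∑ n ∈ Finset.range M, u n (x + vec e) * (p (opp e) / ∑ e' ∈ A (x + vec e), p e') := by
    intro e he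
    have hne : (A (x + vec e)).Nonempty := ⟨_, hA x e he⟩
    have hZ : 0 < ∑ e' ∈ A (x + vec e), p e' := Finset.sum_pos (fun e _ => hp e) hne
    rw [← Finset.sum_mul]
    unfold VM
    rw [ppi_eq, ← cc_symm hp x e]
    unfold cc
    have hexp := Real.exp_pos (hh p (x + vec e))
    field_simp
  rw [h1]
  simp only [mul_sub]
  rw [Finset.sum_sub_distrib, Finset.sum_congr rfl h2, Finset.sum_comm]
  have h3 : ∑ n ∈ Finset.range M, ∑ e ∈ A x,
      u n (x + vec e) * (p (opp e) / ∑ e' ∈ A (x + vec e), p e') =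
      ∑ n ∈ Finset.range M, u (n + 1) x :=
    Finset.sum_congr rfl fun n _ => (h.succ n x).symm
  rw [h3, ← Finset.sum_mul]
  have h4 : (∑ e ∈ A x, cc p x e) * VM A p u M x = ∑ n ∈ Finset.range M, u n x := by
    unfold VM
    have := ppi_pos hp hx
    have h5 : (∑ e ∈ A x, cc p x e) = ppi A p x := rfl
    rw [h5]
    field_simp
  rw [h4, ← Finset.sum_sub_distrib]
  have h6 := Finset.sum_range_sub' (fun n => u n x) M
  exact h6

theorem green_bound [Nonempty (Dir d)] (h : Occ A p u) (hp : ∀ e, 0 < p e)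
    (hA : ∀ v e, e ∈ A v → opp e ∈ A (v + vec e)) {R : ℝ}
    (hR : ∀ S : Finset (Pt d × Dir d), (∀ q ∈ S, q.2 ∈ A q.1) →
      ∑ q ∈ S, 1 / cc p q.1 q.2 ≤ R)
    (hinf : ∀ F : Finset (Pt d), ∃ y, y ∉ F ∧ (GA A hA).Reachable 0 y) (x : Pt d) :
    ∃ C : ℝ, ∀ M, ∑ n ∈ Finset.range M, u n x ≤ C := by
  classical
  have hR0 : 0 ≤ R := by simpa using hR ∅ (by simp)
  by_cases hxA : (A x).Nonempty
  swap
  · refine ⟨u 0 x, fun M => ?_⟩
    have hz : ∀ n, n ≠ 0 → u n x = 0 := by
      intro n hn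
      obtain ⟨m, rfl⟩ := Nat.exists_eq_succ_of_ne_zero hn
      rw [Nat.succ_eq_add_one, h.succ, Finset.not_nonempty_iff_eq_empty.1 hxA, Finset.sum_empty]
    cases M with
    | zero => simpa using h.nonneg 0 x
    | succ M =>
      rw [Finset.sum_eq_single 0 (fun n _ hn => hz n hn) (by simp)]
  by_cases hreach : (GA A hA).Reachable 0 x
  swap
  · refine ⟨0, fun M => le_of_eq (Finset.sum_eq_zero fun n _ => ?_)⟩
    by_contra hne
    exact hreach (occ_reach h hA n x hne)
  refine ⟨ppi A p x * (2 * R), fun M => ?_⟩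
  -- finite support
  choose Fs hFs using occ_supp h
  set F : Finset (Pt d) := (Finset.range M).biUnion Fs with hF
  have hV : ∀ y, y ∉ F → VM A p u M y = 0 := by
    intro y hy
    unfold VM
    rw [Finset.sum_eq_zero, zero_div]
    intro n hn
    apply hFs n y
    intro hyn
    exact hy (Finset.mem_biUnion.2 ⟨n, hn, hyn⟩)
  have hE : ∑' q : Pt d × Dir d,
      aa A p q.1 q.2 * (VM A p u M q.1 - VM A p u M (q.1 + vec q.2)) ^ 2 ≤
        2 * VM A p u M 0 := by
    rw [energy_eq hp hA hV]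
    have hle : ∑ x ∈ F, VM A p u M x *
        ∑ e, aa A p x e * (VM A p u M x - VM A p u M (x + vec e)) ≤
        ∑ x ∈ F, VM A p u M x * u 0 x := by
      refine Finset.sum_le_sum fun y _ => ?_
      by_cases hy : (A y).Nonempty
      · rw [VM_laplace h hp hA M hy]
        exact mul_le_mul_of_nonneg_left (by linarith [h.nonneg M y]) (VM_nonneg h hp M y)
      · have : VM A p u M y = 0 := by
          unfold VM ppi
          rw [Finset.not_nonempty_iff_eq_empty.1 hy, Finset.sum_empty, div_zero]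
        rw [this]; simp
    have hle2 : ∑ x ∈ F, VM A p u M x * u 0 x ≤ VM A p u M 0 := by
      by_cases h0 : (0 : Pt d) ∈ F
      · rw [Finset.sum_eq_single_of_mem 0 h0]
        · rw [h.zero, if_pos rfl, mul_one]
        · intro y _ hy
          rw [h.zero, if_neg hy, mul_zero]
      · rw [Finset.sum_eq_zero]
        · exact VM_nonneg h hp M 0
        · intro y hy
          rw [h.zero, if_neg, mul_zero]
          rintro rfl; exact h0 hy
    linarith
  obtain ⟨y, hyF, hy⟩ := hinf F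
  have hP0 := path_bound hp hA hV hR hE hyF hy
  have hV0 : VM A p u M 0 ≤ 2 * R := by
    rcases (VM_nonneg h hp M (0 : Pt d)).eq_or_lt with h0 | h0
    · rw [← h0]; positivity
    · have : VM A p u M 0 * VM A p u M 0 ≤ (2 * R) * VM A p u M 0 := by nlinarith [hP0]
      exact le_of_mul_le_mul_right this h0
  have hPx := path_bound hp hA hV hR hE hyF (hreach.symm.trans hy)
  have hVx : VM A p u M x ≤ 2 * R := by
    have h1 : VM A p u M x ^ 2 ≤ (2 * R) ^ 2 := by
      refine hPx.trans ?_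
      nlinarith [mul_le_mul_of_nonneg_left hV0 hR0]
    exact (pow_le_pow_iff_left₀ (VM_nonneg h hp M x) (by positivity) two_ne_zero).1 h1
  have h5 : ∑ n ∈ Finset.range M, u n x = ppi A p x * VM A p u M x := by
    unfold VM
    have := ppi_pos hp hxA
    field_simp
  rw [h5]
  exact mul_le_mul_of_nonneg_left hVx (ppi_nonneg hp x)

end

end Pool.Agent.Helper97.IW
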