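import Mathlib
import Pool.Agent.Helper97.IterWalk.Green

open MeasureTheory Filter Topology Set

namespace Pool.Agent.Helper97.IW

set_option linter.unusedSectionVars false

variable {d : ℕ}

/-- Total resistance of the trace is finite. -/
lemma resist_bound {p : Dir d → ℝ} (hp : ∀ e, 0 < p e) {X : ℕ → Pt d}
    (hs : Summable fun m => Real.exp (-(hh p (X m)))) :
    ∃ R : ℝ, ∀ S : Finset (Pt d × Dir d), (∀ q ∈ S, q.2 ∈ edg X q.1) →
      ∑ q ∈ S, 1 / cc p q.1 q.2 ≤ R := by
  classical
  -- the sum of the reciprocal weights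
  set K : ℝ := ∑ e, 1 / p e with hK
  have hKe : ∀ e, 1 / p e ≤ K := fun e =>
    Finset.single_le_sum (f := fun e => 1 / p e) (fun e _ => by have := hp e; positivity)
      (Finset.mem_univ e)
  have hK0 : 0 ≤ K := Finset.sum_nonneg fun e _ => by have := hp e; positivity
  have hs2 : Summable fun t : ℕ × Bool => K * Real.exp (-(hh p (X t.1))) := by
    refine Summable.mul_left _ ?_
    rw [summable_prod_of_nonneg (fun t => (Real.exp_pos _).le)]
    refine ⟨fun m => Summable.of_finite, ?_⟩
    simp only [tsum_fintype, Finset.sum_const, Finset.card_univ, Fintype.card_bool]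
    exact hs.nsmul _
  refine ⟨∑' t : ℕ × Bool, K * Real.exp (-(hh p (X t.1))), fun S hS => ?_⟩
  have hch : ∀ q ∈ S, ∃ t : ℕ × Bool,
      (t.2 = true → X t.1 = q.1 ∧ X (t.1 + 1) = q.1 + vec q.2) ∧
      (t.2 = false → X t.1 = q.1 + vec q.2 ∧ X (t.1 + 1) = q.1) := by
    intro q hq
    rcases mem_edg.1 (hS q hq) with ⟨n, h⟩ | ⟨n, h⟩
    · exact ⟨(n, true), fun _ => h, fun h2 => by simp at h2⟩
    · exact ⟨(n, false), fun h2 => by simp at h2, fun _ => h⟩
  choose! t ht1 ht2 using hch
  have hinj : Set.InjOn t (S : Set (Pt d × Dir d)) := by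
    intro q hq q' hq' h
    rcases hb : (t q).2 with _ | _
    · have hb' : (t q').2 = false := by rw [← h]; exact hb
      obtain ⟨a1, a2⟩ := ht2 q hq hb
      obtain ⟨b1, b2⟩ := ht2 q' hq' hb'
      rw [h] at a1 a2
      have e1 : q.1 = q'.1 := a2.symm.trans b2
      have e2 : q.2 = q'.2 := by
        apply vec_injective
        have : q.1 + vec q.2 = q'.1 + vec q'.2 := a1.symm.trans b1
        rw [e1] at this
        exact add_left_cancel this
      exact Prod.ext e1 e2
    · have hb' : (t q').2 = true := by rw [← h]; exact hb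
      obtain ⟨a1, a2⟩ := ht1 q hq hb
      obtain ⟨b1, b2⟩ := ht1 q' hq' hb'
      rw [h] at a1 a2
      have e1 : q.1 = q'.1 := a1.symm.trans b1
      have e2 : q.2 = q'.2 := by
        apply vec_injective
        have : q.1 + vec q.2 = q'.1 + vec q'.2 := a2.symm.trans b2
        rw [e1] at this
        exact add_left_cancel this
      exact Prod.ext e1 e2
  have hle : ∀ q ∈ S, 1 / cc p q.1 q.2 ≤ K * Real.exp (-(hh p (X (t q).1))) := by
    intro q hq
    rcases hb : (t q).2 with _ | _
    · obtain ⟨a1, a2⟩ := ht2 q hq hb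
      rw [← cc_symm hp, ← a1]
      unfold cc
      rw [one_div, mul_inv, mul_comm, ← one_div, ← Real.exp_neg]
      exact mul_le_mul_of_nonneg_right (hKe _) (Real.exp_pos _).le
    · obtain ⟨a1, a2⟩ := ht1 q hq hb
      rw [← a1]
      unfold cc
      rw [one_div, mul_inv, mul_comm, ← one_div, ← Real.exp_neg]
      exact mul_le_mul_of_nonneg_right (hKe _) (Real.exp_pos _).le
  calc ∑ q ∈ S, 1 / cc p q.1 q.2 ≤ ∑ q ∈ S, K * Real.exp (-(hh p (X (t q).1))) :=
        Finset.sum_le_sum hle
    _ = ∑ s ∈ S.image t, K * Real.exp (-(hh p (X s.1))) := by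
        rw [Finset.sum_image hinj]
    _ ≤ _ := hs2.sum_le_tsum _ fun s _ => mul_nonneg hK0 (Real.exp_pos _).le

/-- Exponential decay of the weights along the walk. -/
lemma summable_weights {p : Dir d → ℝ} {X : ℕ → Pt d} {ε : ℝ} (hε : 0 < ε)
    (h : Tendsto (fun n : ℕ => hh p (X n) / n) atTop (𝓝 ε)) :
    Summable fun m => Real.exp (-(hh p (X m))) := by
  have h1 : ∀ᶠ n : ℕ in atTop, (ε / 2) * n ≤ hh p (X n) := by
    have h2 : ∀ᶠ n : ℕ in atTop, ε / 2 < hh p (X n) / n :=
      (tendsto_order.1 h).1 (ε / 2) (by linarith)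
    filter_upwards [h2, eventually_gt_atTop 0] with n hn hn0
    have : (0 : ℝ) < n := by exact_mod_cast hn0
    rw [lt_div_iff₀ this] at hn
    exact hn.le
  have h3 : Summable fun n : ℕ => Real.exp (-(ε / 2) * n) := by
    have : Summable fun n : ℕ => Real.exp (n * (-(ε / 2))) := by
      apply Real.summable_exp_nat_mul_iff.2
      linarith
    simpa [mul_comm] using this
  refine summable_of_isBigO_nat h3 ?_
  refine Asymptotics.IsBigO.of_bound 1 ?_
  filter_upwards [h1] with n hn
  rw [Real.norm_of_nonneg (Real.exp_pos _).le, Real.norm_of_nonneg (Real.exp_pos _).le, one_mul]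
  apply Real.exp_le_exp.2
  linarith

end Pool.Agent.Helper97.IW
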