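import Mathlib
import Pool.Agent.Helper97.IterWalk.Canon
import Pool.Agent.Helper97.IterWalk.Meas
import Pool.Agent.Helper97.IterWalk.Resist

open MeasureTheory ProbabilityTheory Filter Topology Set

namespace Pool.Agent.Helper97.IW

set_option linter.unusedSectionVars false

variable {d : ℕ}

/-- Instruction field with frozen index function and environment. -/
def JJ (a : ℕ) (f : Pt d → ℕ) (A : Pt d → Finset (Dir d)) (η : Om d) : Pt d → ℕ → Dir d :=
  fun v m => η (f v, a, m) (A v)

lemma measurable_JJ (a : ℕ) (f : Pt d → ℕ) (A : Pt d → Finset (Dir d)) (v : Pt d) (m : ℕ) :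
    Measurable fun η : Om d => JJ a f A η v m := by
  unfold JJ; fun_prop

lemma pos_facts {I : Pt d → ℕ → Dir d} {A : Pt d → Finset (Dir d)}
    (hI : ∀ v m, (A v).Nonempty → I v m ∈ A v)
    (hA : ∀ v e, e ∈ A v → opp e ∈ A (v + vec e)) (h0 : (A 0).Nonempty) (n : ℕ) :
    (A (pos none I n)).Nonempty ∧ ins none I n ∈ A (pos none I n) := by
  induction n with
  | zero => exact ⟨h0, hI _ _ h0⟩
  | succ n ih =>
    have : (A (pos none I (n + 1))).Nonempty := by
      rw [pos_succ_none]
      exact ⟨_, hA _ _ ih.2⟩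
    exact ⟨this, hI _ _ this⟩

section

variable {P : ℕ → PD d} {a : ℕ} {f : Pt d → ℕ} {A : Pt d → Finset (Dir d)}

lemma ae_pos_facts (hA : ∀ v e, e ∈ A v → opp e ∈ A (v + vec e)) (h0 : (A 0).Nonempty) :
    ∀ᵐ η ∂(Pc P), ∀ n, (A (pos none (JJ a f A η) n)).Nonempty := by
  filter_upwards [ae_legal P] with η hη n
  exact (pos_facts (fun v m hv => hη _ _ hv) hA h0 n).1

lemma measurableSet_path (w : ℕ → Pt d) (n : ℕ) :
    MeasurableSet {η : Om d | ∀ k ≤ n, pos none (JJ a f A η) k = w k} := by
  have : {η : Om d | ∀ k ≤ n, pos none (JJ a f A η) k = w k} =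
      ⋂ k ∈ {k | k ≤ n}, {η | pos none (JJ a f A η) k = w k} := by
    ext; simp
  rw [this]
  exact MeasurableSet.biInter (Set.to_countable _) fun k _ =>
    measurableSet_eq_pt (measurable_walk none (measurable_JJ a f A) k).1 _

lemma quenched_ins (hA : ∀ v e, e ∈ A v → opp e ∈ A (v + vec e)) (h0 : (A 0).Nonempty)
    (hf : ∀ v v', (A v).Nonempty → (A v').Nonempty → f v = f v' → v = v')
    (w : ℕ → Pt d) (n : ℕ) (e : Dir d) :
    Pc P {η | (∀ k ≤ n, pos none (JJ a f A η) k = w k) ∧ ins none (JJ a f A η) n = e} =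
      Pc P {η | ∀ k ≤ n, pos none (JJ a f A η) k = w k} *
        ENNReal.ofReal (qq (P a).p (A (w n)) e) := by
  by_cases hw : ∀ k ≤ n, (A (w k)).Nonempty
  · set s : ℕ → Ix := fun k => (f (w k), a, cw w k) with hs
    have hsne : ∀ k < n, s k ≠ s n := by
      intro k hk h
      have h1 : f (w k) = f (w n) := congrArg Prod.fst h
      have h2 : w k = w n := hf _ _ (hw k hk.le) (hw n le_rfl) h1
      have h3 : cw w k = cw w n := congrArg (fun q : Ix => q.2.2) h
      exact absurd h3 (cw_lt w hk h2).ne
    have hset : {η : Om d | (∀ k ≤ n, pos none (JJ a f A η) k = w k) ∧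
        ins none (JJ a f A η) n = e} =
        {η | ∀ k ≤ n, pos none (JJ a f A η) k = w k} ∩ {η | η (s n) (A (w n)) = e} := by
      ext η
      simp only [mem_setOf_eq, mem_inter_iff]
      refine and_congr_right fun h => ?_
      have : ins none (JJ a f A η) n = η (s n) (A (w n)) := by
        unfold ins
        rw [h n le_rfl, cnt_eq_card]
        show η (f (w n), a, _) (A (w n)) = _
        have h2 : ((Finset.range n).filter (fun m => pos none (JJ a f A η) m = w n)).card =
            cw w n := by
          unfold cw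
          congr 1
          apply Finset.filter_congr
          intro m hm
          rw [h m (Finset.mem_range.1 hm).le]
        rw [h2]
      rw [this]
    rw [hset]
    have hd1 : DepOn (fun i : Ix => ¬ (i = s n))
        (· ∈ {η : Om d | ∀ k ≤ n, pos none (JJ a f A η) k = w k}) := by
      intro η η' h
      simp only [mem_setOf_eq, path_iff, eq_iff_iff]
      refine and_congr_right fun _ => forall_congr' fun k => forall_congr' fun hk => ?_
      have : JJ a f A η (w k) (cw w k) = JJ a f A η' (w k) (cw w k) := by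
        show η (s k) _ = η' (s k) _
        rw [h (s k) (hsne k hk)]
      rw [this]
    have hd2 : DepOn (fun i : Ix => i = s n) (· ∈ {η : Om d | η (s n) (A (w n)) = e}) := by
      intro η η' h
      simp only [mem_setOf_eq, h (s n) rfl]
    have hm2 : MeasurableSet {η : Om d | η (s n) (A (w n)) = e} := by
      have : Measurable fun η : Om d => η (s n) (A (w n)) := by fun_prop
      exact this (measurableSet_singleton e)
    have := indep_mixP (fun i : Ix => IM (P i.2.1)) (fun i => i = s n)
      (measurableSet_path w n) hm2 hd1 hd2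
    rw [show Pc P = Measure.infinitePi (fun i : Ix => IM (P i.2.1)) from rfl, this]
    congr 1
    exact Pc_eval P (s n) (A (w n)) e
  · push Not at hw
    obtain ⟨k, hk, hkA⟩ := hw
    have hz : Pc P {η | ∀ k ≤ n, pos none (JJ a f A η) k = w k} = 0 := by
      have h1 := ae_pos_facts (P := P) (a := a) (f := f) hA h0
      rw [ae_iff] at h1
      refine measure_mono_null ?_ h1
      intro η hη
      simp only [mem_setOf_eq] at hη ⊢
      push Not
      refine ⟨k, ?_⟩
      rw [hη k hk]
      exact hkA
    rw [hz, zero_mul]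
    refine measure_mono_null ?_ hz
    intro η hη
    exact hη.1

lemma measure_eq_tsum_fiber {Ω κ : Type*} [MeasurableSpace Ω] [Countable κ] [MeasurableSpace κ]
    [MeasurableSingletonClass κ] (μ : Measure Ω) {φ : Ω → κ} (hφ : Measurable φ) {G : Set Ω}
    (hG : MeasurableSet G) : μ G = ∑' k, μ (G ∩ φ ⁻¹' {k}) := by
  have : G = ⋃ k, G ∩ φ ⁻¹' {k} := by
    ext ω; simp
  conv_lhs => rw [this]
  rw [measure_iUnion]
  · intro k l hkl
    refine Set.disjoint_left.2 fun ω h1 h2 => hkl ?_
    have a1 : φ ω = k := h1.2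
    have a2 : φ ω = l := h2.2
    rw [← a1, a2]
  · intro k
    exact hG.inter (hφ (measurableSet_singleton k))

lemma quenched_occ (hA : ∀ v e, e ∈ A v → opp e ∈ A (v + vec e)) (h0 : (A 0).Nonempty)
    (hf : ∀ v v', (A v).Nonempty → (A v').Nonempty → f v = f v' → v = v')
    (n : ℕ) (x : Pt d) (e : Dir d) :
    Pc P {η | pos none (JJ a f A η) n = x ∧ ins none (JJ a f A η) n = e} =
      Pc P {η | pos none (JJ a f A η) n = x} * ENNReal.ofReal (qq (P a).p (A x) e) := by
  classical
  set φ : Om d → (Fin (n + 1) → Pt d) := fun η k => pos none (JJ a f A η) k with hφ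
  have hmpos : ∀ k, Measurable fun η : Om d => pos none (JJ a f A η) k := fun k =>
    (measurable_walk none (measurable_JJ a f A) k).1
  have hφm : Measurable φ := measurable_pi_lambda _ fun k => hmpos k
  have hG1 : MeasurableSet {η : Om d | pos none (JJ a f A η) n = x} :=
    measurableSet_eq_pt (hmpos n) x
  have hG2 : MeasurableSet {η : Om d | pos none (JJ a f A η) n = x ∧
      ins none (JJ a f A η) n = e} :=
    hG1.inter ((measurable_walk none (measurable_JJ a f A) n).2.2 (measurableSet_singleton e))
  rw [measure_eq_tsum_fiber (Pc P) hφm hG1, measure_eq_tsum_fiber (Pc P) hφm hG2,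
    ← ENNReal.tsum_mul_right]
  refine tsum_congr fun w => ?_
  set w' : ℕ → Pt d := fun k => if h : k < n + 1 then w ⟨k, h⟩ else 0 with hw'
  have hfib : ∀ η : Om d, φ η = w ↔ ∀ k ≤ n, pos none (JJ a f A η) k = w' k := by
    intro η
    constructor
    · intro h k hk
      rw [hw', ← h]
      simp only [show k < n + 1 by omega, dif_pos, hφ]
    · intro h
      funext k
      have := h k (by omega)
      rw [hw'] at this
      simp only [k.2, dif_pos] at this
      exact this
  have hlast : w' n = w (Fin.last n) := by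
    rw [hw']; simp only [show n < n + 1 by omega, dif_pos]; rfl
  by_cases hx : w' n = x
  · have e1 : {η : Om d | pos none (JJ a f A η) n = x ∧ ins none (JJ a f A η) n = e} ∩ φ ⁻¹' {w} =
        {η | (∀ k ≤ n, pos none (JJ a f A η) k = w' k) ∧ ins none (JJ a f A η) n = e} := by
      ext η
      simp only [mem_inter_iff, mem_setOf_eq, mem_preimage, mem_singleton_iff, hfib]
      constructor
      · rintro ⟨⟨_, h2⟩, h3⟩; exact ⟨h3, h2⟩
      · rintro ⟨h3, h2⟩; exact ⟨⟨by rw [h3 n le_rfl, hx], h2⟩, h3⟩
    have e2 : {η : Om d | pos none (JJ a f A η) n = x} ∩ φ ⁻¹' {w} =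
        {η | ∀ k ≤ n, pos none (JJ a f A η) k = w' k} := by
      ext η
      simp only [mem_inter_iff, mem_setOf_eq, mem_preimage, mem_singleton_iff, hfib]
      exact ⟨fun h => h.2, fun h => ⟨by rw [h n le_rfl, hx], h⟩⟩
    rw [e1, e2, quenched_ins hA h0 hf, hx]
  · have e1 : {η : Om d | pos none (JJ a f A η) n = x ∧ ins none (JJ a f A η) n = e} ∩ φ ⁻¹' {w} =
        ∅ := by
      ext η
      simp only [mem_inter_iff, mem_setOf_eq, mem_preimage, mem_singleton_iff, hfib,
        mem_empty_iff_false, iff_false]
      rintro ⟨⟨h1, _⟩, h3⟩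
      exact hx (by rw [← h3 n le_rfl, h1])
    have e2 : {η : Om d | pos none (JJ a f A η) n = x} ∩ φ ⁻¹' {w} = ∅ := by
      ext η
      simp only [mem_inter_iff, mem_setOf_eq, mem_preimage, mem_singleton_iff, hfib,
        mem_empty_iff_false, iff_false]
      rintro ⟨h1, h3⟩
      exact hx (by rw [← h3 n le_rfl, h1])
    rw [e1, e2, measure_empty, zero_mul]

lemma quenched_Occ (hA : ∀ v e, e ∈ A v → opp e ∈ A (v + vec e)) (h0 : (A 0).Nonempty)
    (hf : ∀ v v', (A v).Nonempty → (A v').Nonempty → f v = f v' → v = v') :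
    Occ A (P a).p (fun n x => (Pc P {η | pos none (JJ a f A η) n = x}).toReal) := by
  classical
  have hmpos : ∀ k, Measurable fun η : Om d => pos none (JJ a f A η) k := fun k =>
    (measurable_walk none (measurable_JJ a f A) k).1
  refine ⟨fun n x => ENNReal.toReal_nonneg, fun x => ?_, fun n y => ?_⟩
  · by_cases hx : x = 0
    · rw [if_pos hx]
      have : {η : Om d | pos none (JJ a f A η) 0 = x} = Set.univ := by
        ext η; simp [pos_zero, hx]
      rw [this, measure_univ, ENNReal.toReal_one]
    · rw [if_neg hx]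
      have : {η : Om d | pos none (JJ a f A η) 0 = x} = ∅ := by
        ext η; simp [pos_zero, Ne.symm hx]
      rw [this, measure_empty, ENNReal.toReal_zero]
  · -- decompose according to the last instruction
    have hmins : Measurable fun η : Om d => ins none (JJ a f A η) n :=
      (measurable_walk none (measurable_JJ a f A) n).2.2
    have h1 : Pc P {η | pos none (JJ a f A η) (n + 1) = y} =
        ∑ e : Dir d, Pc P {η | pos none (JJ a f A η) n = y + vec e} *
          ENNReal.ofReal (qq (P a).p (A (y + vec e)) (opp e)) := by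
      rw [measure_eq_tsum_fiber (Pc P) hmins (measurableSet_eq_pt (hmpos (n + 1)) y),
        tsum_fintype]
      have hopp : Function.Bijective (opp : Dir d → Dir d) :=
        ⟨fun a b h => by rw [← opp_opp a, h, opp_opp], fun b => ⟨opp b, opp_opp b⟩⟩
      rw [← hopp.sum_comp]
      refine Finset.sum_congr rfl fun e _ => ?_
      rw [← quenched_occ hA h0 hf]
      congr 1
      ext η
      simp only [mem_inter_iff, mem_setOf_eq, mem_preimage, mem_singleton_iff]
      constructor
      · rintro ⟨h2, h3⟩
        refine ⟨?_, h3⟩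
        rw [pos_succ_none, h3, vec_opp] at h2
        rw [← h2]; abel
      · rintro ⟨h2, h3⟩
        refine ⟨?_, h3⟩
        rw [pos_succ_none, h3, h2, vec_opp]; abel
    simp only [h1]
    rw [ENNReal.toReal_sum (fun e _ => ENNReal.mul_ne_top (measure_ne_top _ _)
      ENNReal.ofReal_ne_top)]
    rw [← Finset.sum_subset (Finset.subset_univ (A y))]
    · refine Finset.sum_congr rfl fun e he => ?_
      have he2 := hA y e he
      rw [ENNReal.toReal_mul, ENNReal.toReal_ofReal (qq_nonneg _ _ _)]
      congr 1
      unfold qq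
      rw [ful_of_nonempty ⟨_, he2⟩, if_pos he2]
    · intro e _ he
      have he2 : opp e ∉ A (y + vec e) := by
        intro h
        apply he
        have := hA _ _ h
        rwa [add_vec_opp, opp_opp] at this
      by_cases hne : (A (y + vec e)).Nonempty
      · unfold qq
        rw [ful_of_nonempty hne, if_neg he2]
        simp
      · have hz : Pc P {η | pos none (JJ a f A η) n = y + vec e} = 0 := by
          have h1 := ae_pos_facts (P := P) (a := a) (f := f) hA h0
          rw [ae_iff] at h1
          refine measure_mono_null ?_ h1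
          intro η hη
          simp only [mem_setOf_eq] at hη ⊢
          push Not
          refine ⟨n, ?_⟩
          rw [hη]
          exact Finset.not_nonempty_iff_eq_empty.1 hne
        rw [hz, zero_mul, ENNReal.toReal_zero]

/-- The walk visits each vertex finitely often. -/
def Tr (W : ℕ → Pt d) : Prop := ∀ x, ∀ᶠ n in atTop, W n ≠ x

theorem quenched_transient (hA : ∀ v e, e ∈ A v → opp e ∈ A (v + vec e)) (h0 : (A 0).Nonempty)
    (hf : ∀ v v', (A v).Nonempty → (A v').Nonempty → f v = f v' → v = v') {R : ℝ}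
    (hR : ∀ S : Finset (Pt d × Dir d), (∀ q ∈ S, q.2 ∈ A q.1) →
      ∑ q ∈ S, 1 / cc (P a).p q.1 q.2 ≤ R)
    (hinf : ∀ F : Finset (Pt d), ∃ y, y ∉ F ∧ (GA A hA).Reachable 0 y) :
    ∀ᵐ η ∂(Pc P), Tr (pos none (JJ a f A η)) := by
  haveI := (P a).nonempty
  unfold Tr
  rw [ae_all_iff]
  intro x
  obtain ⟨C, hC⟩ := green_bound (quenched_Occ (P := P) (a := a) (f := f) hA h0 hf) (P a).pos hA
    hR hinf x
  have hfin : ∑' n, Pc P {η | pos none (JJ a f A η) n = x} ≠ ⊤ := by
    have hle : ∑' n, Pc P {η | pos none (JJ a f A η) n = x} ≤ ENNReal.ofReal C := by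
      rw [ENNReal.tsum_eq_iSup_nat]
      refine iSup_le fun M => ?_
      have h1 : ∀ n, Pc P {η | pos none (JJ a f A η) n = x} =
          ENNReal.ofReal ((Pc P {η | pos none (JJ a f A η) n = x}).toReal) := fun n =>
        (ENNReal.ofReal_toReal (measure_ne_top _ _)).symm
      rw [Finset.sum_congr rfl fun n _ => h1 n,
        ← ENNReal.ofReal_sum_of_nonneg (fun n _ => ENNReal.toReal_nonneg)]
      exact ENNReal.ofReal_le_ofReal (hC M)
    exact ne_top_of_le_ne_top ENNReal.ofReal_ne_top hle
  have := measure_setOf_frequently_eq_zero hfin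
  rw [← compl_mem_ae_iff] at this
  filter_upwards [this] with η hη
  simp only [mem_compl_iff, mem_setOf_eq, not_frequently] at hη
  exact hη

end

end Pool.Agent.Helper97.IW
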