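import Mathlib
import Pool.Agent.Helper97.IterWalk.Quench

open MeasureTheory ProbabilityTheory Filter Topology Set

namespace Pool.Agent.Helper97.IW

set_option linter.unusedSectionVars false

variable {d : ℕ}

local instance : MeasurableSpace (Finset (Dir d)) := ⊤

/-! ### Dependence on levels -/

lemma xs_congr {η η' : Om d} (h : ∀ i : Ix, i.2.1 = 0 → η i = η' i) : xs η = xs η' := by
  funext n
  induction n with
  | zero => rfl
  | succ n ih => rw [xs_succ, xs_succ, ih, h (n, 0, 0) rfl]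

lemma fv_congr {η η' : Om d} (h : ∀ i : Ix, i.2.1 = 0 → η i = η' i) : fv η = fv η' := by
  funext v
  unfold fv
  rw [xs_congr h]

lemma Wk_congr {η η' : Om d} (h0 : ∀ i : Ix, i.2.1 = 0 → η i = η' i) {a : ℕ}
    (ha : ∀ i : Ix, i.2.1 = a → η i = η' i) (g : Option (Dir d)) (A : Pt d → Finset (Dir d)) :
    Wk g η a A = Wk g η' a A := by
  have : Is η a A = Is η' a A := by
    funext v m
    unfold Is
    rw [fv_congr h0, ha _ rfl]
  unfold Wk
  rw [this]

lemma al_congr {η η' : Om d} (g : Option (Dir d)) (i : ℕ)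
    (h : ∀ idx : Ix, idx.2.1 ≠ 1 → idx.2.1 < i + 2 → η idx = η' idx) :
    al g η i = al g η' i := by
  induction i with
  | zero =>
    funext v
    show edg (xs η) v ∪ ghost g v = edg (xs η') v ∪ ghost g v
    rw [xs_congr fun idx h0 => h idx (by omega) (by omega)]
  | succ i ih =>
    funext v
    show edg (Wk g η (i + 2) (al g η i)) v ∪ ghost g v =
      edg (Wk g η' (i + 2) (al g η' i)) v ∪ ghost g v
    rw [ih fun idx h1 h2 => h idx h1 (by omega),
      Wk_congr (fun idx h0 => h idx (by omega) (by omega))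
      (fun idx h0 => h idx (by omega) (by omega))]

lemma alInf_congr {η η' : Om d} (g : Option (Dir d))
    (h : ∀ idx : Ix, idx.2.1 ≠ 1 → η idx = η' idx) : alInf g η = alInf g η' := by
  funext v
  ext e
  rw [mem_alInf, mem_alInf]
  exact forall_congr' fun i => by rw [al_congr g i fun idx h1 _ => h idx h1]

/-! ### Infinite clusters -/

/-- The cluster of the origin is infinite. -/
def InfA (A : Pt d → Finset (Dir d)) : Prop :=
  ∀ (hA : ∀ v e, e ∈ A v → opp e ∈ A (v + vec e)) (F : Finset (Pt d)),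
    ∃ y, y ∉ F ∧ (GA A hA).Reachable 0 y

lemma reach_edg {W : ℕ → Pt d} (h0 : W 0 = 0) (hs : ∀ n, ∃ e, W (n + 1) = W n + vec e)
    (hA : ∀ v e, e ∈ edg W v → opp e ∈ edg W (v + vec e)) (n : ℕ) :
    (GA (edg W) hA).Reachable 0 (W n) := by
  induction n with
  | zero => rw [h0]
  | succ n ih =>
    obtain ⟨e, he⟩ := hs n
    have hadj : (GA (edg W) hA).Adj (W n) (W (n + 1)) :=
      ⟨e, mem_edg.2 (Or.inl ⟨n, rfl, he⟩), he⟩
    exact ih.trans hadj.reachable

lemma infA_edg {W : ℕ → Pt d} (h0 : W 0 = 0) (hs : ∀ n, ∃ e, W (n + 1) = W n + vec e)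
    (hT : Tr W) : InfA (edg W) := by
  intro hA F
  have : ∀ᶠ n in atTop, ∀ x ∈ F, W n ≠ x := (eventually_all_finset F).2 fun x _ => hT x
  obtain ⟨n, hn⟩ := this.exists
  exact ⟨W n, fun h => hn _ h rfl, reach_edg h0 hs hA n⟩

lemma infA_alInf {η : Om d} (hη : Legal η) (h : ∀ i, InfA (al none η i)) :
    InfA (alInf none η) := by
  intro hA F
  by_contra hcon
  push Not at hcon
  obtain ⟨i, hi⟩ := exists_stab_finset hη F
  obtain ⟨y, hyF, hy⟩ := h i (goodA_al hη i).symm F
  have hkey : ∀ z, (GA (al none η i) (goodA_al hη i).symm).Reachable 0 z →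
      (GA (alInf none η) hA).Reachable 0 z := by
    intro z hz
    rw [SimpleGraph.reachable_iff_reflTransGen] at hz
    induction hz with
    | refl => exact SimpleGraph.Reachable.refl _
    | @tail b c _ hbc ih =>
      have hbF : b ∈ F := by
        by_contra hb
        exact hcon b hb ih
      obtain ⟨e, he, hc⟩ := hbc
      rw [hi b hbF] at he
      have hadj : (GA (alInf none η) hA).Adj b c := ⟨e, he, hc⟩
      exact ih.trans hadj.reachable
  exact hcon y hyF (hkey y hy)

/-! ### Drift conditions -/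

/-- The canonical form of the drift condition. -/
structure HC (i₀ : Fin d) (P : ℕ → PD d) : Prop where
  drift_pos : 0 < drift (P 0).p i₀
  dot : ∀ a, 1 ≤ a → 0 < ∑ j, drift (P 0).p j * ellHat (P a).p j

/-- Basic full measure event. -/
structure G0 (P : ℕ → PD d) (η : Om d) : Prop where
  legal : Legal η
  lln : ∀ j : Fin d, Tendsto (fun n : ℕ => ((xs η n j : ℤ) : ℝ) / n) atTop
    (𝓝 (drift (P 0).p j))

lemma ae_G0 (P : ℕ → PD d) : ∀ᵐ η ∂(Pc P), G0 P η := by
  filter_upwards [ae_legal P, slln_xs P] with η h1 h2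
  exact ⟨h1, h2⟩

section

variable {i₀ : Fin d} {P : ℕ → PD d} {η : Om d}

lemma tendsto_xs (hP : HC i₀ P) (h : G0 P η) :
    Tendsto (fun n => xs η n i₀) atTop atTop := by
  have h1 := h.lln i₀
  have h2 : Tendsto (fun n : ℕ => ((xs η n i₀ : ℤ) : ℝ) / n * n) atTop atTop :=
    h1.pos_mul_atTop hP.drift_pos tendsto_natCast_atTop_atTop
  have h3 : Tendsto (fun n : ℕ => ((xs η n i₀ : ℤ) : ℝ)) atTop atTop := by
    refine h2.congr' ?_
    filter_upwards [eventually_gt_atTop 0] with n hn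
    have : (n : ℝ) ≠ 0 := by exact_mod_cast hn.ne'
    field_simp
  exact tendsto_intCast_atTop_iff.1 h3

lemma summable_G0 (hP : HC i₀ P) (h : G0 P η) {a : ℕ} (ha : 1 ≤ a) :
    Summable fun m => Real.exp (-(hh (P a).p (xs η m))) := by
  refine summable_weights (hP.dot a ha) ?_
  have : (fun n : ℕ => hh (P a).p (xs η n) / n) =
      fun n : ℕ => ∑ j, ((xs η n j : ℤ) : ℝ) / n * ellHat (P a).p j := by
    funext n
    unfold hh
    rw [Finset.sum_div]
    refine Finset.sum_congr rfl fun j _ => ?_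
    ring
  rw [this]
  exact tendsto_finset_sum _ fun j _ => (h.lln j).mul_const _

lemma finite_left (hP : HC i₀ P) (h : G0 P η) (b : ℤ) :
    ∃ F : Finset (Pt d), ∀ v ∈ Set.range (xs η), v i₀ < b → v ∈ F := by
  classical
  have h1 := (tendsto_xs hP h).eventually_ge_atTop b
  obtain ⟨N, hN⟩ := eventually_atTop.1 h1
  refine ⟨(Finset.range N).image (xs η), ?_⟩
  rintro v ⟨n, rfl⟩ hv
  refine Finset.mem_image_of_mem _ (Finset.mem_range.2 ?_)
  by_contra hn
  have := hN n (by omega)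
  omega

/-- A transient walk inside the range of `X^(0)` goes to the right. -/
lemma tendsto_of_Tr (hP : HC i₀ P) (h : G0 P η) {W : ℕ → Pt d}
    (hW : ∀ n, W n ∈ Set.range (xs η)) (hT : Tr W) : Tendsto (fun n => W n i₀) atTop atTop := by
  rw [tendsto_atTop]
  intro b
  obtain ⟨F, hF⟩ := finite_left hP h b
  have : ∀ᶠ n in atTop, ∀ x ∈ F, W n ≠ x := (eventually_all_finset F).2 fun x _ => hT x
  filter_upwards [this] with n hn
  by_contra hlt
  push Not at hlt
  exact hn _ (hF _ (hW n) hlt) rfl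

lemma Tr_of_tendsto {W : ℕ → Pt d} (h : Tendsto (fun n => W n i₀) atTop atTop) : Tr W := by
  intro x
  filter_upwards [h.eventually_gt_atTop (x i₀)] with n hn heq
  rw [heq] at hn
  exact lt_irrefl _ hn

lemma goodA_inj {A : Pt d → Finset (Dir d)} (hA : GoodA η A) (v v' : Pt d)
    (h : (A v).Nonempty) (h' : (A v').Nonempty) (hf : fv η v = fv η v') : v = v' := by
  obtain ⟨e, he⟩ := h
  obtain ⟨e', he'⟩ := h'
  have h1 : v ∈ Set.range (xs η) := edg_left_mem (hA.sub _ he)
  have h2 : v' ∈ Set.range (xs η) := edg_left_mem (hA.sub _ he')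
  have e1 : xs η (fv η v) = v := Nat.sInf_mem (h1 : {n | xs η n = v}.Nonempty)
  have e2 : xs η (fv η v') = v' := Nat.sInf_mem (h2 : {n | xs η n = v'}.Nonempty)
  rw [← e1, ← e2, hf]

end

lemma measurableSet_Tr {Ω : Type*} [MeasurableSpace Ω] {W : Ω → ℕ → Pt d}
    (hW : ∀ n, Measurable fun ω => W ω n) : MeasurableSet {ω | Tr (W ω)} := by
  unfold Tr
  simp only [eventually_atTop, setOf_forall, setOf_exists]
  exact MeasurableSet.iInter fun x => MeasurableSet.iUnion fun N => MeasurableSet.iInter fun n =>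
    MeasurableSet.iInter fun _ => (measurableSet_eq_pt (hW n) x).compl

lemma level_step {i₀ : Fin d} {P : ℕ → PD d} (hP : HC i₀ P) {a : ℕ} (ha : 1 ≤ a)
    {A : Om d → Pt d → Finset (Dir d)} (hmeas : ∀ v, Measurable fun η => A η v)
    (hdep : ∀ η η' : Om d, (∀ i : Ix, i.2.1 ≠ a → η i = η' i) → A η = A η')
    (hae : ∀ᵐ η ∂(Pc P), GoodA η (A η) ∧ InfA (A η)) :
    ∀ᵐ η ∂(Pc P), Tr (Wk none η a (A η)) := by
  have hmT : MeasurableSet {η : Om d | Tr (Wk none η a (A η))} :=
    measurableSet_Tr fun n => measurable_Wk none a hmeas n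
  set Q : Ix → Prop := fun i => i.2.1 = a with hQ
  have hmp := mp_mixP (fun i : Ix => IM (P i.2.1)) Q
  have hpull : (∀ᵐ q ∂((Pc P).prod (Pc P)),
      Tr (Wk none (mixP Q q) a (A (mixP Q q)))) → ∀ᵐ η ∂(Pc P), Tr (Wk none η a (A η)) := by
    intro h
    have h2 : ∀ᵐ η ∂(Measure.map (mixP Q) ((Pc P).prod (Pc P))), Tr (Wk none η a (A η)) :=
      (ae_map_iff hmp.measurable.aemeasurable hmT).2 h
    have h3 : Measure.map (mixP Q) ((Pc P).prod (Pc P)) = Pc P := hmp.map_eq
    rwa [h3] at h2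
  apply hpull
  have hms : MeasurableSet {q : (Ix → Instr d) × (Ix → Instr d) |
      Tr (Wk none (mixP Q q) a (A (mixP Q q)))} := hmp.measurable hmT
  refine (Measure.ae_prod_iff_ae_ae hms).2 ?_
  filter_upwards [hae, ae_G0 P] with η hη hG
  obtain ⟨hgood, hinf⟩ := hη
  have hsame : ∀ η' : Om d, Wk none (mixP Q (η, η')) a (A (mixP Q (η, η'))) =
      pos none (JJ a (fv η) (A η) η') := by
    intro η'
    have e1 : A (mixP Q (η, η')) = A η := hdep _ _ fun i hi =>
      mixP_neg (Q := Q) (i := i) hi _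
    have e2 : fv (mixP Q (η, η')) = fv η := fv_congr fun i hi =>
      mixP_neg (Q := Q) (i := i) (by
        show ¬ (i.2.1 = a)
        omega) _
    unfold Wk
    congr 1
    funext v m
    show (mixP Q (η, η')) (fv (mixP Q (η, η')) v, a, m) (A (mixP Q (η, η')) v) = _
    rw [e1, e2, mixP_pos (show Q (fv η v, a, m) from rfl)]
    rfl
  simp only [hsame]
  obtain ⟨R, hR⟩ := resist_bound (P a).pos (summable_G0 hP hG ha)
  exact quenched_transient hgood.symm hgood.ne (goodA_inj hgood) (R := R)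
    (fun S hS => hR S fun q hq => hgood.sub _ (hS q hq)) (hinf hgood.symm)

lemma ae_levels {i₀ : Fin d} {P : ℕ → PD d} (hP : HC i₀ P) (i : ℕ) :
    (∀ᵐ η ∂(Pc P), InfA (al none η i)) ∧
      ∀ᵐ η ∂(Pc P), Tr (Wk none η (i + 2) (al none η i)) := by
  have hstep : ∀ i, (∀ᵐ η ∂(Pc P), InfA (al none η i)) →
      ∀ᵐ η ∂(Pc P), Tr (Wk none η (i + 2) (al none η i)) := by
    intro i hi
    refine level_step hP (by omega) (fun v => measurable_al none i v)
      (fun η η' h => al_congr none i fun idx h1 h2 => h idx (by omega)) ?_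
    filter_upwards [hi, ae_G0 P] with η h1 h2
    exact ⟨goodA_al h2.legal i, h1⟩
  induction i with
  | zero =>
    have h0 : ∀ᵐ η ∂(Pc P), InfA (al none η 0) := by
      filter_upwards [ae_G0 P] with η hη
      rw [al_none_zero]
      exact infA_edg rfl (fun n => ⟨_, rfl⟩) (Tr_of_tendsto (tendsto_xs hP hη))
    exact ⟨h0, hstep 0 h0⟩
  | succ i ih =>
    have h1 : ∀ᵐ η ∂(Pc P), InfA (al none η (i + 1)) := by
      filter_upwards [ae_G0 P, ih.2] with η hη hT
      rw [al_none_succ]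
      exact infA_edg rfl (fun n => ⟨_, (walk_facts hη.legal (goodA_al hη.legal i) _ n).2.2⟩) hT
    exact ⟨h1, hstep (i + 1) h1⟩

lemma ae_level_inf {i₀ : Fin d} {P : ℕ → PD d} (hP : HC i₀ P) :
    ∀ᵐ η ∂(Pc P), Tr (Wk none η 1 (alInf none η)) := by
  refine level_step hP le_rfl (fun v => measurable_alInf none v)
    (fun η η' h => alInf_congr none h) ?_
  have h1 : ∀ᵐ η ∂(Pc P), ∀ i, InfA (al none η i) := ae_all_iff.2 fun i => (ae_levels hP i).1
  filter_upwards [h1, ae_G0 P] with η h1 h2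
  exact ⟨goodA_alInf h2.legal, infA_alInf h2.legal h1⟩

/-- The good event of the canonical space. -/
structure GG (i₀ : Fin d) (P : ℕ → PD d) (η : Om d) : Prop extends G0 P η where
  right : ∀ i, Tendsto (fun n => Wk none η (i + 2) (al none η i) n i₀) atTop atTop
  rightInf : Tendsto (fun n => Wk none η 1 (alInf none η) n i₀) atTop atTop

theorem ae_GG {i₀ : Fin d} {P : ℕ → PD d} (hP : HC i₀ P) : ∀ᵐ η ∂(Pc P), GG i₀ P η := by
  have h1 : ∀ᵐ η ∂(Pc P), ∀ i, Tr (Wk none η (i + 2) (al none η i)) :=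
    ae_all_iff.2 fun i => (ae_levels hP i).2
  filter_upwards [ae_G0 P, h1, ae_level_inf hP] with η h0 h1 h2
  exact ⟨h0, fun i => tendsto_of_Tr hP h0
    (fun n => Wk_mem_range h0.legal (goodA_al h0.legal i) _ n) (h1 i),
    tendsto_of_Tr hP h0 (fun n => Wk_mem_range h0.legal (goodA_alInf h0.legal) _ n) h2⟩

end Pool.Agent.Helper97.IW
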