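import Mathlib
import Pool.Agent.Helper97.IterWalk.Trans

open MeasureTheory ProbabilityTheory Filter Topology Set

namespace Pool.Agent.Helper97.IW

set_option linter.unusedSectionVars false

variable {d : ℕ}

/-- The half space event. -/
def DD (i₀ : Fin d) : Set (Om d) := {η | ∀ n, 0 ≤ xs η n i₀}

/-- All earlier positions are strictly to the left. -/
def Lf (i₀ : Fin d) (m : ℕ) : Set (Om d) := {η | ∀ j < m, xs η j i₀ < xs η m i₀}

lemma measurableSet_rel (i₀ : Fin d) (m n : ℕ) (r : ℤ → ℤ → Prop) :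
    MeasurableSet {η : Om d | r (xs η m i₀) (xs η n i₀)} := by
  have : {η : Om d | r (xs η m i₀) (xs η n i₀)} =
      (fun η : Om d => (xs η m, xs η n)) ⁻¹' {q | r (q.1 i₀) (q.2 i₀)} := rfl
  rw [this]
  exact ((measurable_xs m).prodMk (measurable_xs n)) (Set.to_countable _).measurableSet

lemma measurableSet_DD (i₀ : Fin d) : MeasurableSet (DD i₀) := by
  unfold DD
  rw [setOf_forall]
  exact MeasurableSet.iInter fun n => measurableSet_rel i₀ n n fun a _ => 0 ≤ a

lemma measurableSet_Lf (i₀ : Fin d) (m : ℕ) : MeasurableSet (Lf i₀ m) := by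
  unfold Lf
  simp only [setOf_forall]
  exact MeasurableSet.iInter fun j => MeasurableSet.iInter fun _ =>
    measurableSet_rel i₀ j m (· < ·)

lemma xs_congr_lt {η η' : Om d} {m : ℕ} (h : ∀ i : Ix, i.1 < m → η i = η' i) {j : ℕ}
    (hj : j ≤ m) : xs η j = xs η' j := by
  induction j with
  | zero => rfl
  | succ j ih => rw [xs_succ, xs_succ, ih (by omega), h (j, 0, 0) (by show j < m; omega)]

/-- Depends only on the time indices below `m`. -/
abbrev DLT (m : ℕ) (E : Set (Om d)) : Prop := DepOn (fun i : Ix => i.1 < m) (· ∈ E)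

lemma DLT_Lf (i₀ : Fin d) (m : ℕ) : DLT m (Lf i₀ m) := by
  intro η η' h
  simp only [Lf, mem_setOf_eq, eq_iff_iff]
  refine forall_congr' fun j => forall_congr' fun hj => ?_
  rw [xs_congr_lt h hj.le, xs_congr_lt h le_rfl]

lemma DLT.inter {m : ℕ} {E F : Set (Om d)} (hE : DLT m E) (hF : DLT m F) : DLT m (E ∩ F) := by
  intro η η' h
  have h1 := hE η η' h
  have h2 := hF η η' h
  simp only [mem_inter_iff] at *
  rw [h1, h2]

lemma DLT.mono {m n : ℕ} (hmn : m ≤ n) {E : Set (Om d)} (hE : DLT m E) : DLT n E :=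
  DepOn.mono (fun i hi => by omega) hE

lemma DLT_univ (m : ℕ) : DLT m (Set.univ : Set (Om d)) := fun _ _ _ => by simp

section

variable {i₀ : Fin d} {η : Om d}

lemma cut_iff (m : ℕ) : IsCut i₀ η m ↔ 1 ≤ m ∧ η ∈ Lf i₀ m ∧ sh m η ∈ DD i₀ := by
  unfold IsCut Lf DD
  simp only [mem_setOf_eq, xs_sh, Pi.sub_apply, sub_nonneg]
  refine and_congr_right fun _ => and_congr_right fun _ => ?_
  constructor
  · intro h n; exact h _ (by omega)
  · intro h n hn
    obtain ⟨k, rfl⟩ := Nat.exists_eq_add_of_le hn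
    exact h k

lemma cut_comp {m k : ℕ} (hm : IsCut i₀ η m) (hk : 1 ≤ k) :
    IsCut i₀ (sh m η) k ↔ IsCut i₀ η (m + k) := by
  unfold IsCut
  simp only [xs_sh, Pi.sub_apply]
  constructor
  · rintro ⟨_, h2, h3⟩
    refine ⟨by omega, fun j hj => ?_, fun j hj => ?_⟩
    · by_cases hjm : j < m
      · have h4 := hm.2.1 j hjm
        have h5 := hm.2.2 (m + k) (by omega)
        omega
      · obtain ⟨l, rfl⟩ := Nat.exists_eq_add_of_le (by omega : m ≤ j)
        have := h2 l (by omega)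
        omega
    · obtain ⟨l, rfl⟩ := Nat.exists_eq_add_of_le (by omega : m ≤ j)
      have := h3 l (by omega)
      omega
  · rintro ⟨_, h2, h3⟩
    refine ⟨hk, fun j hj => ?_, fun j hj => ?_⟩
    · have := h2 (m + j) (by omega)
      omega
    · have := h3 (m + j) (by omega)
      omega

/-- Cut before `m` as seen from the path up to time `m`. -/
def Kt (i₀ : Fin d) (k m : ℕ) : Set (Om d) :=
  {η | 1 ≤ k ∧ (∀ j < k, xs η j i₀ < xs η k i₀) ∧ ∀ j, k ≤ j → j ≤ m → xs η k i₀ ≤ xs η j i₀}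

lemma measurableSet_Kt (k m : ℕ) : MeasurableSet (Kt (d := d) i₀ k m) := by
  unfold Kt
  simp only [setOf_and, setOf_forall]
  exact (MeasurableSet.const _).inter ((MeasurableSet.iInter fun j => MeasurableSet.iInter
    fun _ => measurableSet_rel i₀ j k (· < ·)).inter (MeasurableSet.iInter fun j =>
    MeasurableSet.iInter fun _ => MeasurableSet.iInter fun _ =>
    measurableSet_rel i₀ k j (· ≤ ·)))

lemma DLT_Kt {k m : ℕ} (hk : k ≤ m) : DLT m (Kt (d := d) i₀ k m) := by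
  intro η η' h
  simp only [Kt, mem_setOf_eq, eq_iff_iff]
  refine and_congr_right fun _ => and_congr (forall_congr' fun j => forall_congr' fun hj => ?_)
    (forall_congr' fun j => forall_congr' fun hj => forall_congr' fun hj2 => ?_)
  · rw [xs_congr_lt h (by omega : j ≤ m), xs_congr_lt h hk]
  · rw [xs_congr_lt h hj2, xs_congr_lt h hk]

lemma cut_iff_Kt {k m : ℕ} (hm : IsCut i₀ η m) (hk : k < m) :
    IsCut i₀ η k ↔ η ∈ Kt i₀ k m := by
  constructor
  · rintro ⟨h1, h2, h3⟩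
    exact ⟨h1, h2, fun j hj _ => h3 j hj⟩
  · rintro ⟨h1, h2, h3⟩
    refine ⟨h1, h2, fun j hj => ?_⟩
    by_cases hjm : j ≤ m
    · exact h3 j hj hjm
    · have h4 := hm.2.2 j (by omega)
      have h5 := h3 m hk.le le_rfl
      omega

/-- `m` is the first cut time `≥ n`. -/
def FC (i₀ : Fin d) (n m : ℕ) (η : Om d) : Prop :=
  IsCut i₀ η m ∧ n ≤ m ∧ ∀ k, n ≤ k → k < m → ¬ IsCut i₀ η k

/-- The part of the event `FC` seen up to time `m`. -/
def EE (i₀ : Fin d) (n m : ℕ) : Set (Om d) :=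
  {η | 1 ≤ m ∧ n ≤ m ∧ η ∈ Lf i₀ m ∧ ∀ k, n ≤ k → k < m → η ∉ Kt i₀ k m}

lemma measurableSet_EE (n m : ℕ) : MeasurableSet (EE (d := d) i₀ n m) := by
  unfold EE
  simp only [setOf_and, setOf_forall]
  exact (MeasurableSet.const _).inter ((MeasurableSet.const _).inter
    ((measurableSet_Lf i₀ m).inter (MeasurableSet.iInter fun k =>
    MeasurableSet.iInter fun _ => MeasurableSet.iInter fun _ => (measurableSet_Kt k m).compl)))

lemma DLT_EE (n m : ℕ) : DLT m (EE (d := d) i₀ n m) := by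
  intro η η' h
  simp only [EE, mem_setOf_eq, eq_iff_iff]
  refine and_congr_right fun _ => and_congr_right fun _ => and_congr
    (by have := DLT_Lf i₀ m η η' h; simpa using this)
    (forall_congr' fun k => forall_congr' fun _ => forall_congr' fun hk => not_congr ?_)
  have := DLT_Kt (i₀ := i₀) hk.le η η' h
  simpa using this

lemma FC_iff {n m : ℕ} : FC i₀ n m η ↔ η ∈ EE i₀ n m ∧ sh m η ∈ DD i₀ := by
  constructor
  · rintro ⟨h1, h2, h3⟩
    have h4 := (cut_iff m).1 h1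
    exact ⟨⟨h4.1, h2, h4.2.1, fun k hk hkm hK => h3 k hk hkm ((cut_iff_Kt h1 hkm).2 hK)⟩,
      h4.2.2⟩
  · rintro ⟨⟨h1, h2, h3, h4⟩, h5⟩
    have hc : IsCut i₀ η m := (cut_iff m).2 ⟨h1, h3, h5⟩
    exact ⟨hc, h2, fun k hk hkm hK => h4 k hk hkm ((cut_iff_Kt hc hkm).1 hK)⟩

lemma FC_unique {n m m' : ℕ} (h : FC i₀ n m η) (h' : FC i₀ n m' η) : m = m' := by
  rcases lt_trichotomy m m' with hlt | heq | hlt
  · exact absurd h.1 (h'.2.2 m h.2.1 hlt)
  · exact heq
  · exact absurd h'.1 (h.2.2 m' h'.2.1 hlt)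

/-- The half space event up to time `m`. -/
def Dm (i₀ : Fin d) (m : ℕ) : Set (Om d) := {η | ∀ j ≤ m, 0 ≤ xs η j i₀}

lemma measurableSet_Dm (m : ℕ) : MeasurableSet (Dm (d := d) i₀ m) := by
  unfold Dm
  simp only [setOf_forall]
  exact MeasurableSet.iInter fun j => MeasurableSet.iInter fun _ =>
    measurableSet_rel i₀ j j fun a _ => 0 ≤ a

lemma DLT_Dm (m : ℕ) : DLT m (Dm (d := d) i₀ m) := by
  intro η η' h
  simp only [Dm, mem_setOf_eq, eq_iff_iff]
  refine forall_congr' fun j => forall_congr' fun hj => ?_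
  rw [xs_congr_lt h hj]

lemma DD_iff_Dm {m : ℕ} (hm : IsCut i₀ η m) : η ∈ DD i₀ ↔ η ∈ Dm i₀ m := by
  constructor
  · intro h j _; exact h j
  · intro h j
    by_cases hj : j ≤ m
    · exact h j hj
    · have h1 := hm.2.2 j (by omega)
      have h2 := h m le_rfl
      omega

end

section prob

variable {i₀ : Fin d} (P : ℕ → PD d)

lemma mp_sh (m : ℕ) : MeasurePreserving (sh m) (Pc P) (Pc P) := by
  have := mp_reindex (fun i : Ix => IM (P i.2.1)) (f := fun i : Ix => (m + i.1, i.2.1, i.2.2))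
    (by
      rintro ⟨a, b, c⟩ ⟨a', b', c'⟩ h
      simp only [Prod.mk.injEq] at h
      obtain ⟨h1, h2, h3⟩ := h
      have : a = a' := by omega
      subst this; subst h2; subst h3; rfl) (fun i => rfl)
  exact this

lemma indep_sh {m : ℕ} {E A : Set (Om d)} (hE : MeasurableSet E) (hA : MeasurableSet A)
    (dE : DLT m E) : Pc P (E ∩ sh m ⁻¹' A) = Pc P E * Pc P A := by
  have h1 := indep_mixP (fun i : Ix => IM (P i.2.1)) (fun i => m ≤ i.1) hE
    ((measurable_sh m) hA) (DepOn.mono (fun i hi => by simpa using hi) dE) (by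
      intro η η' h
      simp only [mem_preimage]
      have : sh m η = sh m η' := by
        funext i
        exact h _ (by show m ≤ m + i.1; omega)
      rw [this])
  rw [show Pc P = Measure.infinitePi (fun i : Ix => IM (P i.2.1)) from rfl, h1]
  congr 1
  exact (mp_sh P m).measure_preimage hA.nullMeasurableSet

variable {P}

lemma exists_DD (hP : HC i₀ P) {η : Om d} (h : G0 P η) : ∃ n, sh n η ∈ DD i₀ := by
  obtain ⟨N, hN⟩ := eventually_atTop.1 ((tendsto_xs hP h).eventually_ge_atTop 0)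
  obtain ⟨n, hn, hmin⟩ := Finset.exists_min_image (Finset.range (N + 1)) (fun n => xs η n i₀)
    ⟨0, by simp⟩
  refine ⟨n, fun k => ?_⟩
  rw [xs_sh, Pi.sub_apply, sub_nonneg]
  by_cases hk : n + k < N + 1
  · exact hmin _ (Finset.mem_range.2 hk)
  · have h1 := hN (n + k) (by omega)
    have h2 := hmin 0 (by simp)
    rw [xs_zero] at h2
    simp only [Pi.zero_apply] at h2
    omega

lemma DD_ne_zero (hP : HC i₀ P) : Pc P (DD i₀) ≠ 0 := by
  intro h0
  have h1 : ∀ᵐ η ∂(Pc P), η ∈ ⋃ n, sh n ⁻¹' (DD i₀) := by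
    filter_upwards [ae_G0 P] with η hη
    obtain ⟨n, hn⟩ := exists_DD hP hη
    exact mem_iUnion.2 ⟨n, hn⟩
  have h2 : Pc P (⋃ n, sh n ⁻¹' (DD i₀)) = 0 := by
    rw [measure_iUnion_null_iff]
    intro n
    rw [(mp_sh P n).measure_preimage (measurableSet_DD i₀).nullMeasurableSet, h0]
  have h3 : ∀ᵐ η ∂(Pc P), η ∉ ⋃ n, sh n ⁻¹' (DD i₀) := measure_eq_zero_iff_ae_notMem.1 h2
  obtain ⟨η, h4, h5⟩ := (h1.and h3).exists
  exact h5 h4

/-- Decomposition according to the first cut `≥ n`, in the half space. -/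
lemma decomp_D {n : ℕ} {B A : Set (Om d)} (hB : MeasurableSet B) (dB : DLT n B)
    (hA : MeasurableSet A) :
    Pc P (DD i₀ ∩ B ∩ {η | ∃ m, FC i₀ n m η ∧ sh m η ∈ A}) =
      (∑' m, Pc P (Dm i₀ m ∩ B ∩ EE i₀ n m)) * Pc P (DD i₀ ∩ A) := by
  have h1 : DD i₀ ∩ B ∩ {η | ∃ m, FC i₀ n m η ∧ sh m η ∈ A} =
      ⋃ m, (Dm i₀ m ∩ B ∩ EE i₀ n m) ∩ sh m ⁻¹' (DD i₀ ∩ A) := by
    ext η
    simp only [mem_inter_iff, mem_setOf_eq, mem_iUnion, mem_preimage]
    constructor
    · rintro ⟨⟨hD, hBη⟩, m, hFC, hAm⟩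
      have h2 := FC_iff.1 hFC
      exact ⟨m, ⟨⟨(DD_iff_Dm hFC.1).1 hD, hBη⟩, h2.1⟩, h2.2, hAm⟩
    · rintro ⟨m, ⟨⟨hDm, hBη⟩, hE⟩, hD, hAm⟩
      have hFC := FC_iff.2 ⟨hE, hD⟩
      exact ⟨⟨(DD_iff_Dm hFC.1).2 hDm, hBη⟩, m, hFC, hAm⟩
  rw [h1, measure_iUnion, ← ENNReal.tsum_mul_right]
  · refine tsum_congr fun m => ?_
    by_cases hnm : n ≤ m
    · exact indep_sh P (((measurableSet_Dm m).inter hB).inter (measurableSet_EE n m))
        ((measurableSet_DD i₀).inter hA) (((DLT_Dm m).inter (dB.mono hnm)).inter (DLT_EE n m))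
    · have h3 : (Dm i₀ m ∩ B ∩ EE i₀ n m : Set (Om d)) = ∅ := by
        ext η
        simp only [mem_inter_iff, mem_empty_iff_false, iff_false]
        rintro ⟨_, hE⟩
        exact hnm hE.2.1
      rw [h3, Set.empty_inter, measure_empty, zero_mul]
  · intro m m' hmm
    refine Set.disjoint_left.2 fun η hm hm' => hmm ?_
    exact FC_unique (FC_iff.2 ⟨hm.1.2, hm.2.1⟩) (FC_iff.2 ⟨hm'.1.2, hm'.2.1⟩)
  · intro m
    exact (((measurableSet_Dm m).inter hB).inter (measurableSet_EE n m)).inter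
      ((measurable_sh m) ((measurableSet_DD i₀).inter hA))

/-- Decomposition according to the first cut. -/
lemma decomp_univ {A : Set (Om d)} (hA : MeasurableSet A) :
    Pc P {η | ∃ m, FC i₀ 1 m η ∧ sh m η ∈ A} =
      (∑' m, Pc P (EE i₀ 1 m)) * Pc P (DD i₀ ∩ A) := by
  have h1 : {η : Om d | ∃ m, FC i₀ 1 m η ∧ sh m η ∈ A} =
      ⋃ m, (EE i₀ 1 m) ∩ sh m ⁻¹' (DD i₀ ∩ A) := by
    ext η
    simp only [mem_setOf_eq, mem_iUnion, mem_preimage, mem_inter_iff, FC_iff]
    exact exists_congr fun m => by tauto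
  rw [h1, measure_iUnion, ← ENNReal.tsum_mul_right]
  · refine tsum_congr fun m => ?_
    exact indep_sh P (measurableSet_EE 1 m) ((measurableSet_DD i₀).inter hA) (DLT_EE 1 m)
  · intro m m' hmm
    refine Set.disjoint_left.2 fun η hm hm' => hmm ?_
    exact FC_unique (FC_iff.2 ⟨hm.1, hm.2.1⟩) (FC_iff.2 ⟨hm'.1, hm'.2.1⟩)
  · intro m
    exact (measurableSet_EE 1 m).inter ((measurable_sh m) ((measurableSet_DD i₀).inter hA))

end prob

end Pool.Agent.Helper97.IW
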