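import Mathlib
import Pool.Agent.Helper97.IterWalk.Cuts

open MeasureTheory ProbabilityTheory Filter Topology Set

namespace Pool.Agent.Helper97.IW

set_option linter.unusedSectionVars false

variable {d : ℕ}

section

variable {i₀ : Fin d} {P : ℕ → PD d}

/-- Time reversal of the first `k` time indices. -/
def rv (k : ℕ) (η : Om d) : Om d := fun i => η (if i.1 < k then k - 1 - i.1 else i.1, i.2.1, i.2.2)

lemma mp_rv (k : ℕ) : MeasurePreserving (rv k) (Pc P) (Pc P) := by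
  have := mp_reindex (fun i : Ix => IM (P i.2.1))
    (f := fun i : Ix => (if i.1 < k then k - 1 - i.1 else i.1, i.2.1, i.2.2))
    (by
      rintro ⟨a, b, c⟩ ⟨a', b', c'⟩ h
      simp only [Prod.mk.injEq] at h
      obtain ⟨h1, h2, h3⟩ := h
      have : a = a' := by split_ifs at h1 <;> omega
      subst this; subst h2; subst h3; rfl) (fun i => rfl)
  exact this

lemma xs_rv (k : ℕ) (η : Om d) {m : ℕ} (hm : m ≤ k) : xs (rv k η) m = xs η k - xs η (k - m) := by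
  induction m with
  | zero => simp [xs_zero]
  | succ m ih =>
    rw [xs_succ, ih (by omega)]
    have h1 : rv k η (m, 0, 0) = η (k - (m + 1), 0, 0) := by
      unfold rv
      simp only [show m < k by omega, if_true]
      rw [show k - 1 - m = k - (m + 1) by omega]
    have h2 : xs η (k - m) = xs η (k - (m + 1)) + vec (η (k - (m + 1), 0, 0) Finset.univ) := by
      rw [show k - m = (k - (m + 1)) + 1 by omega, xs_succ]
    rw [h1, h2]; abel

/-- The event that the first step is `+e` and that the walk stays on the right afterwards. -/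
def FS (i₀ : Fin d) : Set (Om d) :=
  {η | η (0, 0, 0) Finset.univ = (i₀, true)} ∩ sh 1 ⁻¹' (DD i₀)

lemma FS_sub (k : ℕ) : FS i₀ ⊆ rv k ⁻¹' (Lf i₀ k) := by
  rintro η ⟨h1, h2⟩ j hj
  rw [xs_rv k η le_rfl, xs_rv k η hj.le]
  simp only [Nat.sub_self, xs_zero, Pi.sub_apply, Pi.zero_apply]
  obtain ⟨l, hl⟩ : ∃ l, k - j = 1 + l := ⟨k - j - 1, by omega⟩
  have h3 := h2 l
  rw [xs_sh, Pi.sub_apply] at h3
  have h4 : xs η 1 i₀ = 1 := by
    rw [xs_succ, xs_zero, zero_add]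
    rw [mem_setOf_eq] at h1
    rw [h1]
    simp [vec]
  rw [hl]
  omega

lemma FS_meas : MeasurableSet (FS (d := d) i₀) := by
  refine MeasurableSet.inter ?_ ((measurable_sh 1) (measurableSet_DD i₀))
  have : Measurable fun η : Om d => η (0, 0, 0) Finset.univ := by fun_prop
  exact this (measurableSet_singleton _)

lemma FS_pos (hP : HC i₀ P) : Pc P (FS i₀) ≠ 0 := by
  unfold FS
  rw [indep_sh P ?_ (measurableSet_DD i₀)]
  · refine mul_ne_zero ?_ (DD_ne_zero hP)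
    rw [Pc_eval, qq_univ]
    exact (ENNReal.ofReal_pos.2 ((P 0).pos _)).ne'
  · intro η η' h
    simp only [mem_setOf_eq, h (0, 0, 0) (by show 0 < 1; omega)]
  · have : Measurable fun η : Om d => η (0, 0, 0) Finset.univ := by fun_prop
    exact this (measurableSet_singleton _)

lemma Lf_ge (k : ℕ) : Pc P (FS i₀) ≤ Pc P (Lf i₀ k) := by
  rw [← (mp_rv k).measure_preimage (measurableSet_Lf i₀ k).nullMeasurableSet]
  exact measure_mono (FS_sub k)

/-- No cut time in `[1, j]`. -/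
def NC (i₀ : Fin d) (j : ℕ) : Set (Om d) := {η | ∀ l, 1 ≤ l → l ≤ j → ¬ IsCut i₀ η l}

lemma measurableSet_NC (j : ℕ) : MeasurableSet (NC (d := d) i₀ j) := by
  unfold NC
  simp only [setOf_forall]
  exact MeasurableSet.iInter fun l => MeasurableSet.iInter fun _ => MeasurableSet.iInter fun _ =>
    (measurableSet_isCut i₀ l).compl

/-- The last cut in `[1, n]` is at `k`. -/
lemma lastcut_sum (n : ℕ) :
    ∑ k ∈ Finset.range n, Pc P (Lf i₀ (k + 1)) * Pc P (DD i₀ ∩ NC i₀ (n - (k + 1))) ≤ 1 := by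
  have h1 : ∀ k ∈ Finset.range n, Pc P (Lf i₀ (k + 1)) * Pc P (DD i₀ ∩ NC i₀ (n - (k + 1))) =
      Pc P (Lf i₀ (k + 1) ∩ sh (k + 1) ⁻¹' (DD i₀ ∩ NC i₀ (n - (k + 1)))) := fun k _ =>
    (indep_sh P (measurableSet_Lf i₀ _) ((measurableSet_DD i₀).inter (measurableSet_NC _))
      (DLT_Lf i₀ _)).symm
  rw [Finset.sum_congr rfl h1, ← measure_biUnion_finset]
  · exact prob_le_one
  · intro k hk k' hk' hkk
    refine Set.disjoint_left.2 fun η h h' => ?_
    have key : ∀ k k', k < k' → k' < n →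
        η ∈ Lf i₀ (k + 1) ∩ sh (k + 1) ⁻¹' (DD i₀ ∩ NC i₀ (n - (k + 1))) →
        η ∈ Lf i₀ (k' + 1) ∩ sh (k' + 1) ⁻¹' (DD i₀ ∩ NC i₀ (n - (k' + 1))) → False := by
      intro k k' hlt hk'n h h'
      have hc : IsCut i₀ η (k + 1) := (cut_iff _).2 ⟨by omega, h.1, h.2.1⟩
      have hc' : IsCut i₀ η (k' + 1) := (cut_iff _).2 ⟨by omega, h'.1, h'.2.1⟩
      have h3 := h.2.2 (k' - k) (by omega) (by omega)
      apply h3
      rw [cut_comp hc (by omega)]
      rw [show k + 1 + (k' - k) = k' + 1 by omega]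
      exact hc'
    rcases lt_or_gt_of_ne hkk with hlt | hlt
    · exact key k k' hlt (Finset.mem_range.1 hk') h h'
    · exact key k' k hlt (Finset.mem_range.1 hk) h' h
  · intro k _
    exact (measurableSet_Lf i₀ _).inter ((measurable_sh _)
      ((measurableSet_DD i₀).inter (measurableSet_NC _)))

lemma sum_NC_le (n : ℕ) :
    Pc P (FS i₀) * ∑ j ∈ Finset.range n, Pc P (DD i₀ ∩ NC i₀ j) ≤ 1 := by
  refine le_trans ?_ (lastcut_sum (P := P) (i₀ := i₀) n)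
  rw [← Finset.sum_range_reflect, Finset.mul_sum]
  refine Finset.sum_le_sum fun k hk => ?_
  have hk := Finset.mem_range.1 hk
  rw [show n - 1 - k = n - (k + 1) by omega]
  exact mul_le_mul' (Lf_ge (k + 1)) le_rfl

lemma tsum_NC_lt_top (hP : HC i₀ P) : ∑' j, Pc P (DD i₀ ∩ NC i₀ j) < ⊤ := by
  have h1 : ∑' j, Pc P (DD i₀ ∩ NC i₀ j) ≤ (Pc P (FS i₀))⁻¹ := by
    rw [ENNReal.tsum_eq_iSup_nat]
    refine iSup_le fun n => ?_
    have h2 := sum_NC_le (P := P) (i₀ := i₀) n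
    rw [mul_comm] at h2
    rwa [← ENNReal.le_div_iff_mul_le (Or.inl (FS_pos hP)) (Or.inl (measure_ne_top _ _)),
      one_div] at h2
  exact lt_of_le_of_lt h1 (ENNReal.inv_lt_top.2 (pos_iff_ne_zero.2 (FS_pos hP)))

/-- The first cut time. -/
noncomputable def fc (i₀ : Fin d) (η : Om d) : ℕ := sInf {m | IsCut i₀ η m}

lemma measurable_fc : Measurable (fc (d := d) i₀) :=
  measurable_sInf_nat (S := fun m => {η : Om d | IsCut i₀ η m}) fun m => measurableSet_isCut i₀ m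

/-- The induced shift. -/
noncomputable def SS (i₀ : Fin d) (η : Om d) : Om d := sh (fc i₀ η) η

lemma measurable_SS : Measurable (SS (d := d) i₀) :=
  meas_select (g := fun k (η : Om d) => sh k η) measurable_fc fun k => measurable_sh k

lemma fc_spec {η : Om d} (h : ∃ m, IsCut i₀ η m) : IsCut i₀ η (fc i₀ η) :=
  Nat.sInf_mem (h : {m | IsCut i₀ η m}.Nonempty)

lemma fc_le {η : Om d} {m : ℕ} (h : IsCut i₀ η m) : fc i₀ η ≤ m := Nat.sInf_le h

lemma FC_fc {η : Om d} (h : ∃ m, IsCut i₀ η m) : FC i₀ 1 (fc i₀ η) η :=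
  ⟨fc_spec h, (fc_spec h).1, fun k _ hk hc => absurd (fc_le hc) (by omega)⟩

lemma FC_one_iff {η : Om d} (A : Set (Om d)) :
    (∃ m, FC i₀ 1 m η ∧ sh m η ∈ A) ↔ (∃ m, IsCut i₀ η m) ∧ SS i₀ η ∈ A := by
  constructor
  · rintro ⟨m, hm, hA⟩
    have hex : ∃ m, IsCut i₀ η m := ⟨m, hm.1⟩
    have := FC_unique hm (FC_fc hex)
    subst this
    exact ⟨hex, hA⟩
  · rintro ⟨hex, hA⟩
    exact ⟨_, FC_fc hex, hA⟩

lemma ae_D_hasCut (hP : HC i₀ P) : ∀ᵐ η ∂(Pc P), η ∈ DD i₀ → ∃ m, IsCut i₀ η m := by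
  have h1 : Pc P (DD i₀ ∩ {η | ¬ ∃ m, IsCut i₀ η m}) = 0 := by
    by_contra hne
    have h2 := tsum_NC_lt_top (P := P) hP
    have h3 : ∀ j, Pc P (DD i₀ ∩ {η | ¬ ∃ m, IsCut i₀ η m}) ≤ Pc P (DD i₀ ∩ NC i₀ j) := by
      intro j
      refine measure_mono fun η hη => ⟨hη.1, fun l _ _ hc => hη.2 ⟨l, hc⟩⟩
    have h4 : ∑' _ : ℕ, Pc P (DD i₀ ∩ {η | ¬ ∃ m, IsCut i₀ η m}) ≤
        ∑' j, Pc P (DD i₀ ∩ NC i₀ j) := ENNReal.tsum_le_tsum h3
    rw [ENNReal.tsum_const_eq_top_of_ne_zero hne] at h4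
    exact absurd h2 (not_lt.2 h4)
  have h2 := measure_eq_zero_iff_ae_notMem.1 h1
  filter_upwards [h2] with η hη hD
  by_contra hc
  exact hη ⟨hD, hc⟩

/-- The measure conditioned on the half space event. -/
noncomputable def PDm (i₀ : Fin d) (P : ℕ → PD d) : Measure (Om d) := ProbabilityTheory.cond (Pc P) (DD i₀)

lemma PDm_apply {A : Set (Om d)} :
    PDm i₀ P A = (Pc P (DD i₀))⁻¹ * Pc P (DD i₀ ∩ A) :=
  cond_apply (measurableSet_DD i₀) _ _

lemma isProb_PDm (hP : HC i₀ P) : IsProbabilityMeasure (PDm i₀ P) :=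
  cond_isProbabilityMeasure (DD_ne_zero hP)

lemma ae_PDm_iff {p : Om d → Prop} (hp : MeasurableSet {η | p η}) :
    (∀ᵐ η ∂(PDm i₀ P), p η) ↔ ∀ᵐ η ∂(Pc P), η ∈ DD i₀ → p η := by
  rw [ae_iff, ae_iff, PDm_apply]
  have e1 : {η | ¬ (η ∈ DD i₀ → p η)} = DD i₀ ∩ {η | ¬ p η} := by
    ext η; simp
  rw [e1, mul_eq_zero]
  constructor
  · rintro (h | h)
    · exact absurd h (ENNReal.inv_ne_zero.2 (measure_ne_top _ _))
    · exact h
  · intro h; exact Or.inr h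

lemma preimage_SS_D (hP : HC i₀ P) {A : Set (Om d)} (hA : MeasurableSet A) :
    Pc P (DD i₀ ∩ SS i₀ ⁻¹' A) = Pc P (DD i₀ ∩ A) := by
  have key : ∀ A : Set (Om d), MeasurableSet A → Pc P (DD i₀ ∩ SS i₀ ⁻¹' A) =
      (∑' m, Pc P (Dm i₀ m ∩ Set.univ ∩ EE i₀ 1 m)) * Pc P (DD i₀ ∩ A) := by
    intro A hA
    rw [← decomp_D MeasurableSet.univ (DLT_univ 1) hA]
    apply measure_congr
    filter_upwards [ae_D_hasCut hP] with η hη
    apply propext
    show (η ∈ DD i₀ ∩ SS i₀ ⁻¹' A) ↔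
      (η ∈ DD i₀ ∩ Set.univ ∩ {η | ∃ m, FC i₀ 1 m η ∧ sh m η ∈ A})
    simp only [mem_inter_iff, mem_univ, and_true, mem_setOf_eq, mem_preimage, FC_one_iff]
    constructor
    · rintro ⟨h1, h2⟩; exact ⟨h1, hη h1, h2⟩
    · rintro ⟨h1, _, h2⟩; exact ⟨h1, h2⟩
  have h1 := key Set.univ MeasurableSet.univ
  rw [Set.preimage_univ, Set.inter_univ] at h1
  have h2 : (∑' m, Pc P (Dm i₀ m ∩ Set.univ ∩ EE i₀ 1 m)) = 1 := by
    have h3 : (∑' m, Pc P (Dm i₀ m ∩ Set.univ ∩ EE i₀ 1 m)) * Pc P (DD i₀) = 1 * Pc P (DD i₀) := by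
      rw [one_mul]; exact h1.symm
    exact (ENNReal.mul_left_inj (DD_ne_zero hP) (measure_ne_top _ _)).1 h3
  rw [key A hA, h2, one_mul]

lemma mp_SS (hP : HC i₀ P) : MeasurePreserving (SS i₀) (PDm i₀ P) (PDm i₀ P) := by
  refine ⟨measurable_SS, ?_⟩
  ext A hA
  rw [Measure.map_apply measurable_SS hA, PDm_apply, PDm_apply, preimage_SS_D hP hA]

/-- Unboundedly many cuts. -/
def UC (i₀ : Fin d) (η : Om d) : Prop := ∀ K : ℕ, ∃ l, IsCut i₀ η l ∧ (K : ℤ) ≤ xs η l i₀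

lemma measurableSet_hasCut : MeasurableSet {η : Om d | ∃ m, IsCut i₀ η m} := by
  simp only [setOf_exists]
  exact MeasurableSet.iUnion fun m => measurableSet_isCut i₀ m

lemma ae_PDm_iter (hP : HC i₀ P) :
    ∀ᵐ η ∂(PDm i₀ P), ∀ k, ∃ m, IsCut i₀ ((SS i₀)^[k] η) m := by
  rw [ae_all_iff]
  intro k
  have h1 : ∀ᵐ η ∂(PDm i₀ P), ∃ m, IsCut i₀ η m :=
    (ae_PDm_iff measurableSet_hasCut).2 (ae_D_hasCut hP)
  exact ((mp_SS hP).iterate k).quasiMeasurePreserving.ae h1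

/-- The successive cut times. -/
noncomputable def sk (i₀ : Fin d) (η : Om d) : ℕ → ℕ
  | 0 => 0
  | k + 1 => sk i₀ η k + fc i₀ ((SS i₀)^[k] η)

lemma SS_iterate (η : Om d) (k : ℕ) : (SS i₀)^[k] η = sh (sk i₀ η k) η := by
  induction k with
  | zero =>
    show η = sh 0 η
    funext i; simp [sh]
  | succ k ih =>
    rw [Function.iterate_succ_apply']
    show sh (fc i₀ ((SS i₀)^[k] η)) ((SS i₀)^[k] η) = _
    conv_lhs => rw [ih]
    rw [sh_sh]
    show _ = sh (sk i₀ η k + fc i₀ ((SS i₀)^[k] η)) η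
    rw [ih]

lemma cut_sk {η : Om d} (h : ∀ k, ∃ m, IsCut i₀ ((SS i₀)^[k] η) m) (k : ℕ) :
    IsCut i₀ η (sk i₀ η (k + 1)) ∧ ((k + 1 : ℕ) : ℤ) ≤ xs η (sk i₀ η (k + 1)) i₀ := by
  induction k with
  | zero =>
    have h1 : sk i₀ η 1 = fc i₀ η := by
      show sk i₀ η 0 + fc i₀ ((SS i₀)^[0] η) = fc i₀ η
      show 0 + fc i₀ η = fc i₀ η
      omega
    rw [h1]
    have hc := fc_spec (h 0)
    have h2 := hc.2.1 0 (by have := hc.1; exact this)
    refine ⟨hc, ?_⟩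
    rw [xs_zero] at h2
    simp only [Pi.zero_apply, Function.iterate_zero, id_eq] at h2
    push_cast; omega
  | succ k ih =>
    obtain ⟨ih1, ih2⟩ := ih
    have h1 : sk i₀ η (k + 1 + 1) = sk i₀ η (k + 1) + fc i₀ ((SS i₀)^[k + 1] η) := rfl
    have hc := fc_spec (h (k + 1))
    have hcc : IsCut i₀ η (sk i₀ η (k + 1) + fc i₀ ((SS i₀)^[k + 1] η)) := by
      rw [← cut_comp ih1 hc.1, ← SS_iterate]
      exact hc
    rw [h1]
    refine ⟨hcc, ?_⟩
    have h2 := hcc.2.1 (sk i₀ η (k + 1)) (by have := hc.1; omega)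
    push_cast at ih2 ⊢
    omega

lemma UC_of_iter {η : Om d} (h : ∀ k, ∃ m, IsCut i₀ ((SS i₀)^[k] η) m) : UC i₀ η := by
  intro K
  obtain ⟨h1, h2⟩ := cut_sk h K
  refine ⟨_, h1, ?_⟩
  push_cast at h2
  omega

lemma hasCut_of_UC_sh {η : Om d} {n : ℕ} (h : UC i₀ (sh n η)) : ∃ m, IsCut i₀ η m := by
  classical
  -- choose a cut to the right of everything visited before time n
  obtain ⟨K, hK⟩ : ∃ K : ℕ, ∀ j < n, xs η j i₀ - xs η n i₀ < K := by
    refine ⟨(Finset.range n).sup (fun j => (xs η j i₀ - xs η n i₀).toNat) + 1, fun j hj => ?_⟩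
    have h1 : (xs η j i₀ - xs η n i₀).toNat ≤
        (Finset.range n).sup (fun j => (xs η j i₀ - xs η n i₀).toNat) :=
      Finset.le_sup (f := fun j => (xs η j i₀ - xs η n i₀).toNat) (Finset.mem_range.2 hj)
    have h2 := Int.self_le_toNat (xs η j i₀ - xs η n i₀)
    push_cast
    omega
  obtain ⟨l, hl, hKl⟩ := h K
  refine ⟨n + l, ?_, fun j hj => ?_, fun j hj => ?_⟩
  · have := hl.1; omega
  · by_cases hjn : j < n
    · have h3 := hK j hjn
      rw [xs_sh, Pi.sub_apply] at hKl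
      omega
    · obtain ⟨r, rfl⟩ := Nat.exists_eq_add_of_le (by omega : n ≤ j)
      have h3 := hl.2.1 r (by omega)
      rw [xs_sh, xs_sh, Pi.sub_apply, Pi.sub_apply] at h3
      omega
  · obtain ⟨r, rfl⟩ := Nat.exists_eq_add_of_le (by omega : n ≤ j)
    have h3 := hl.2.2 r (by omega)
    rw [xs_sh, xs_sh, Pi.sub_apply, Pi.sub_apply] at h3
    omega

lemma measurableSet_iter : MeasurableSet {η : Om d | ∀ k, ∃ m, IsCut i₀ ((SS i₀)^[k] η) m} := by
  simp only [setOf_forall]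
  exact MeasurableSet.iInter fun k => (measurable_SS.iterate k) measurableSet_hasCut

lemma ae_hasCut (hP : HC i₀ P) : ∀ᵐ η ∂(Pc P), ∃ m, IsCut i₀ η m := by
  have h1 : ∀ᵐ η ∂(Pc P), η ∈ DD i₀ → ∀ k, ∃ m, IsCut i₀ ((SS i₀)^[k] η) m :=
    (ae_PDm_iff measurableSet_iter).1 (ae_PDm_iter hP)
  have h2 : ∀ᵐ η ∂(Pc P), ∀ n, (sh n η ∈ DD i₀ → ∀ k, ∃ m, IsCut i₀ ((SS i₀)^[k] (sh n η)) m) :=
    ae_all_iff.2 fun n => (mp_sh P n).quasiMeasurePreserving.ae h1
  filter_upwards [h2, ae_G0 P] with η h2 hG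
  obtain ⟨n, hn⟩ := exists_DD hP hG
  exact hasCut_of_UC_sh (UC_of_iter (h2 n hn))

/-- The law of `SS η` under the canonical measure. -/
lemma map_SS (hP : HC i₀ P) : (Pc P).map (SS i₀) = PDm i₀ P := by
  have key : ∀ A : Set (Om d), MeasurableSet A → Pc P (SS i₀ ⁻¹' A) =
      (∑' m, Pc P (EE i₀ 1 m)) * Pc P (DD i₀ ∩ A) := by
    intro A hA
    rw [← decomp_univ hA]
    apply measure_congr
    filter_upwards [ae_hasCut hP] with η hη
    apply propext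
    show (η ∈ SS i₀ ⁻¹' A) ↔ (η ∈ {η | ∃ m, FC i₀ 1 m η ∧ sh m η ∈ A})
    simp only [mem_setOf_eq, mem_preimage, FC_one_iff]
    exact ⟨fun h => ⟨hη, h⟩, fun h => h.2⟩
  have h1 := key Set.univ MeasurableSet.univ
  rw [Set.preimage_univ, Set.inter_univ, measure_univ] at h1
  have h2 : (∑' m, Pc P (EE i₀ 1 m)) = (Pc P (DD i₀))⁻¹ := by
    rw [ENNReal.eq_inv_of_mul_eq_one_left h1.symm]
  ext A hA
  rw [Measure.map_apply measurable_SS hA, key A hA, h2, PDm_apply]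

lemma ae_SS (hP : HC i₀ P) {p : Om d → Prop} (hp : MeasurableSet {η | p η})
    (h : ∀ᵐ η ∂(PDm i₀ P), p η) : ∀ᵐ η ∂(Pc P), p (SS i₀ η) := by
  rw [← map_SS hP] at h
  exact (ae_map_iff measurable_SS.aemeasurable hp).1 h

lemma ae_SS' (hP : HC i₀ P) {p : Om d → Prop}
    (h : ∀ᵐ η ∂(PDm i₀ P), p η) : ∀ᵐ η ∂(Pc P), p (SS i₀ η) := by
  rw [← map_SS hP] at h
  exact ae_of_ae_map measurable_SS.aemeasurable h

end

end Pool.Agent.Helper97.IW
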