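import Mathlib
import Pool.Agent.Helper97.IterWalk.Cuts2
import Pool.Agent.Helper97.Birkhoff

open MeasureTheory ProbabilityTheory Filter Topology Set

namespace Pool.Agent.Helper97.IW

set_option linter.unusedSectionVars false

variable {d : ℕ}

lemma lintegral_nat_eq {Ω : Type*} [MeasurableSpace Ω] (μ : Measure Ω) {f : Ω → ℕ}
    (hf : Measurable f) : ∫⁻ ω, (f ω : ENNReal) ∂μ = ∑' j, μ {ω | j < f ω} := by
  have h1 : ∀ ω, (f ω : ENNReal) = ∑' j, {ω | j < f ω}.indicator (fun _ => (1 : ENNReal)) ω := by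
    intro ω
    rw [tsum_eq_sum (s := Finset.range (f ω))]
    · rw [Finset.sum_congr rfl (g := fun _ => (1 : ENNReal))]
      · simp
      · intro j hj
        have := Finset.mem_range.1 hj
        simp [this]
    · intro j hj
      rw [Finset.mem_range] at hj
      simp [hj]
  have hm : ∀ j, MeasurableSet {ω | j < f ω} := fun j => hf (measurableSet_Ioi)
  simp_rw [h1]
  rw [lintegral_tsum (fun j => ((measurable_const.indicator (hm j))).aemeasurable)]
  refine tsum_congr fun j => ?_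
  rw [lintegral_indicator (hm j)]
  simp

section

variable {i₀ : Fin d} {P : ℕ → PD d}

lemma integrable_fc (hP : HC i₀ P) : Integrable (fun η => (fc i₀ η : ℝ)) (PDm i₀ P) := by
  haveI := isProb_PDm hP
  refine ⟨(Measurable.of_discrete.comp measurable_fc).aestronglyMeasurable, ?_⟩
  rw [hasFiniteIntegral_iff_enorm]
  have h1 : ∀ η : Om d, ‖(fc i₀ η : ℝ)‖ₑ = (fc i₀ η : ENNReal) := fun η => by
    rw [← ofReal_norm_eq_enorm, Real.norm_natCast, ENNReal.ofReal_natCast]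
  simp_rw [h1]
  rw [lintegral_nat_eq _ measurable_fc]
  have h2 : ∀ j, PDm i₀ P {η | j < fc i₀ η} ≤
      (Pc P (DD i₀))⁻¹ * Pc P (DD i₀ ∩ NC i₀ j) := by
    intro j
    rw [PDm_apply]
    refine mul_le_mul' le_rfl (measure_mono ?_)
    rintro η ⟨h1, h2⟩
    refine ⟨h1, fun l _ hl hc => ?_⟩
    have h3 := fc_le hc
    have h4 : j < fc i₀ η := h2
    omega
  refine lt_of_le_of_lt (ENNReal.tsum_le_tsum h2) ?_
  rw [ENNReal.tsum_mul_left]
  exact ENNReal.mul_lt_top (ENNReal.inv_lt_top.2 (pos_iff_ne_zero.2 (DD_ne_zero hP)))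
    (tsum_NC_lt_top hP)

lemma cut_mem_iff {A : Set (Om d)} (hA : SS i₀ ⁻¹' A = A) (m : ℕ) :
    ∀ η : Om d, IsCut i₀ η m → (sh m η ∈ A ↔ η ∈ A) := by
  induction m using Nat.strong_induction_on with
  | _ m ih =>
    intro η hm
    have hc := fc_spec ⟨m, hm⟩
    have hle := fc_le hm
    have hSS : SS i₀ η ∈ A ↔ η ∈ A := by
      conv_rhs => rw [← hA]
      rfl
    rcases hle.eq_or_lt with heq | hlt
    · rw [← hSS]
      unfold SS
      rw [heq]
    · have h1 : IsCut i₀ (SS i₀ η) (m - fc i₀ η) := by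
        unfold SS
        rw [cut_comp hc (by omega), show fc i₀ η + (m - fc i₀ η) = m by omega]
        exact hm
      have h2 := ih (m - fc i₀ η) (by have := hc.1; omega) (SS i₀ η) h1
      rw [hSS] at h2
      rw [← h2]
      unfold SS
      rw [sh_sh, show fc i₀ η + (m - fc i₀ η) = m by omega]

lemma exists_FC {η : Om d} (h : UC i₀ η) (n : ℕ) : ∃ m, FC i₀ n m η := by
  classical
  have hex : ∃ m, IsCut i₀ η m ∧ n ≤ m := by
    obtain ⟨l, hl, hK⟩ := h (n + (xs η n i₀).toNat + 1 +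
      (Finset.range n).sup fun j => (xs η j i₀).toNat)
    refine ⟨l, hl, ?_⟩
    by_contra hln
    push Not at hln
    have h1 : (xs η l i₀).toNat ≤ (Finset.range n).sup fun j => (xs η j i₀).toNat :=
      Finset.le_sup (f := fun j => (xs η j i₀).toNat) (Finset.mem_range.2 hln)
    have h2 := Int.self_le_toNat (xs η l i₀)
    push_cast at hK
    omega
  refine ⟨Nat.find hex, (Nat.find_spec hex).1, (Nat.find_spec hex).2, fun k hk hkm hc => ?_⟩
  exact Nat.find_min hex hkm ⟨hc, hk⟩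

lemma ae_D_UC (hP : HC i₀ P) : ∀ᵐ η ∂(Pc P), η ∈ DD i₀ → UC i₀ η := by
  have h1 : ∀ᵐ η ∂(Pc P), η ∈ DD i₀ → ∀ k, ∃ m, IsCut i₀ ((SS i₀)^[k] η) m :=
    (ae_PDm_iff measurableSet_iter).1 (ae_PDm_iter hP)
  filter_upwards [h1] with η hη hD
  exact UC_of_iter (hη hD)

lemma inv_indep (hP : HC i₀ P) {A : Set (Om d)} (hA : MeasurableSet A)
    (hinv : SS i₀ ⁻¹' A = A) {n : ℕ} {B : Set (Om d)} (hB : MeasurableSet B) (dB : DLT n B) :
    Pc P (DD i₀ ∩ B ∩ A) * Pc P (DD i₀) = Pc P (DD i₀ ∩ A) * Pc P (DD i₀ ∩ B) := by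
  have h1 : Pc P (DD i₀ ∩ B ∩ A) =
      (∑' m, Pc P (Dm i₀ m ∩ B ∩ EE i₀ n m)) * Pc P (DD i₀ ∩ A) := by
    rw [← decomp_D hB dB hA]
    apply measure_congr
    filter_upwards [ae_D_UC hP] with η hη
    apply propext
    show (η ∈ DD i₀ ∩ B ∩ A) ↔ (η ∈ DD i₀ ∩ B ∩ {η | ∃ m, FC i₀ n m η ∧ sh m η ∈ A})
    simp only [mem_inter_iff, mem_setOf_eq]
    constructor
    · rintro ⟨⟨h1, h2⟩, h3⟩
      obtain ⟨m, hm⟩ := exists_FC (hη h1) n
      exact ⟨⟨h1, h2⟩, m, hm, (cut_mem_iff hinv m η hm.1).2 h3⟩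
    · rintro ⟨⟨h1, h2⟩, m, hm, h3⟩
      exact ⟨⟨h1, h2⟩, (cut_mem_iff hinv m η hm.1).1 h3⟩
  have h2 : Pc P (DD i₀ ∩ B) =
      (∑' m, Pc P (Dm i₀ m ∩ B ∩ EE i₀ n m)) * Pc P (DD i₀) := by
    have h3 := decomp_D (P := P) (i₀ := i₀) hB dB MeasurableSet.univ
    rw [Set.inter_univ] at h3
    rw [← h3]
    apply measure_congr
    filter_upwards [ae_D_UC hP] with η hη
    apply propext
    show (η ∈ DD i₀ ∩ B) ↔ (η ∈ DD i₀ ∩ B ∩ {η | ∃ m, FC i₀ n m η ∧ sh m η ∈ Set.univ})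
    simp only [mem_inter_iff, mem_setOf_eq, mem_univ, and_true]
    constructor
    · rintro ⟨h1, h2⟩
      exact ⟨⟨h1, h2⟩, exists_FC (hη h1) n⟩
    · rintro ⟨h1, _⟩; exact h1
  rw [h1, h2]
  ring

lemma DLT_cylinder {s : Finset Ix} {S : Set ((i : s) → Instr d)} :
    ∃ n, DLT n (cylinder s S : Set (Om d)) := by
  refine ⟨s.sup (fun i => i.1) + 1, fun η η' h => ?_⟩
  simp only [mem_cylinder, eq_iff_iff]
  have : s.restrict η = s.restrict η' := by
    funext i
    have h1 : i.1.1 ≤ s.sup (fun i => i.1) := Finset.le_sup (f := fun i : Ix => i.1) i.2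
    exact h i.1 (by omega)
  rw [this]

lemma inv_indep_all (hP : HC i₀ P) {A : Set (Om d)} (hA : MeasurableSet A)
    (hinv : SS i₀ ⁻¹' A = A) {B : Set (Om d)} (hB : MeasurableSet B) :
    Pc P (DD i₀ ∩ B ∩ A) * Pc P (DD i₀) = Pc P (DD i₀ ∩ A) * Pc P (DD i₀ ∩ B) := by
  have hfin1 : IsFiniteMeasure (Pc P (DD i₀) • (Pc P).restrict (DD i₀ ∩ A)) :=
    ⟨by
      rw [Measure.smul_apply, smul_eq_mul]
      exact ENNReal.mul_lt_top (measure_lt_top _ _) (measure_lt_top _ _)⟩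
  have heq : Pc P (DD i₀) • (Pc P).restrict (DD i₀ ∩ A) =
      Pc P (DD i₀ ∩ A) • (Pc P).restrict (DD i₀) := by
    refine ext_of_generate_finite (measurableCylinders fun _ : Ix => Instr d)
      generateFrom_measurableCylinders.symm isPiSystem_measurableCylinders ?_ ?_
    · intro C hC
      obtain ⟨s, S, hS, rfl⟩ := (mem_measurableCylinders C).1 hC
      have hm : MeasurableSet (cylinder s S : Set (Om d)) := hS.cylinder
      obtain ⟨n, hn⟩ := DLT_cylinder (d := d) (s := s) (S := S)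
      rw [Measure.smul_apply, Measure.smul_apply, smul_eq_mul, smul_eq_mul,
        Measure.restrict_apply hm, Measure.restrict_apply hm]
      have := inv_indep hP hA hinv hm hn
      rw [show (cylinder s S : Set (Om d)) ∩ (DD i₀ ∩ A) = DD i₀ ∩ cylinder s S ∩ A by
          ext; simp; tauto, Set.inter_comm (cylinder s S) (DD i₀), mul_comm, this]
    · rw [Measure.smul_apply, Measure.smul_apply, smul_eq_mul, smul_eq_mul,
        Measure.restrict_apply_univ, Measure.restrict_apply_univ, mul_comm]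
  have h1 : (Pc P (DD i₀) • (Pc P).restrict (DD i₀ ∩ A)) B =
      (Pc P (DD i₀ ∩ A) • (Pc P).restrict (DD i₀)) B := by rw [heq]
  rw [Measure.smul_apply, Measure.smul_apply, smul_eq_mul, smul_eq_mul,
        Measure.restrict_apply hB, Measure.restrict_apply hB] at h1
  rw [show B ∩ (DD i₀ ∩ A) = DD i₀ ∩ B ∩ A by ext; simp; tauto,
    Set.inter_comm B (DD i₀), mul_comm] at h1
  exact h1

theorem trivInv_SS (hP : HC i₀ P) : TrivInv (SS i₀) (PDm i₀ P) := by
  haveI := isProb_PDm hP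
  intro A hA hinv
  have h1 := inv_indep_all hP hA hinv hA
  have hD0 := DD_ne_zero hP
  have e1 : DD i₀ ∩ A ∩ A = DD i₀ ∩ A := by
    rw [Set.inter_assoc, Set.inter_self]
  rw [e1] at h1
  by_cases h0 : Pc P (DD i₀ ∩ A) = 0
  · left
    rw [PDm_apply, h0, mul_zero]
  · right
    have h2 : Pc P (DD i₀) = Pc P (DD i₀ ∩ A) :=
      (ENNReal.mul_right_inj h0 (measure_ne_top _ _)).1 h1
    rw [prob_compl_eq_zero_iff hA, PDm_apply, ← h2]
    exact ENNReal.inv_mul_cancel hD0 (measure_ne_top _ _)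

end

end Pool.Agent.Helper97.IW
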