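import Mathlib
import Pool.Agent.Helper97.IterWalk.Erg
import Pool.Agent.Helper97.IterWalk.Anal

open MeasureTheory ProbabilityTheory Filter Topology Set

namespace Pool.Agent.Helper97.IW

set_option linter.unusedSectionVars false

variable {d : ℕ}

/-- The limiting walk. -/
noncomputable def Yc (η : Om d) : ℕ → Pt d := Wk none η 1 (alInf none η)

/-- The limiting walk in the system with the additional direction. -/
noncomputable def Yg (i₀ : Fin d) (η : Om d) : ℕ → Pt d :=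
  Wk (some (i₀, false)) η 1 (alInf (some (i₀, false)) η)

/-- Number of the first `g` positions in the first block. -/
noncomputable def Ng (i₀ : Fin d) (g : ℕ) (ζ : Om d) : ℕ :=
  ∑ m ∈ Finset.range g, if Yg i₀ ζ m i₀ < xs ζ (fc i₀ ζ) i₀ then 1 else 0

lemma Ng_mono (i₀ : Fin d) (ζ : Om d) : Monotone fun g => Ng i₀ g ζ := by
  refine monotone_nat_of_le_succ fun g => ?_
  unfold Ng
  rw [Finset.sum_range_succ]
  exact Nat.le_add_right _ _

lemma Ng_le (i₀ : Fin d) (g : ℕ) (ζ : Om d) : Ng i₀ g ζ ≤ g := by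
  unfold Ng
  calc _ ≤ ∑ m ∈ Finset.range g, 1 := Finset.sum_le_sum fun m _ => by split_ifs <;> omega
    _ = g := by simp

lemma Yg_le (i₀ : Fin d) (ζ : Om d) (m : ℕ) : Yg i₀ ζ m i₀ ≤ m := by
  induction m with
  | zero => show (0 : Pt d) i₀ ≤ _; simp
  | succ m ih =>
    have h : Yg i₀ ζ (m + 1) = if pos (some (i₀, false)) (Is ζ 1 (alInf (some (i₀, false)) ζ)) m = 0
        ∧ some (ins (some (i₀, false)) (Is ζ 1 (alInf (some (i₀, false)) ζ)) m) =
          some (i₀, false) then 0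
        else Yg i₀ ζ m + vec (ins (some (i₀, false)) (Is ζ 1 (alInf (some (i₀, false)) ζ)) m) :=
      pos_succ _ _ _
    rw [h]
    split_ifs
    · simp only [Pi.zero_apply]; positivity
    · simp only [Pi.add_apply]
      have := vec_apply_le (ins (some (i₀, false)) (Is ζ 1 (alInf (some (i₀, false)) ζ)) m) i₀
      push_cast
      omega

lemma block_sum {cz : ℕ → ℤ} (hcz : Monotone cz) (y : ℤ) (k : ℕ) :
    (if y < cz 0 then 1 else 0) + ∑ j ∈ Finset.range k, (if cz j ≤ y ∧ y < cz (j + 1) then 1 else 0)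
      = (if y < cz k then 1 else 0 : ℕ) := by
  induction k with
  | zero => simp
  | succ k ih =>
    rw [Finset.sum_range_succ, ← add_assoc, ih]
    have := hcz (Nat.le_succ k)
    simp only [Nat.succ_eq_add_one] at this
    split_ifs <;> omega

section

variable {i₀ : Fin d} {P : ℕ → PD d} {η : Om d}

/-- The pathwise good event. -/
structure Gd (i₀ : Fin d) (P : ℕ → PD d) (η : Om d) : Prop extends GG i₀ P η where
  cuts : ∀ k, ∃ m, IsCut i₀ ((SS i₀)^[k] η) m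

/-- The cut times, starting from the first one. -/
noncomputable def sg (i₀ : Fin d) (η : Om d) (k : ℕ) : ℕ := sk i₀ η (k + 1)

/-- The levels of the cuts. -/
noncomputable def cz (i₀ : Fin d) (η : Om d) (k : ℕ) : ℤ := xs η (sg i₀ η k) i₀

/-- Hitting time of the `k`-th cut. -/
noncomputable def tau (i₀ : Fin d) (η : Om d) (k : ℕ) : ℕ := sInf {n | cz i₀ η k ≤ Yc η n i₀}

lemma sg_cut (h : Gd i₀ P η) (k : ℕ) : IsCut i₀ η (sg i₀ η k) := (cut_sk h.cuts k).1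

lemma iter_eq (η : Om d) (k : ℕ) : (SS i₀)^[k + 1] η = sh (sg i₀ η k) η := SS_iterate η (k + 1)

lemma sg_succ (η : Om d) (k : ℕ) : sg i₀ η (k + 1) = sg i₀ η k + fc i₀ ((SS i₀)^[k + 1] η) := rfl

lemma sg_lt (h : Gd i₀ P η) (k : ℕ) : sg i₀ η k < sg i₀ η (k + 1) := by
  rw [sg_succ]
  have := (fc_spec (h.cuts (k + 1))).1
  omega

lemma cz_lt (h : Gd i₀ P η) (k : ℕ) : cz i₀ η k < cz i₀ η (k + 1) :=
  (sg_cut h (k + 1)).2.1 _ (sg_lt h k)

lemma cz_strictMono (h : Gd i₀ P η) : StrictMono (cz i₀ η) :=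
  strictMono_nat_of_lt_succ (cz_lt h)

lemma cz_diff (h : Gd i₀ P η) (j l : ℕ) : (l : ℤ) ≤ cz i₀ η (j + l) - cz i₀ η j := by
  induction l with
  | zero => simp
  | succ l ih =>
    have := cz_lt h (j + l)
    rw [← add_assoc]
    push_cast
    omega

lemma restr_k (h : Gd i₀ P η) (k : ℕ) :
    Restr i₀ η (sg i₀ η k) (alInf none η) (alInf (some (i₀, false)) (sh (sg i₀ η k) η)) := by
  refine restr_inf h.legal (sg_cut h k) fun i N => ?_
  obtain ⟨M, hM⟩ := eventually_atTop.1 ((h.right i).eventually_ge_atTop (xs η (sg i₀ η k) i₀))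
  exact ⟨max N M, le_max_left _ _, hM _ (le_max_right _ _)⟩

lemma block_count (h : Gd i₀ P η) (k T : ℕ) :
    ∑ n ∈ Finset.range T, (if cz i₀ η k ≤ Yc η n i₀ ∧ Yc η n i₀ < cz i₀ η (k + 1) then 1 else 0) =
      Ng i₀ (rc i₀ (cz i₀ η k) (Yc η) T) ((SS i₀)^[k + 1] η) := by
  have h1 := restr_sum (restr_k h k) 1 (fun v => if v i₀ < xs ((SS i₀)^[k + 1] η)
    (fc i₀ ((SS i₀)^[k + 1] η)) i₀ then (1 : ℕ) else 0) T
  have h2 : xs ((SS i₀)^[k + 1] η) (fc i₀ ((SS i₀)^[k + 1] η)) i₀ =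
      cz i₀ η (k + 1) - cz i₀ η k := by
    have e1 : cz i₀ η (k + 1) = xs η (sg i₀ η k + fc i₀ ((SS i₀)^[k + 1] η)) i₀ := rfl
    rw [e1]
    conv_lhs => rw [iter_eq (i₀ := i₀) η k]
    rw [xs_sh, iter_eq (i₀ := i₀) η k]
    rfl
  unfold Ng
  rw [h2]
  rw [h2] at h1
  have e2 : Yg i₀ ((SS i₀)^[k + 1] η) =
      Wk (some (i₀, false)) (sh (sg i₀ η k) η) 1 (alInf (some (i₀, false)) (sh (sg i₀ η k) η)) := by
    unfold Yg
    rw [iter_eq (i₀ := i₀) η k]
  rw [e2]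
  refine Eq.trans ?_ h1
  refine Finset.sum_congr rfl fun n _ => ?_
  show (if cz i₀ η k ≤ Yc η n i₀ ∧ Yc η n i₀ < cz i₀ η (k + 1) then 1 else 0) =
    if cz i₀ η k ≤ Yc η n i₀ then (if Yc η n i₀ - cz i₀ η k < cz i₀ η (k + 1) - cz i₀ η k
      then 1 else 0) else 0
  split_ifs <;> omega

lemma tau_exists (h : Gd i₀ P η) (k : ℕ) : {n | cz i₀ η k ≤ Yc η n i₀}.Nonempty :=
  (h.rightInf.eventually_ge_atTop (cz i₀ η k)).exists

lemma tau_spec (h : Gd i₀ P η) (k : ℕ) : cz i₀ η k ≤ Yc η (tau i₀ η k) i₀ :=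
  Nat.sInf_mem (tau_exists h k)

lemma tau_min {k n : ℕ} (hn : n < tau i₀ η k) : Yc η n i₀ < cz i₀ η k := by
  by_contra hcon
  push Not at hcon
  have : tau i₀ η k ≤ n := Nat.sInf_le hcon
  omega

lemma Yc_step (h : Gd i₀ P η) (n : ℕ) :
    ∃ e ∈ edg (xs η) (Yc η n), Yc η (n + 1) = Yc η n + vec e :=
  Wk_step h.legal (goodA_alInf h.legal) 1 n

lemma Yc_tau (h : Gd i₀ P η) (k : ℕ) : Yc η (tau i₀ η k) = xs η (sg i₀ η k) := by
  have hc := sg_cut h k
  have h1 := tau_spec h k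
  have hne : tau i₀ η k ≠ 0 := by
    intro h0
    rw [h0] at h1
    have h2 : Yc η 0 i₀ = (0 : Pt d) i₀ := rfl
    rw [h2] at h1
    have := cut_zero_lt hc
    unfold cz at h1
    omega
  obtain ⟨m, hm⟩ := Nat.exists_eq_succ_of_ne_zero hne
  have h2 : Yc η m i₀ < cz i₀ η k := tau_min (by omega)
  rw [hm] at h1 ⊢
  simp only [Nat.succ_eq_add_one] at h1 ⊢
  obtain ⟨e, he, he2⟩ := Yc_step h m
  have h3 : opp e ∈ edg (xs η) (Yc η (m + 1)) := by rw [he2]; exact edg_symm he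
  have h4 : Yc η (m + 1) + vec (opp e) = Yc η m := by rw [he2, add_vec_opp]
  exact (cross hc h3 h1 (by rw [h4]; exact h2)).1

lemma tau_lt (h : Gd i₀ P η) (k : ℕ) : tau i₀ η k < tau i₀ η (k + 1) := by
  by_contra hcon
  push Not at hcon
  have h1 := tau_spec h (k + 1)
  have h2 := cz_lt h k
  rcases hcon.eq_or_lt with heq | hlt
  · rw [heq, Yc_tau h k] at h1
    unfold cz at h1 h2
    omega
  · have := tau_min hlt
    omega

lemma tau_strictMono (h : Gd i₀ P η) : StrictMono (tau i₀ η) :=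
  strictMono_nat_of_lt_succ (tau_lt h)

lemma tau_decomp (h : Gd i₀ P η) (k : ℕ) :
    (∑ n ∈ Finset.range (tau i₀ η k), if Yc η n i₀ < cz i₀ η 0 then 1 else 0) +
      ∑ j ∈ Finset.range k,
        Ng i₀ (rc i₀ (cz i₀ η j) (Yc η) (tau i₀ η k)) ((SS i₀)^[j + 1] η) = tau i₀ η k := by
  have h1 : ∑ j ∈ Finset.range k,
        Ng i₀ (rc i₀ (cz i₀ η j) (Yc η) (tau i₀ η k)) ((SS i₀)^[j + 1] η) =
      ∑ n ∈ Finset.range (tau i₀ η k), ∑ j ∈ Finset.range k,
        (if cz i₀ η j ≤ Yc η n i₀ ∧ Yc η n i₀ < cz i₀ η (j + 1) then 1 else 0) := by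
    rw [Finset.sum_comm]
    exact Finset.sum_congr rfl fun j _ => (block_count h j _).symm
  rw [h1, ← Finset.sum_add_distrib]
  have h2 : ∀ n ∈ Finset.range (tau i₀ η k), ((if Yc η n i₀ < cz i₀ η 0 then 1 else 0) +
      ∑ j ∈ Finset.range k,
        (if cz i₀ η j ≤ Yc η n i₀ ∧ Yc η n i₀ < cz i₀ η (j + 1) then 1 else 0)) = 1 := by
    intro n hn
    rw [block_sum (cz_strictMono h).monotone, if_pos (tau_min (Finset.mem_range.1 hn))]
  rw [Finset.sum_congr rfl h2]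
  simp

lemma rc_tau_ge (h : Gd i₀ P η) {j g k : ℕ} (hk : j + g ≤ k) :
    g ≤ rc i₀ (cz i₀ η j) (Yc η) (tau i₀ η k) := by
  have h1 : xs η (sg i₀ η j) i₀ ≤ Wk none η 1 (alInf none η) (tau i₀ η k) i₀ := by
    have h2 := tau_spec h k
    have h3 := (cz_strictMono h).monotone (show j ≤ k by omega)
    exact h3.trans h2
  have h2 := (restr_inv (restr_k h j) 1 (tau i₀ η k)).1 h1
  have h3 := Yg_le i₀ (sh (sg i₀ η j) η) (rc i₀ (cz i₀ η j) (Yc η) (tau i₀ η k))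
  have h4 : Yg i₀ (sh (sg i₀ η j) η) (rc i₀ (cz i₀ η j) (Yc η) (tau i₀ η k)) =
      Yc η (tau i₀ η k) - xs η (sg i₀ η j) := h2
  rw [h4, Pi.sub_apply, Yc_tau h k] at h3
  obtain ⟨l, hl⟩ := Nat.exists_eq_add_of_le (show j ≤ k by omega)
  have h5 := cz_diff h j l
  rw [← hl] at h5
  unfold cz at h5
  unfold cz at h3
  have h6 : (g : ℤ) ≤ (l : ℤ) := by
    have : g ≤ l := by omega
    exact_mod_cast this
  have h7 : (g : ℤ) ≤ (rc i₀ (xs η (sg i₀ η j) i₀) (Yc η) (tau i₀ η k) : ℤ) := by omega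
  exact_mod_cast h7

lemma tau_lower (h : Gd i₀ P η) (g k : ℕ) :
    ∑ j ∈ Finset.range k, Ng i₀ g ((SS i₀)^[j + 1] η) ≤ tau i₀ η (k + g) := by
  have h1 := tau_decomp h (k + g)
  have h2 : ∑ j ∈ Finset.range k, Ng i₀ g ((SS i₀)^[j + 1] η) ≤
      ∑ j ∈ Finset.range (k + g),
        Ng i₀ (rc i₀ (cz i₀ η j) (Yc η) (tau i₀ η (k + g))) ((SS i₀)^[j + 1] η) := by
    refine le_trans (Finset.sum_le_sum fun j hj => ?_)
      (Finset.sum_le_sum_of_subset (Finset.range_subset_range.2 (Nat.le_add_right k g)))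
    exact Ng_mono i₀ _ (rc_tau_ge h (by have := Finset.mem_range.1 hj; omega))
  omega

lemma tau_upper (h : Gd i₀ P η) {B : ℕ → ℝ}
    (hB : ∀ g j, (Ng i₀ g ((SS i₀)^[j + 1] η) : ℝ) ≤ B j) :
    ∃ C : ℝ, ∀ k, (tau i₀ η k : ℝ) ≤ C + ∑ j ∈ Finset.range k, B j := by
  obtain ⟨T, hT⟩ := eventually_atTop.1 (h.rightInf.eventually_ge_atTop (cz i₀ η 0))
  refine ⟨T, fun k => ?_⟩
  have h1 := tau_decomp h k
  have h2 : (∑ n ∈ Finset.range (tau i₀ η k), if Yc η n i₀ < cz i₀ η 0 then 1 else 0) ≤ T := by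
    rw [← Finset.sum_filter, Finset.sum_const, smul_eq_mul, mul_one]
    have : ((Finset.range (tau i₀ η k)).filter fun n => Yc η n i₀ < cz i₀ η 0) ⊆
        Finset.range T := by
      intro n hn
      rw [Finset.mem_filter] at hn
      rw [Finset.mem_range]
      by_contra hcon
      have h3 := hT n (by omega)
      have h4 : Yc η n i₀ < cz i₀ η 0 := hn.2
      unfold Yc at h4
      omega
    calc _ ≤ (Finset.range T).card := Finset.card_le_card this
      _ = T := Finset.card_range T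
  have h3 : (tau i₀ η k : ℝ) = ((∑ n ∈ Finset.range (tau i₀ η k),
      if Yc η n i₀ < cz i₀ η 0 then 1 else 0 : ℕ) : ℝ) + ((∑ j ∈ Finset.range k,
        Ng i₀ (rc i₀ (cz i₀ η j) (Yc η) (tau i₀ η k)) ((SS i₀)^[j + 1] η) : ℕ) : ℝ) := by
    exact_mod_cast h1.symm
  rw [h3]
  refine add_le_add (by exact_mod_cast h2) ?_
  push_cast
  exact Finset.sum_le_sum fun j _ => hB _ j

lemma abs_vec_le (e : Dir d) (j : Fin d) : |vec e j| ≤ 1 := by
  rw [abs_le]
  exact ⟨neg_le_vec_apply e j, vec_apply_le e j⟩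

lemma step_dist {W : ℕ → Pt d} (hW : ∀ n, ∃ e, W (n + 1) = W n + vec e) (n l : ℕ) (j : Fin d) :
    |W (n + l) j - W n j| ≤ l := by
  induction l with
  | zero => simp
  | succ l ih =>
    obtain ⟨e, he⟩ := hW (n + l)
    have h1 : W (n + (l + 1)) j = W (n + l) j + vec e j := by
      rw [← add_assoc, he]; rfl
    have h2 := abs_vec_le e j
    rw [h1]
    rw [abs_le] at ih h2 ⊢
    push_cast
    constructor <;> omega

lemma Yc_near (h : Gd i₀ P η) (j : Fin d) (k n : ℕ) (h1 : tau i₀ η k ≤ n)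
    (h2 : n < tau i₀ η (k + 1)) :
    |((Yc η n j : ℤ) : ℝ) - ((xs η (sg i₀ η k) j : ℤ) : ℝ)| ≤
      (tau i₀ η (k + 1) : ℝ) - tau i₀ η k := by
  obtain ⟨l, rfl⟩ := Nat.exists_eq_add_of_le h1
  have h3 := step_dist (fun n => (Yc_step h n).imp fun e he => he.2) (tau i₀ η k) l j
  rw [Yc_tau h k] at h3
  have h4 : |((Yc η (tau i₀ η k + l) j : ℤ) : ℝ) - ((xs η (sg i₀ η k) j : ℤ) : ℝ)| ≤ (l : ℝ) := by
    exact_mod_cast h3
  have h5 : ((tau i₀ η k + l : ℕ) : ℝ) ≤ tau i₀ η (k + 1) := by exact_mod_cast h2.le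
  push_cast at h5
  linarith

lemma Yc_bound (h : Gd i₀ P η) (j : Fin d) (k n : ℕ)
    (h2 : n < tau i₀ η (k + 1)) :
    |((Yc η n j : ℤ) : ℝ)| ≤ (sg i₀ η (k + 1) : ℝ) := by
  have h3 := tau_min h2
  obtain ⟨l, hl⟩ := Wk_mem_range h.legal (goodA_alInf h.legal) 1 n
  have hl' : xs η l = Yc η n := hl
  have h4 : l < sg i₀ η (k + 1) := by
    by_contra hcon
    push Not at hcon
    have h5 := (sg_cut h (k + 1)).2.2 l hcon
    rw [← hl'] at h3
    unfold cz at h3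
    omega
  have h5 := step_dist (W := xs η) (fun n => ⟨_, rfl⟩) 0 l j
  rw [zero_add, xs_zero, Pi.zero_apply, sub_zero, hl'] at h5
  have h6 : |Yc η n j| ≤ (sg i₀ η (k + 1) : ℤ) := h5.trans (by exact_mod_cast h4.le)
  exact_mod_cast h6

end

end Pool.Agent.Helper97.IW
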