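import Mathlib
import Pool.Agent.Helper97.IterWalk.Speed

open MeasureTheory ProbabilityTheory Filter Topology Set

namespace Pool.Agent.Helper97.IW

set_option linter.unusedSectionVars false

variable {d : ℕ}

section

variable {i₀ : Fin d} {P : ℕ → PD d}

/-- The `m`-th position lies in the first block. -/
def Mk (i₀ : Fin d) (m : ℕ) : Set (Om d) := {ζ | Yg i₀ ζ m i₀ < xs ζ (fc i₀ ζ) i₀}

lemma measurableSet_Mk (m : ℕ) : MeasurableSet (Mk (d := d) i₀ m) := by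
  have h1 : Measurable fun ζ : Om d => Yg i₀ ζ m := measurable_WInf _ m
  have h2 : Measurable fun ζ : Om d => xs ζ (fc i₀ ζ) :=
    meas_select (g := fun k (η : Om d) => xs η k) measurable_fc fun k => measurable_xs k
  exact (h1.prodMk h2) (Set.to_countable {q : Pt d × Pt d | q.1 i₀ < q.2 i₀}).measurableSet

open Classical in
lemma Ng_eq (g : ℕ) (ζ : Om d) :
    (Ng i₀ g ζ : ℝ) = ∑ m ∈ Finset.range g, (Mk i₀ m).indicator (fun _ => (1 : ℝ)) ζ := by
  unfold Ng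
  push_cast
  refine Finset.sum_congr rfl fun m _ => ?_
  by_cases h : ζ ∈ Mk i₀ m
  · rw [Set.indicator_of_mem h]
    exact if_pos h
  · rw [Set.indicator_of_notMem h]
    exact if_neg h

/-- The probabilities of `Mk`. -/
noncomputable def qk (i₀ : Fin d) (P : ℕ → PD d) (m : ℕ) : ℝ := (PDm i₀ P (Mk i₀ m)).toReal

lemma qk_nonneg (m : ℕ) : 0 ≤ qk i₀ P m := ENNReal.toReal_nonneg

lemma measurable_Ng (g : ℕ) : Measurable fun ζ : Om d => (Ng i₀ g ζ : ℝ) := by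
  simp_rw [Ng_eq]
  exact Finset.measurable_sum _ fun m _ => measurable_const.indicator (measurableSet_Mk m)

lemma integrable_Ng (hP : HC i₀ P) (g : ℕ) :
    Integrable (fun ζ : Om d => (Ng i₀ g ζ : ℝ)) (PDm i₀ P) := by
  haveI := isProb_PDm hP
  simp_rw [Ng_eq]
  exact integrable_finsetSum _ fun m _ => (integrable_const _).indicator (measurableSet_Mk m)

lemma integral_Ng (hP : HC i₀ P) (g : ℕ) :
    ∫ ζ, (Ng i₀ g ζ : ℝ) ∂(PDm i₀ P) = ∑ m ∈ Finset.range g, qk i₀ P m := by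
  haveI := isProb_PDm hP
  simp_rw [Ng_eq]
  rw [integral_finsetSum _ fun m _ => (integrable_const _).indicator (measurableSet_Mk m)]
  refine Finset.sum_congr rfl fun m _ => ?_
  rw [integral_indicator (measurableSet_Mk m), setIntegral_const, smul_eq_mul, mul_one]
  rfl

lemma qk_zero (hP : HC i₀ P) : qk i₀ P 0 = 1 := by
  haveI := isProb_PDm hP
  unfold qk
  have h1 : ∀ᵐ η ∂(PDm i₀ P), η ∈ Mk i₀ 0 := by
    filter_upwards [ae_PDm_iter hP] with η hη
    have hc := fc_spec (hη 0)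
    show (0 : Pt d) i₀ < _
    exact cut_zero_lt hc
  have h2 : PDm i₀ P (Mk i₀ 0) = 1 := (mem_ae_iff_prob_eq_one (measurableSet_Mk 0)).1 h1
  rw [h2, ENNReal.toReal_one]

/-- Total number of positions in the first block. -/
noncomputable def NN (i₀ : Fin d) (ζ : Om d) : ENNReal :=
  ∑' m, (Mk i₀ m).indicator (fun _ => (1 : ENNReal)) ζ

lemma measurable_NN : Measurable (NN (d := d) i₀) := by
  unfold NN
  exact Measurable.tsum fun m => measurable_const.indicator (measurableSet_Mk m)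

open Classical in
lemma Ng_le_NN (g : ℕ) (ζ : Om d) : (Ng i₀ g ζ : ENNReal) ≤ NN i₀ ζ := by
  have h1 : (Ng i₀ g ζ : ENNReal) =
      ∑ m ∈ Finset.range g, (Mk i₀ m).indicator (fun _ => (1 : ENNReal)) ζ := by
    unfold Ng
    push_cast
    refine Finset.sum_congr rfl fun m _ => ?_
    by_cases h : ζ ∈ Mk i₀ m
    · rw [Set.indicator_of_mem h]
      exact if_pos h
    · rw [Set.indicator_of_notMem h]
      exact if_neg h
  rw [h1]
  exact ENNReal.sum_le_tsum _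

lemma lintegral_NN (hP : HC i₀ P) (hs : Summable (qk i₀ P)) :
    ∫⁻ ζ, NN i₀ ζ ∂(PDm i₀ P) = ENNReal.ofReal (∑' m, qk i₀ P m) := by
  haveI := isProb_PDm hP
  unfold NN
  rw [lintegral_tsum fun m => (measurable_const.indicator (measurableSet_Mk m)).aemeasurable]
  rw [ENNReal.ofReal_tsum_of_nonneg (fun m => qk_nonneg m) hs]
  refine tsum_congr fun m => ?_
  rw [lintegral_indicator (measurableSet_Mk m)]
  unfold qk
  rw [ENNReal.ofReal_toReal (measure_ne_top _ _)]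
  simp

lemma birkhoff_shift (f : Om d → ℝ) (k : ℕ) (η : Om d) :
    birkhoffSum (SS i₀) f k (SS i₀ η) = ∑ j ∈ Finset.range k, f ((SS i₀)^[j + 1] η) := by
  unfold birkhoffSum
  exact Finset.sum_congr rfl fun j _ => by rw [Function.iterate_succ_apply]

/-- Ergodic theorem along the cut times. -/
lemma birkhoff_canon (hP : HC i₀ P) {f : Om d → ℝ} (hfm : Measurable f)
    (hf : Integrable f (PDm i₀ P)) :
    ∀ᵐ η ∂(Pc P), Tendsto (fun k : ℕ => (k : ℝ)⁻¹ *
      ∑ j ∈ Finset.range k, f ((SS i₀)^[j + 1] η)) atTop (𝓝 (∫ ζ, f ζ ∂(PDm i₀ P))) := by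
  haveI := isProb_PDm hP
  have h1 := ae_SS' hP (birkhoff_ae (mp_SS hP) (trivInv_SS hP) hfm hf)
  filter_upwards [h1] with η hη
  simp only [birkhoff_shift] at hη
  exact hη

lemma ae_Gd (hP : HC i₀ P) : ∀ᵐ η ∂(Pc P), Gd i₀ P η := by
  filter_upwards [ae_GG hP, ae_hasCut hP, ae_SS' hP (ae_PDm_iter hP)] with η h1 h2 h3
  refine ⟨h1, fun k => ?_⟩
  cases k with
  | zero => exact h2
  | succ k => exact h3 k

lemma sg_eq (η : Om d) (k : ℕ) :
    (sg i₀ η k : ℝ) = fc i₀ η + ∑ j ∈ Finset.range k, (fc i₀ ((SS i₀)^[j + 1] η) : ℝ) := by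
  induction k with
  | zero =>
    show ((0 + fc i₀ η : ℕ) : ℝ) = _
    simp
  | succ k ih =>
    rw [sg_succ, Finset.sum_range_succ, Nat.cast_add, ih]
    ring

lemma sg_ratio {E : ℝ} {η : Om d} (h : Tendsto (fun k : ℕ => (k : ℝ)⁻¹ *
      ∑ j ∈ Finset.range k, (fc i₀ ((SS i₀)^[j + 1] η) : ℝ)) atTop (𝓝 E)) :
    Tendsto (fun k : ℕ => (sg i₀ η k : ℝ) / k) atTop (𝓝 E) := by
  have h1 : Tendsto (fun k : ℕ => (fc i₀ η : ℝ) / k + (k : ℝ)⁻¹ *
      ∑ j ∈ Finset.range k, (fc i₀ ((SS i₀)^[j + 1] η) : ℝ)) atTop (𝓝 (0 + E)) :=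
    (tendsto_const_nhds.div_atTop tendsto_natCast_atTop_atTop).add h
  rw [zero_add] at h1
  refine h1.congr fun k => ?_
  rw [sg_eq]
  ring

lemma c_ratio {η : Om d} (h : Gd i₀ P η) {E : ℝ}
    (hE : Tendsto (fun k : ℕ => (sg i₀ η k : ℝ) / k) atTop (𝓝 E)) (j : Fin d) :
    Tendsto (fun k : ℕ => ((xs η (sg i₀ η k) j : ℤ) : ℝ) / k) atTop
      (𝓝 (drift (P 0).p j * E)) := by
  have hmono : StrictMono (sg i₀ η) := strictMono_nat_of_lt_succ (sg_lt h)
  have h1 := ((h.lln j).comp hmono.tendsto_atTop).mul hE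
  refine h1.congr' ?_
  filter_upwards [eventually_gt_atTop 0] with k hk
  have e1 : (0 : ℝ) < sg i₀ η k := by
    have : k ≤ sg i₀ η k := hmono.le_apply
    have : 0 < sg i₀ η k := by omega
    exact_mod_cast this
  simp only [Function.comp]
  field_simp

theorem canon_speed (hP : HC i₀ P) : ∃ κ : ℝ, 0 ≤ κ ∧ ∀ᵐ η ∂(Pc P), ∀ j,
    Tendsto (fun n : ℕ => ((Yc η n j : ℤ) : ℝ) / n) atTop (𝓝 (κ * drift (P 0).p j)) := by
  haveI := isProb_PDm hP
  have hfc : Measurable fun ζ : Om d => (fc i₀ ζ : ℝ) :=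
    Measurable.of_discrete.comp measurable_fc
  have hB1 := birkhoff_canon hP hfc (integrable_fc hP)
  set Ef : ℝ := ∫ ζ, (fc i₀ ζ : ℝ) ∂(PDm i₀ P) with hEf
  have hB2 : ∀ᵐ η ∂(Pc P), ∀ g : ℕ, Tendsto (fun k : ℕ => (k : ℝ)⁻¹ *
      ∑ j ∈ Finset.range k, (Ng i₀ g ((SS i₀)^[j + 1] η) : ℝ)) atTop
        (𝓝 (∑ m ∈ Finset.range g, qk i₀ P m)) := by
    rw [ae_all_iff]
    intro g
    have := birkhoff_canon hP (measurable_Ng g) (integrable_Ng hP g)
    rwa [integral_Ng hP g] at this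
  by_cases hs : Summable (qk i₀ P)
  · -- finite mean
    set E : ℝ := ∑' m, qk i₀ P m with hE
    have hEpos : 0 < E := by
      have h1 : qk i₀ P 0 ≤ E := hs.le_tsum 0 fun m _ => qk_nonneg m
      rw [qk_zero hP] at h1
      linarith
    have hfin : ∫⁻ ζ, NN i₀ ζ ∂(PDm i₀ P) ≠ ⊤ := by
      rw [lintegral_NN hP hs]; exact ENNReal.ofReal_ne_top
    have hint : Integrable (fun ζ => (NN i₀ ζ).toReal) (PDm i₀ P) :=
      integrable_toReal_of_lintegral_ne_top measurable_NN.aemeasurable hfin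
    have hval : ∫ ζ, (NN i₀ ζ).toReal ∂(PDm i₀ P) = E := by
      rw [integral_toReal measurable_NN.aemeasurable (ae_lt_top measurable_NN hfin),
        lintegral_NN hP hs, ENNReal.toReal_ofReal hEpos.le]
    have hB3 := birkhoff_canon hP measurable_NN.ennreal_toReal hint
    rw [hval] at hB3
    have hB4 : ∀ᵐ η ∂(Pc P), ∀ j, NN i₀ ((SS i₀)^[j + 1] η) < ⊤ := by
      have h1 : ∀ᵐ ζ ∂(PDm i₀ P), ∀ j, NN i₀ ((SS i₀)^[j] ζ) < ⊤ := by
        rw [ae_all_iff]
        intro j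
        exact ((mp_SS hP).iterate j).quasiMeasurePreserving.ae (ae_lt_top measurable_NN hfin)
      filter_upwards [ae_SS' hP h1] with η hη j
      exact hη j
    have hEf0 : 0 ≤ Ef := integral_nonneg fun ζ => Nat.cast_nonneg _
    refine ⟨Ef / E, div_nonneg hEf0 hEpos.le, ?_⟩
    filter_upwards [ae_Gd hP, hB1, hB2, hB3, hB4] with η hG h1 h2 h3 h4 j
    have hbd : ∀ g j, (Ng i₀ g ((SS i₀)^[j + 1] η) : ℝ) ≤ (NN i₀ ((SS i₀)^[j + 1] η)).toReal := by
      intro g j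
      have h5 := Ng_le_NN (i₀ := i₀) g ((SS i₀)^[j + 1] η)
      have h6 := ENNReal.toReal_mono (h4 j).ne h5
      simpa using h6
    obtain ⟨C, hC⟩ := tau_upper hG hbd
    have hlow : ∀ g k, ∑ j ∈ Finset.range k, (Ng i₀ g ((SS i₀)^[j + 1] η) : ℝ) ≤
        (tau i₀ η (k + g) : ℝ) := by
      intro g k
      exact_mod_cast tau_lower hG g k
    have ha : Tendsto (fun g : ℕ => ∑ m ∈ Finset.range g, qk i₀ P m) atTop (𝓝 E) :=
      hs.hasSum.tendsto_sum_nat
    have hτ : Tendsto (fun k : ℕ => (tau i₀ η k : ℝ) / k) atTop (𝓝 E) :=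
      tau_A (τ := fun k => (tau i₀ η k : ℝ))
      (N := fun g j => (Ng i₀ g ((SS i₀)^[j + 1] η) : ℝ))
      (B := fun j => (NN i₀ ((SS i₀)^[j + 1] η)).toReal)
      (a := fun g : ℕ => ∑ m ∈ Finset.range g, qk i₀ P m) hlow hC h2 h3 ha
    have hc := c_ratio hG (sg_ratio h1) j
    have hn := Yc_near hG j
    rw [show Ef / E * drift (P 0).p j = drift (P 0).p j * Ef / E by ring]
    exact speed_A (τ := tau i₀ η) (c := fun k => ((xs η (sg i₀ η k) j : ℤ) : ℝ))
      (y := fun n => ((Yc η n j : ℤ) : ℝ)) (tau_strictMono hG) hEpos hτ hc hn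
  · -- infinite mean
    refine ⟨0, le_rfl, ?_⟩
    simp only [zero_mul]
    have hdiv : Tendsto (fun g : ℕ => ∑ m ∈ Finset.range g, qk i₀ P m) atTop atTop :=
      (not_summable_iff_tendsto_nat_atTop_of_nonneg fun m => qk_nonneg m).1 hs
    filter_upwards [ae_Gd hP, hB1, hB2] with η hG h1 h2 j
    have hlow : ∀ g k, ∑ j ∈ Finset.range k, (Ng i₀ g ((SS i₀)^[j + 1] η) : ℝ) ≤
        (tau i₀ η (k + g) : ℝ) := by
      intro g k
      exact_mod_cast tau_lower hG g k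
    have hτ : Tendsto (fun k : ℕ => (tau i₀ η k : ℝ) / k) atTop atTop :=
      tau_B (τ := fun k => (tau i₀ η k : ℝ))
      (N := fun g j => (Ng i₀ g ((SS i₀)^[j + 1] η) : ℝ))
      (a := fun g : ℕ => ∑ m ∈ Finset.range g, qk i₀ P m) hlow h2 hdiv
    have hr := sg_ratio h1
    have hn : ∀ k n, tau i₀ η k ≤ n → n < tau i₀ η (k + 1) →
        |((Yc η n j : ℤ) : ℝ)| ≤ (sg i₀ η (k + 1) : ℝ) :=
      fun k n _ hn => Yc_bound hG j k n hn
    exact speed_B (τ := tau i₀ η) (s := fun k => (sg i₀ η k : ℝ))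
      (y := fun n => ((Yc η n j : ℤ) : ℝ)) (tau_strictMono hG) hτ hr hn

end

end Pool.Agent.Helper97.IW
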