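import Mathlib
import Pool.Agent.Helper97.IterWalk.Meas

open MeasureTheory ProbabilityTheory Filter Topology Set

namespace Pool.Agent.Helper97.IW

set_option linter.unusedSectionVars false

variable {d : ℕ}

/-- Measures on paths are determined by the finite path probabilities. -/
lemma ext_paths {μ ν : Measure (ℕ → Pt d)} [IsFiniteMeasure μ] [IsFiniteMeasure ν]
    (h : ∀ (w : ℕ → Pt d) (n : ℕ), μ {x | ∀ k ≤ n, x k = w k} = ν {x | ∀ k ≤ n, x k = w k}) :
    μ = ν := by
  classical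
  have key : ∀ n : ℕ, ν.map (Finset.range (n + 1)).restrict = μ.map (Finset.range (n + 1)).restrict := by
    intro n
    apply Measure.ext_of_singleton
    intro f
    rw [Measure.map_apply (by fun_prop) (measurableSet_singleton f),
      Measure.map_apply (by fun_prop) (measurableSet_singleton f)]
    set w : ℕ → Pt d := fun k => if h : k ∈ Finset.range (n + 1) then f ⟨k, h⟩ else 0 with hw
    have e : ((Finset.range (n + 1)).restrict : (ℕ → Pt d) → (Finset.range (n + 1) → Pt d)) ⁻¹' {f}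
        = {x : ℕ → Pt d | ∀ k ≤ n, x k = w k} := by
      ext x
      simp only [mem_preimage, mem_singleton_iff, mem_setOf_eq]
      constructor
      · intro hx k hk
        have hk' : k ∈ Finset.range (n + 1) := Finset.mem_range.2 (by omega)
        have := congrFun hx ⟨k, hk'⟩
        rw [hw]
        simp only [hk', dif_pos]
        exact this
      · intro hx
        funext k
        have hk := Finset.mem_range.1 k.2
        have := hx k.1 (by omega)
        rw [hw] at this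
        simp only [k.2, dif_pos] at this
        exact this
    rw [e]
    exact (h w n).symm
  have hν : IsProjectiveLimit (α := fun _ : ℕ => Pt d) ν (fun I => μ.map I.restrict) := by
    intro I
    have hsub : I ⊆ Finset.range (I.sup id + 1) := by
      intro i hi
      rw [Finset.mem_range]
      have : i ≤ I.sup id := Finset.le_sup (f := id) hi
      omega
    have e1 : (I.restrict : (ℕ → Pt d) → (I → Pt d)) =
        (Finset.restrict₂ hsub) ∘ (Finset.range (I.sup id + 1)).restrict := rfl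
    rw [e1, ← Measure.map_map (by fun_prop) (by fun_prop), key,
      Measure.map_map (by fun_prop) (by fun_prop)]
    rfl
  have hμ : IsProjectiveLimit (α := fun _ : ℕ => Pt d) μ (fun I => μ.map I.restrict) := fun I => rfl
  exact hμ.unique hν

section

variable {𝓡 : Type*} [MeasurableSpace 𝓡]

/-- The finite-dimensional form of the statement that, given `R`, the process `W` is a Markov
chain started at `0` with transition probabilities `T R`. -/
structure RecP {Ω : Type*} [MeasurableSpace Ω] (μ : Measure Ω) (R : Ω → 𝓡) (W : ℕ → Ω → Pt d)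
    (T : 𝓡 → Pt d → Pt d → ENNReal) : Prop where
  mR : Measurable R
  mW : ∀ n, Measurable (W n)
  start : ∀ᵐ ω ∂μ, W 0 ω = 0
  step : ∀ (n : ℕ) (w : ℕ → Pt d) (B : Set 𝓡), MeasurableSet B → ∀ y,
    μ {ω | R ω ∈ B ∧ (∀ k ≤ n, W k ω = w k) ∧ W (n + 1) ω = y} =
      ∫⁻ ω in {ω | R ω ∈ B ∧ ∀ k ≤ n, W k ω = w k}, T (R ω) (w n) y ∂μ

lemma measurableSet_pathEv {Ω : Type*} [MeasurableSpace Ω] {W : ℕ → Ω → Pt d}
    (mW : ∀ n, Measurable (W n)) (n : ℕ) (w : ℕ → Pt d) :
    MeasurableSet {ω | ∀ k ≤ n, W k ω = w k} := by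
  simp only [setOf_forall]
  exact MeasurableSet.iInter fun k => MeasurableSet.iInter fun _ =>
    measurableSet_eq_pt (mW k) _

lemma recP_zero {Ω : Type*} [MeasurableSpace Ω] {μ : Measure Ω} {R : Ω → 𝓡} {W : ℕ → Ω → Pt d}
    {T : 𝓡 → Pt d → Pt d → ENNReal} (h : RecP μ R W T) (w : ℕ → Pt d) :
    (μ.restrict {ω | ∀ k ≤ 0, W k ω = w k}).map R = if w 0 = 0 then μ.map R else 0 := by
  by_cases hw : w 0 = 0
  · rw [if_pos hw]
    have : μ.restrict {ω | ∀ k ≤ 0, W k ω = w k} = μ := by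
      apply Measure.restrict_eq_self_of_ae_mem
      filter_upwards [h.start] with ω hω k hk
      have : k = 0 := by omega
      subst this
      rw [hω, hw]
    rw [this]
  · rw [if_neg hw]
    have e1 : μ {ω | ∀ k ≤ 0, W k ω = w k} = 0 := by
      rw [measure_eq_zero_iff_ae_notMem]
      filter_upwards [h.start] with ω hω hmem
      exact hw (by rw [← hmem 0 le_rfl, hω])
    rw [Measure.restrict_eq_zero.2 e1, Measure.map_zero]

lemma recP_succ {Ω : Type*} [MeasurableSpace Ω] {μ : Measure Ω} {R : Ω → 𝓡} {W : ℕ → Ω → Pt d}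
    {T : 𝓡 → Pt d → Pt d → ENNReal} (hT : ∀ x y, Measurable fun r => T r x y)
    (h : RecP μ R W T) (w : ℕ → Pt d) (n : ℕ) {B : Set 𝓡} (hB : MeasurableSet B) :
    ((μ.restrict {ω | ∀ k ≤ n + 1, W k ω = w k}).map R) B =
      ∫⁻ r in B, T r (w n) (w (n + 1)) ∂((μ.restrict {ω | ∀ k ≤ n, W k ω = w k}).map R) := by
  rw [Measure.map_apply h.mR hB, Measure.restrict_apply (h.mR hB),
    setLIntegral_map hB (hT _ _) h.mR, Measure.restrict_restrict (h.mR hB)]
  have e1 : R ⁻¹' B ∩ {ω | ∀ k ≤ n + 1, W k ω = w k} =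
      {ω | R ω ∈ B ∧ (∀ k ≤ n, W k ω = w k) ∧ W (n + 1) ω = w (n + 1)} := by
    ext ω
    simp only [mem_inter_iff, mem_preimage, mem_setOf_eq]
    refine and_congr_right fun _ => ?_
    constructor
    · intro h; exact ⟨fun k hk => h k (by omega), h (n + 1) le_rfl⟩
    · rintro ⟨h1, h2⟩ k hk
      rcases Nat.le_succ_iff.1 hk with h3 | h3
      · exact h1 k h3
      · rw [h3]; exact h2
  have e2 : R ⁻¹' B ∩ {ω | ∀ k ≤ n, W k ω = w k} = {ω | R ω ∈ B ∧ ∀ k ≤ n, W k ω = w k} := rfl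
  rw [e1, e2]
  exact h.step n w B hB _

lemma law_unique_aux {Ω₁ Ω₂ : Type*} [MeasurableSpace Ω₁] [MeasurableSpace Ω₂]
    {μ₁ : Measure Ω₁} {μ₂ : Measure Ω₂}
    {R₁ : Ω₁ → 𝓡} {R₂ : Ω₂ → 𝓡} {W₁ : ℕ → Ω₁ → Pt d} {W₂ : ℕ → Ω₂ → Pt d}
    {T : 𝓡 → Pt d → Pt d → ENNReal} (hT : ∀ x y, Measurable fun r => T r x y)
    (h₁ : RecP μ₁ R₁ W₁ T) (h₂ : RecP μ₂ R₂ W₂ T) (hR : μ₁.map R₁ = μ₂.map R₂)
    (w : ℕ → Pt d) (n : ℕ) :
    (μ₁.restrict {ω | ∀ k ≤ n, W₁ k ω = w k}).map R₁ =
      (μ₂.restrict {ω | ∀ k ≤ n, W₂ k ω = w k}).map R₂ := by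
  induction n with
  | zero => rw [recP_zero h₁, recP_zero h₂, hR]
  | succ n ih =>
    ext B hB
    rw [recP_succ hT h₁ w n hB, recP_succ hT h₂ w n hB, ih]

/-- Uniqueness of the joint law of `R` and `W`. -/
theorem law_unique {Ω₁ Ω₂ : Type*} [MeasurableSpace Ω₁] [MeasurableSpace Ω₂]
    {μ₁ : Measure Ω₁} {μ₂ : Measure Ω₂} [IsProbabilityMeasure μ₁] [IsProbabilityMeasure μ₂]
    {R₁ : Ω₁ → 𝓡} {R₂ : Ω₂ → 𝓡} {W₁ : ℕ → Ω₁ → Pt d} {W₂ : ℕ → Ω₂ → Pt d}
    {T : 𝓡 → Pt d → Pt d → ENNReal} (hT : ∀ x y, Measurable fun r => T r x y)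
    (h₁ : RecP μ₁ R₁ W₁ T) (h₂ : RecP μ₂ R₂ W₂ T) (hR : μ₁.map R₁ = μ₂.map R₂) :
    μ₁.map (fun ω => (R₁ ω, fun n => W₁ n ω)) = μ₂.map (fun ω => (R₂ ω, fun n => W₂ n ω)) := by
  have m1 : Measurable fun ω => (R₁ ω, fun n => W₁ n ω) :=
    h₁.mR.prodMk (measurable_pi_lambda _ h₁.mW)
  have m2 : Measurable fun ω => (R₂ ω, fun n => W₂ n ω) :=
    h₂.mR.prodMk (measurable_pi_lambda _ h₂.mW)
  have mw1 : Measurable fun ω => (fun n => W₁ n ω) := measurable_pi_lambda _ h₁.mW
  have mw2 : Measurable fun ω => (fun n => W₂ n ω) := measurable_pi_lambda _ h₂.mW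
  haveI := Measure.isProbabilityMeasure_map (μ := μ₁) m1.aemeasurable
  apply Measure.ext_prod
  intro B C hB hC
  rw [Measure.map_apply m1 (hB.prod hC), Measure.map_apply m2 (hB.prod hC)]
  -- fix `B` and compare the measures in `C`
  have hpath : (μ₁.restrict (R₁ ⁻¹' B)).map (fun ω => (fun n => W₁ n ω)) =
      (μ₂.restrict (R₂ ⁻¹' B)).map (fun ω => (fun n => W₂ n ω)) := by
    apply ext_paths
    intro w n
    have hms : MeasurableSet {x : ℕ → Pt d | ∀ k ≤ n, x k = w k} :=
      measurableSet_pathEv (W := fun k (x : ℕ → Pt d) => x k) (fun k => measurable_pi_apply k) n w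
    rw [Measure.map_apply mw1 hms, Measure.map_apply mw2 hms]
    have h3 := law_unique_aux hT h₁ h₂ hR w n
    have h4 : ((μ₁.restrict {ω | ∀ k ≤ n, W₁ k ω = w k}).map R₁) B =
      ((μ₂.restrict {ω | ∀ k ≤ n, W₂ k ω = w k}).map R₂) B := by rw [h3]
    rw [Measure.map_apply h₁.mR hB, Measure.map_apply h₂.mR hB,
      Measure.restrict_apply (h₁.mR hB), Measure.restrict_apply (h₂.mR hB)] at h4
    rw [Measure.restrict_apply (mw1 hms), Measure.restrict_apply (mw2 hms), Set.inter_comm,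
      Set.inter_comm _ (R₂ ⁻¹' B)]
    exact h4
  have h5 : ((μ₁.restrict (R₁ ⁻¹' B)).map (fun ω => (fun n => W₁ n ω))) C =
      ((μ₂.restrict (R₂ ⁻¹' B)).map (fun ω => (fun n => W₂ n ω))) C := by rw [hpath]
  rw [Measure.map_apply mw1 hC, Measure.map_apply mw2 hC, Measure.restrict_apply (mw1 hC),
    Measure.restrict_apply (mw2 hC)] at h5
  rw [Set.inter_comm, Set.inter_comm _ (R₂ ⁻¹' B)] at h5
  exact h5

end

/-! ### Measurability of the transition probabilities -/

section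

variable {Ω : Type*} [MeasurableSpace Ω]

open Classical in
lemma measurable_stepProb (p : Dir d → ℝ) {G : Ω → SimpleGraph (Pt d)}
    (hG : ∀ a b, MeasurableSet {ω | (G ω).Adj a b}) (x y : Pt d) :
    Measurable fun ω => ENNReal.ofReal (stepProb p (G ω) x y) := by
  have h1 : Measurable fun ω => degW p (G ω) x := by
    unfold degW
    exact Finset.measurable_sum _ fun e _ =>
      Measurable.ite (hG _ _) measurable_const measurable_const
  apply Measurable.ennreal_ofReal
  unfold stepProb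
  refine Finset.measurable_sum _ fun e _ => ?_
  refine Measurable.ite ((hG _ _).inter (MeasurableSet.const _)) ?_ measurable_const
  exact measurable_const.div h1

lemma measurableSet_traceAdj {x : Ω → ℕ → Pt d} (hx : ∀ n, Measurable fun ω => x ω n)
    (a b : Pt d) : MeasurableSet {ω | (traceGraph (x ω)).Adj a b} := by
  unfold traceGraph
  simp only [SimpleGraph.fromRel_adj, setOf_and, setOf_or, setOf_exists]
  exact (MeasurableSet.const _).inter ((MeasurableSet.iUnion fun n =>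
    (measurableSet_eq_pt (hx n) _).inter (measurableSet_eq_pt (hx (n + 1)) _)).union
    (MeasurableSet.iUnion fun n =>
    (measurableSet_eq_pt (hx n) _).inter (measurableSet_eq_pt (hx (n + 1)) _)))

end

end Pool.Agent.Helper97.IW
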