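import Mathlib
import Pool.Agent.Helper97.IterWalk.Law
import Pool.Agent.Helper97.IterWalk.Trans

open MeasureTheory ProbabilityTheory Filter Topology Set

namespace Pool.Agent.Helper97.IW

set_option linter.unusedSectionVars false

variable {d : ℕ}

/-- The environment as a function of the walks. -/
def envOf : ℕ → (ℕ → ℕ → Pt d) → SimpleGraph (Pt d)
  | 0, _ => lattice d
  | i + 1, r => traceGraph (r i)

/-- The walks below level `i`. -/
def Rr {Ω : Type*} (X : ℕ → ℕ → Ω → Pt d) (i : ℕ) (ω : Ω) : ℕ → ℕ → Pt d :=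
  fun j n => if j < i then X j n ω else 0

/-- Transition probabilities at level `i`. -/
noncomputable def Tl (p : ℕ → Dir d → ℝ) (i : ℕ) (r : ℕ → ℕ → Pt d) (x y : Pt d) : ENNReal :=
  ENNReal.ofReal (stepProb (p i) (envOf i r) x y)

lemma env_eq {Ω : Type*} (X : ℕ → ℕ → Ω → Pt d) (i : ℕ) (ω : Ω) :
    env X i ω = envOf i (Rr X i ω) := by
  cases i with
  | zero => rfl
  | succ i =>
    show traceGraph (fun n => X i n ω) = traceGraph (Rr X (i + 1) ω i)
    congr 1
    funext n
    simp [Rr]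

lemma env_eq' {Ω : Type*} (X : ℕ → ℕ → Ω → Pt d) (i : ℕ) (ω : Ω) :
    env X i ω = envOf i (fun j n => X j n ω) := by
  cases i <;> rfl

lemma measurableSet_envOf (i : ℕ) (a b : Pt d) :
    MeasurableSet {r : ℕ → ℕ → Pt d | (envOf i r).Adj a b} := by
  cases i with
  | zero => exact MeasurableSet.const _
  | succ i =>
    have := measurableSet_traceAdj (x := fun (r : ℕ → ℕ → Pt d) => r i)
      (fun n => by fun_prop) a b
    exact this

lemma measurable_Tl (p : ℕ → Dir d → ℝ) (i : ℕ) (x y : Pt d) :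
    Measurable fun r => Tl p i r x y :=
  measurable_stepProb (p i) (measurableSet_envOf i) x y

lemma recP_of_isWalkOn {𝓡 : Type*} [MeasurableSpace 𝓡] {Ω : Type*}
    {m : MeasurableSpace Ω} [mΩ : MeasurableSpace Ω] {μ : Measure Ω}
    {p : Dir d → ℝ} {G : Ω → SimpleGraph (Pt d)} {W : ℕ → Ω → Pt d}
    (h : IsWalkOn m μ p G W) {R : Ω → 𝓡} (mR : Measurable[mΩ] R)
    (hR : ∀ B : Set 𝓡, MeasurableSet B → MeasurableSet[m] (R ⁻¹' B))
    {T : 𝓡 → Pt d → Pt d → ENNReal}
    (hT : ∀ ω x y, T (R ω) x y = ENNReal.ofReal (stepProb p (G ω) x y)) :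
    RecP μ R W T := by
  refine ⟨mR, h.measurable, h.start, fun n w B hB y => ?_⟩
  set A : Set Ω := {ω | R ω ∈ B ∧ ∀ k ≤ n, W k ω = w k} with hA
  have hAm : MeasurableSet[m ⊔ ⨆ k : Fin (n + 1), MeasurableSpace.comap (W k) ⊤] A := by
    have e1 : A = R ⁻¹' B ∩ ⋂ k : Fin (n + 1), {ω | W k ω = w k} := by
      ext ω
      simp only [hA, mem_setOf_eq, mem_inter_iff, mem_preimage, mem_iInter]
      refine and_congr_right fun _ => ⟨fun h k => h k (by omega), fun h k hk => h ⟨k, by omega⟩⟩
    rw [e1]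
    refine MeasurableSet.inter ?_ (MeasurableSet.iInter fun k => ?_)
    · exact (le_sup_left : m ≤ m ⊔ ⨆ k : Fin (n + 1), MeasurableSpace.comap (W k) ⊤) _ (hR B hB)
    · have h1 : MeasurableSpace.comap (W k) ⊤ ≤
          m ⊔ ⨆ k : Fin (n + 1), MeasurableSpace.comap (W k) ⊤ :=
        (le_iSup (fun k : Fin (n + 1) => MeasurableSpace.comap (W k) ⊤) k).trans le_sup_right
      exact h1 _ ⟨{w k}, trivial, rfl⟩
  have h1 := h.step n y A hAm
  have e2 : {ω | R ω ∈ B ∧ (∀ k ≤ n, W k ω = w k) ∧ W (n + 1) ω = y} =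
      A ∩ {ω | W (n + 1) ω = y} := by
    ext ω
    simp only [hA, mem_setOf_eq, mem_inter_iff]
    tauto
  rw [e2, h1]
  have hAm' : MeasurableSet A := by
    have : A = R ⁻¹' B ∩ {ω | ∀ k ≤ n, W k ω = w k} := rfl
    rw [this]
    exact (mR hB).inter (measurableSet_pathEv h.measurable n w)
  refine setLIntegral_congr_fun hAm' fun ω hω => ?_
  have h3 : W n ω = w n := hω.2 n le_rfl
  rw [hT, h3]

lemma measurable_of_comap_le {Ω : Type*} {m : MeasurableSpace Ω} {f : Ω → Pt d}
    (h : MeasurableSpace.comap f ⊤ ≤ m) : Measurable[m] f := by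
  intro s _
  exact h _ ⟨s, trivial, rfl⟩

/-- The relation of the limiting environment. -/
def Einf {Ω : Type*} (X : ℕ → ℕ → Ω → Pt d) (ω : Ω) : Pt d → Pt d → Prop :=
  fun a b => (envInf X ω).Adj a b

/-- Transition probabilities at level infinity. -/
noncomputable def TInf (p : Dir d → ℝ) (r : Pt d → Pt d → Prop) (x y : Pt d) : ENNReal :=
  ENNReal.ofReal (stepProb p (SimpleGraph.fromRel r) x y)

lemma fromRel_Einf {Ω : Type*} (X : ℕ → ℕ → Ω → Pt d) (ω : Ω) :
    SimpleGraph.fromRel (Einf X ω) = envInf X ω := by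
  ext a b
  rw [SimpleGraph.fromRel_adj]
  constructor
  · rintro ⟨_, h | h⟩
    · exact h
    · exact h.symm
  · intro h
    exact ⟨h.ne, Or.inl h⟩

lemma measurable_TInf (p : Dir d → ℝ) (x y : Pt d) :
    Measurable fun r : Pt d → Pt d → Prop => TInf p r x y := by
  refine measurable_stepProb p (fun a b => ?_) x y
  simp only [SimpleGraph.fromRel_adj, setOf_and, setOf_or]
  have h1 : ∀ a b : Pt d, MeasurableSet {r : Pt d → Pt d → Prop | r a b} := by
    intro a b
    have : Measurable fun r : Pt d → Pt d → Prop => r a b := by fun_prop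
    exact this (show MeasurableSet {q : Prop | q} from trivial)
  exact (MeasurableSet.const _).inter ((h1 a b).union (h1 b a))

section general

variable {Ω : Type*} [MeasurableSpace Ω] {μ : Measure Ω} {p : ℕ → Dir d → ℝ} {pInf : Dir d → ℝ}
  {X : ℕ → ℕ → Ω → Pt d} {Y : ℕ → Ω → Pt d}

lemma recP_X (h : IsIteratedWalk μ p pInf X Y) (i : ℕ) : RecP μ (Rr X i) (X i) (Tl p i) := by
  have mR : Measurable (Rr X i) := by
    refine measurable_pi_lambda _ fun j => measurable_pi_lambda _ fun n => ?_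
    unfold Rr
    by_cases hj : j < i
    · simp only [hj, if_true]; exact (h.walk j).measurable n
    · simp only [hj, if_false]; exact measurable_const
  refine recP_of_isWalkOn (h.walk i) mR ?_ (fun ω x y => by rw [env_eq]; rfl)
  set m : MeasurableSpace Ω := ⨆ j : Fin i, ⨆ n : ℕ, MeasurableSpace.comap (X j n) ⊤ with hm
  have hmeas : Measurable[m] (Rr X i) := by
    refine @measurable_pi_lambda _ _ _ m _ _ fun j => @measurable_pi_lambda _ _ _ m _ _ fun n => ?_
    unfold Rr
    by_cases hj : j < i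
    · simp only [hj, if_true]
      apply measurable_of_comap_le
      exact (le_iSup (fun n : ℕ => MeasurableSpace.comap (X j n) ⊤) n).trans
        (le_iSup (fun j : Fin i => ⨆ n : ℕ, MeasurableSpace.comap (X j n) ⊤) ⟨j, hj⟩)
    · simp only [hj, if_false]; exact @measurable_const _ _ _ m _
  intro B hB
  exact hmeas hB

lemma envInf_adj_iff {Ω : Type*} (X : ℕ → ℕ → Ω → Pt d) (ω : Ω) (a b : Pt d) :
    (envInf X ω).Adj a b ↔ ∀ i, (envOf i (fun j n => X j n ω)).Adj a b := by
  unfold envInf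
  rw [SimpleGraph.iInf_adj_of_nonempty]
  exact forall_congr' fun i => by rw [env_eq']

lemma measurable_envInfRel :
    Measurable fun (r : ℕ → ℕ → Pt d) (a b : Pt d) => ∀ i, (envOf i r).Adj a b := by
  refine measurable_pi_lambda _ fun a => measurable_pi_lambda _ fun b => ?_
  rw [← measurableSet_setOfPred]
  have : {r : ℕ → ℕ → Pt d | ∀ i, (envOf i r).Adj a b} =
      ⋂ i, {r : ℕ → ℕ → Pt d | (envOf i r).Adj a b} := by ext; simp
  rw [this]
  exact MeasurableSet.iInter fun i => measurableSet_envOf i a b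

lemma Einf_eq {Ω : Type*} (X : ℕ → ℕ → Ω → Pt d) (ω : Ω) :
    Einf X ω = fun a b => ∀ i, (envOf i (fun j n => X j n ω)).Adj a b := by
  funext a b
  exact propext (envInf_adj_iff X ω a b)

lemma measurable_Einf (hX : ∀ i n, Measurable (X i n)) : Measurable (Einf X) := by
  have h1 : Einf X = (fun (r : ℕ → ℕ → Pt d) (a b : Pt d) => ∀ i, (envOf i r).Adj a b) ∘
      (fun ω j n => X j n ω) := by
    funext ω
    exact Einf_eq X ω
  rw [h1]
  exact measurable_envInfRel.comp (measurable_pi_lambda _ fun j => measurable_pi_lambda _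
    fun n => hX j n)

lemma recP_Y (h : IsIteratedWalk μ p pInf X Y) : RecP μ (Einf X) Y (TInf pInf) := by
  have mX : ∀ i n, Measurable (X i n) := fun i => (h.walk i).measurable
  refine recP_of_isWalkOn h.walkInf (measurable_Einf mX) ?_
    (fun ω x y => by unfold TInf; rw [fromRel_Einf])
  set m : MeasurableSpace Ω :=
    (⨆ ab : Pt d × Pt d, MeasurableSpace.comap (fun ω => (envInf X ω).Adj ab.1 ab.2) ⊤) with hm
  have hmeas : Measurable[m] (Einf X) := by
    refine @measurable_pi_lambda _ _ _ m _ _ fun a => @measurable_pi_lambda _ _ _ m _ _ fun b => ?_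
    intro s _
    exact (le_iSup (fun ab : Pt d × Pt d =>
      MeasurableSpace.comap (fun ω => (envInf X ω).Adj ab.1 ab.2) ⊤) (a, b)) _ ⟨s, trivial, rfl⟩
  intro B hB
  exact hmeas hB

end general

end Pool.Agent.Helper97.IW
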