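import Mathlib
import Pool.Agent.Helper97.IterWalk.Law2
import Pool.Agent.Helper97.IterWalk.CanonSpeed

open MeasureTheory ProbabilityTheory Filter Topology Set

namespace Pool.Agent.Helper97.IW

set_option linter.unusedSectionVars false

variable {d : ℕ}

local instance : MeasurableSpace (Finset (Dir d)) := ⊤

/-- Transition probabilities in terms of the allowed set. -/
noncomputable def stepA (p : Dir d → ℝ) (S : Finset (Dir d)) (x y : Pt d) : ENNReal :=
  ENNReal.ofReal (∑ e, if y = x + vec e then qq p S e else 0)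

lemma stepA_vec (p : Dir d → ℝ) (S : Finset (Dir d)) (x : Pt d) (e : Dir d) :
    stepA p S x (x + vec e) = ENNReal.ofReal (qq p S e) := by
  unfold stepA
  rw [Finset.sum_eq_single e]
  · simp
  · intro b _ hb
    rw [if_neg]
    intro h
    exact hb (vec_injective (add_left_cancel h)).symm
  · simp

lemma stepA_other (p : Dir d → ℝ) (S : Finset (Dir d)) {x y : Pt d} (h : ∀ e, y ≠ x + vec e) :
    stepA p S x y = 0 := by
  unfold stepA
  rw [Finset.sum_eq_zero, ENNReal.ofReal_zero]
  intro e _
  rw [if_neg (h e)]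

section

variable {P : ℕ → PD d} {a : ℕ} {f : Pt d → ℕ} {A : Pt d → Finset (Dir d)}

lemma quenched_y (hA : ∀ v e, e ∈ A v → opp e ∈ A (v + vec e)) (h0 : (A 0).Nonempty)
    (hf : ∀ v v', (A v).Nonempty → (A v').Nonempty → f v = f v' → v = v')
    (w : ℕ → Pt d) (n : ℕ) (y : Pt d) :
    Pc P {η | (∀ k ≤ n, pos none (JJ a f A η) k = w k) ∧ pos none (JJ a f A η) (n + 1) = y} =
      Pc P {η | ∀ k ≤ n, pos none (JJ a f A η) k = w k} * stepA (P a).p (A (w n)) (w n) y := by
  by_cases hy : ∃ e, y = w n + vec e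
  · obtain ⟨e, rfl⟩ := hy
    rw [stepA_vec, ← quenched_ins hA h0 hf]
    congr 1
    ext η
    simp only [mem_setOf_eq]
    refine and_congr_right fun h => ?_
    rw [pos_succ_none, h n le_rfl]
    constructor
    · intro h2; exact vec_injective (add_left_cancel h2)
    · intro h2; rw [h2]
  · push Not at hy
    rw [stepA_other _ _ hy, mul_zero]
    refine measure_mono_null ?_ (measure_empty (μ := Pc P))
    rintro η ⟨h1, h2⟩
    rw [pos_succ_none, h1 n le_rfl] at h2
    exact hy _ h2.symm

lemma quenched_null (hA : ∀ v e, e ∈ A v → opp e ∈ A (v + vec e)) (h0 : (A 0).Nonempty)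
    (w : ℕ → Pt d) (n : ℕ) (hw : ¬ (A (w n)).Nonempty) :
    Pc P {η | ∀ k ≤ n, pos none (JJ a f A η) k = w k} = 0 := by
  have h1 := ae_pos_facts (P := P) (a := a) (f := f) hA h0
  rw [ae_iff] at h1
  refine measure_mono_null ?_ h1
  intro η hη
  simp only [mem_setOf_eq] at hη ⊢
  push Not
  refine ⟨n, ?_⟩
  rw [hη n le_rfl]
  exact Finset.not_nonempty_iff_eq_empty.1 hw

end

theorem recP_canon_level {P : ℕ → PD d} {a : ℕ} (ha : 1 ≤ a)
    {A : Om d → Pt d → Finset (Dir d)} (hmeas : ∀ v, Measurable fun η => A η v)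
    (hdep : ∀ η η' : Om d, (∀ i : Ix, i.2.1 ≠ a → η i = η' i) → A η = A η')
    (hgood : ∀ᵐ η ∂(Pc P), GoodA η (A η))
    {𝓡 : Type*} [MeasurableSpace 𝓡] {R : Om d → 𝓡} (mR : Measurable R)
    (hdepR : ∀ η η' : Om d, (∀ i : Ix, i.2.1 ≠ a → η i = η' i) → R η = R η')
    {T : 𝓡 → Pt d → Pt d → ENNReal} (hT : ∀ x y, Measurable fun r => T r x y)
    (hTeq : ∀ᵐ η ∂(Pc P), ∀ x y, (A η x).Nonempty →
      T (R η) x y = stepA (P a).p (A η x) x y) :
    RecP (Pc P) R (fun n η => Wk none η a (A η) n) T := by
  classical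
  have mW : ∀ n, Measurable fun η => Wk none η a (A η) n := fun n => measurable_Wk none a hmeas n
  refine ⟨mR, mW, ae_of_all _ fun η => rfl, fun n w B hB y => ?_⟩
  set Q : Ix → Prop := fun i => i.2.1 = a with hQ
  have hmp : MeasurePreserving (mixP Q) ((Pc P).prod (Pc P)) (Pc P) :=
    mp_mixP (fun i : Ix => IM (P i.2.1)) Q
  have hsame : ∀ η η' : Om d, Wk none (mixP Q (η, η')) a (A (mixP Q (η, η'))) =
      pos none (JJ a (fv η) (A η) η') := by
    intro η η'
    have e1 : A (mixP Q (η, η')) = A η := hdep _ _ fun i hi =>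
      mixP_neg (Q := Q) (i := i) hi _
    have e2 : fv (mixP Q (η, η')) = fv η := fv_congr fun i hi =>
      mixP_neg (Q := Q) (i := i) (by
        show ¬ (i.2.1 = a)
        omega) _
    unfold Wk
    congr 1
    funext v m
    show (mixP Q (η, η')) (fv (mixP Q (η, η')) v, a, m) (A (mixP Q (η, η')) v) = _
    rw [e1, e2, mixP_pos (show Q (fv η v, a, m) from rfl)]
    rfl
  have hsameR : ∀ η η' : Om d, R (mixP Q (η, η')) = R η := fun η η' => hdepR _ _ fun i hi =>
      mixP_neg (Q := Q) (i := i) hi _
  set S1 : Set (Om d) := {η | R η ∈ B ∧ (∀ k ≤ n, Wk none η a (A η) k = w k) ∧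
    Wk none η a (A η) (n + 1) = y} with hS1
  set S0 : Set (Om d) := {η | R η ∈ B ∧ ∀ k ≤ n, Wk none η a (A η) k = w k} with hS0
  have mS0 : MeasurableSet S0 := (mR hB).inter (measurableSet_pathEv mW n w)
  have mS1 : MeasurableSet S1 := by
    have : S1 = S0 ∩ {η | Wk none η a (A η) (n + 1) = y} := by
      ext η; simp only [hS1, hS0, mem_setOf_eq, mem_inter_iff]; tauto
    rw [this]
    exact mS0.inter (measurableSet_eq_pt (mW (n + 1)) y)
  -- left side
  have hL : Pc P S1 = ∫⁻ η, (if R η ∈ B then
      Pc P {η' | (∀ k ≤ n, pos none (JJ a (fv η) (A η) η') k = w k) ∧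
        pos none (JJ a (fv η) (A η) η') (n + 1) = y} else 0) ∂(Pc P) := by
    rw [← hmp.measure_preimage mS1.nullMeasurableSet, Measure.prod_apply (hmp.measurable mS1)]
    refine lintegral_congr fun η => ?_
    by_cases hR : R η ∈ B
    · rw [if_pos hR]
      congr 1
      ext η'
      simp only [mem_preimage, hS1, mem_setOf_eq, hsame, hsameR, hR, true_and]
    · rw [if_neg hR]
      refine measure_mono_null ?_ (measure_empty (μ := Pc P))
      intro η' h
      simp only [mem_preimage, hS1, mem_setOf_eq, hsame, hsameR] at h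
      exact hR h.1
  have mT : Measurable fun η => T (R η) (w n) y := (hT (w n) y).comp mR
  have hRt : ∫⁻ η in S0, T (R η) (w n) y ∂(Pc P) = ∫⁻ η, (if R η ∈ B then
      Pc P {η' | ∀ k ≤ n, pos none (JJ a (fv η) (A η) η') k = w k} * T (R η) (w n) y
        else 0) ∂(Pc P) := by
    rw [← lintegral_indicator mS0]
    have hmm : Measurable fun q : Om d × Om d =>
        S0.indicator (fun η => T (R η) (w n) y) (mixP Q q) := (mT.indicator mS0).comp hmp.measurable
    rw [← hmp.lintegral_comp (mT.indicator mS0), lintegral_prod _ hmm.aemeasurable]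
    refine lintegral_congr fun η => ?_
    have e1 : ∀ η' : Om d, S0.indicator (fun η => T (R η) (w n) y) (mixP Q (η, η')) =
        (if R η ∈ B then T (R η) (w n) y else 0) *
          {η' | ∀ k ≤ n, pos none (JJ a (fv η) (A η) η') k = w k}.indicator 1 η' := by
      intro η'
      by_cases hR : R η ∈ B
      · by_cases hp : ∀ k ≤ n, pos none (JJ a (fv η) (A η) η') k = w k
        · have hmem : mixP Q (η, η') ∈ S0 := by
            simp only [hS0, mem_setOf_eq, hsame, hsameR]
            exact ⟨hR, hp⟩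
          rw [Set.indicator_of_mem hmem, if_pos hR, Set.indicator_of_mem (by exact hp), hsameR]
          simp
        · have hmem : mixP Q (η, η') ∉ S0 := by
            simp only [hS0, mem_setOf_eq, hsame, hsameR]
            exact fun h => hp h.2
          rw [Set.indicator_of_notMem hmem, Set.indicator_of_notMem (by exact hp), mul_zero]
      · have hmem : mixP Q (η, η') ∉ S0 := by
          simp only [hS0, mem_setOf_eq, hsame, hsameR]
          exact fun h => hR h.1
        rw [Set.indicator_of_notMem hmem, if_neg hR, zero_mul]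
    simp only [e1]
    rw [lintegral_const_mul _ (measurable_one.indicator (measurableSet_path w n)),
      lintegral_indicator_one (measurableSet_path w n)]
    split_ifs
    · rw [mul_comm]
    · rw [zero_mul]
  rw [hL, hRt]
  apply lintegral_congr_ae
  filter_upwards [hgood, hTeq] with η hg hTe
  by_cases hR : R η ∈ B
  · rw [if_pos hR, if_pos hR, quenched_y hg.symm hg.ne (goodA_inj hg)]
    by_cases hne : (A η (w n)).Nonempty
    · rw [hTe _ _ hne]
    · rw [quenched_null hg.symm hg.ne w n hne, zero_mul, zero_mul]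
  · rw [if_neg hR, if_neg hR]

end Pool.Agent.Helper97.IW
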