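import Mathlib
import Pool.Agent.Helper97.IterWalk.Law3

open MeasureTheory ProbabilityTheory Filter Topology Set

namespace Pool.Agent.Helper97.IW

set_option linter.unusedSectionVars false

variable {d : ℕ}

local instance : MeasurableSpace (Finset (Dir d)) := ⊤

/-- The canonical walks. -/
noncomputable def Xc : ℕ → ℕ → Om d → Pt d
  | 0, n, η => xs η n
  | i + 1, n, η => Wk none η (i + 2) (al none η i) n

lemma measurable_Xc (i n : ℕ) : Measurable (Xc (d := d) i n) := by
  cases i with
  | zero => exact measurable_xs n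
  | succ i => exact measurable_Wal none i n

lemma traceGraph_adj_iff {W : ℕ → Pt d} (hs : ∀ n, ∃ e, W (n + 1) = W n + vec e) (a b : Pt d) :
    (traceGraph W).Adj a b ↔ ∃ e ∈ edg W a, b = a + vec e := by
  unfold traceGraph
  rw [SimpleGraph.fromRel_adj]
  constructor
  · rintro ⟨_, ⟨n, h1, h2⟩ | ⟨n, h1, h2⟩⟩
    · obtain ⟨e, he⟩ := hs n
      have hb : b = a + vec e := by rw [← h2, he, h1]
      exact ⟨e, mem_edg.2 (Or.inl ⟨n, h1, by rw [h2, hb]⟩), hb⟩
    · obtain ⟨e, he⟩ := hs n
      have ha : a = b + vec e := by rw [← h2, he, h1]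
      have hb : b = a + vec (opp e) := by rw [ha, add_vec_opp]
      exact ⟨opp e, mem_edg.2 (Or.inr ⟨n, by rw [h1, ← hb], h2⟩), hb⟩
  · rintro ⟨e, he, rfl⟩
    refine ⟨fun h => vec_ne_zero e (by simpa using h.symm), ?_⟩
    rcases mem_edg.1 he with ⟨n, h1, h2⟩ | ⟨n, h1, h2⟩
    · exact Or.inl ⟨n, h1, h2⟩
    · exact Or.inr ⟨n, h1, h2⟩

lemma Xc_step {η : Om d} (hη : Legal η) (i n : ℕ) : ∃ e, Xc i (n + 1) η = Xc i n η + vec e := by
  cases i with
  | zero => exact ⟨_, rfl⟩
  | succ i => exact ⟨_, (walk_facts hη (goodA_al hη i) _ n).2.2⟩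

lemma al_eq_edg (η : Om d) (i : ℕ) : al none η i = edg (fun n => Xc i n η) := by
  cases i with
  | zero => exact al_none_zero η
  | succ i => exact al_none_succ η i

lemma envOf_adj_iff {η : Om d} (hη : Legal η) (i : ℕ) (a b : Pt d) :
    (envOf (i + 1) (fun j n => Xc j n η)).Adj a b ↔ ∃ e ∈ al none η i a, b = a + vec e := by
  rw [al_eq_edg]
  exact traceGraph_adj_iff (W := fun n => Xc i n η) (Xc_step hη i) a b

lemma envInf_adj_iff' {η : Om d} (hη : Legal η) (a b : Pt d) :
    (envInf Xc η).Adj a b ↔ ∃ e ∈ alInf none η a, b = a + vec e := by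
  rw [envInf_adj_iff]
  constructor
  · intro h
    obtain ⟨e, _, he⟩ := (envOf_adj_iff hη 0 a b).1 (h 1)
    refine ⟨e, mem_alInf.2 fun i => ?_, he⟩
    obtain ⟨e', he', he2⟩ := (envOf_adj_iff hη i a b).1 (h (i + 1))
    have : e' = e := vec_injective (add_left_cancel (he2.symm.trans he))
    rw [← this]; exact he'
  · rintro ⟨e, he, hb⟩ i
    cases i with
    | zero => exact ⟨e, hb⟩
    | succ i => exact (envOf_adj_iff hη i a b).2 ⟨e, mem_alInf.1 he i, hb⟩

/-- Comparison of the two forms of the transition probabilities. -/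
lemma stepProb_eq {p : Dir d → ℝ} {G : SimpleGraph (Pt d)} {A : Pt d → Finset (Dir d)}
    (hG : ∀ a b, G.Adj a b ↔ ∃ e ∈ A a, b = a + vec e) {x : Pt d} (hx : (A x).Nonempty)
    (y : Pt d) : ENNReal.ofReal (stepProb p G x y) = stepA p (A x) x y := by
  classical
  have h1 : ∀ e, G.Adj x (x + vec e) ↔ e ∈ A x := by
    intro e
    rw [hG]
    constructor
    · rintro ⟨e', he', h⟩
      rw [vec_injective (add_left_cancel h)]; exact he'
    · intro h; exact ⟨e, h, rfl⟩
  have h2 : degW p G x = ∑ e ∈ A x, p e := by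
    unfold degW
    simp only [h1]
    rw [Finset.sum_ite_mem, Finset.univ_inter]
  unfold stepA stepProb
  congr 1
  refine Finset.sum_congr rfl fun e _ => ?_
  by_cases hy : y = x + vec e
  · subst hy
    simp only [h1, and_true, if_true]
    unfold qq
    rw [ful_of_nonempty hx, h2]
  · simp only [hy, and_false, if_false]

lemma lattice_adj_iff (a b : Pt d) :
    (lattice d).Adj a b ↔ ∃ e ∈ (fun _ : Pt d => (Finset.univ : Finset (Dir d))) a,
      b = a + vec e := by
  simp [lattice]

section canon

variable {P : ℕ → PD d} {p : ℕ → Dir d → ℝ} {pInf : Dir d → ℝ}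

lemma Rr_Xc_measurable (i : ℕ) : Measurable (Rr (Xc (d := d)) i) := by
  refine measurable_pi_lambda _ fun j => measurable_pi_lambda _ fun n => ?_
  unfold Rr
  by_cases hj : j < i
  · simp only [hj, if_true]; exact measurable_Xc j n
  · simp only [hj, if_false]; exact measurable_const

lemma recP_canon_zero (h0 : (P 0).p = p 0) : RecP (Pc P) (Rr Xc 0) (Xc 0) (Tl p 0) := by
  haveI := (P 0).nonempty
  have hR : ∀ η : Om d, Rr Xc 0 η = fun _ _ => 0 := by
    intro η; funext j n; simp [Rr]
  have hT : ∀ r x y, Tl p 0 r x y = stepA (p 0) Finset.univ x y := fun r x y =>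
    stepProb_eq (A := fun _ => Finset.univ) lattice_adj_iff Finset.univ_nonempty y
  refine ⟨Rr_Xc_measurable 0, measurable_Xc 0, ae_of_all _ fun η => rfl, fun n w B hB y => ?_⟩
  simp only [hR, hT]
  by_cases hr : (fun _ _ => 0 : ℕ → ℕ → Pt d) ∈ B
  · simp only [hr, true_and]
    rw [setLIntegral_const]
    have hind : ∀ e, Pc P {η | (∀ k ≤ n, Xc 0 k η = w k) ∧ η (n, 0, 0) Finset.univ = e} =
        Pc P {η | ∀ k ≤ n, Xc 0 k η = w k} * ENNReal.ofReal (qq (p 0) Finset.univ e) := by
      intro e
      have hm2 : MeasurableSet {η : Om d | η (n, 0, 0) Finset.univ = e} := by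
        have : Measurable fun η : Om d => η (n, 0, 0) Finset.univ := by fun_prop
        exact this (measurableSet_singleton e)
      have hd1 : DepOn (fun i : Ix => ¬ (i = (n, 0, 0)))
          (· ∈ {η : Om d | ∀ k ≤ n, Xc 0 k η = w k}) := by
        intro η η' h
        simp only [mem_setOf_eq, eq_iff_iff]
        refine forall_congr' fun k => forall_congr' fun hk => ?_
        have : Xc 0 k η = Xc 0 k η' := by
          show xs η k = xs η' k
          induction k with
          | zero => rfl
          | succ k ih =>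
            rw [xs_succ, xs_succ, ih (by omega), h (k, 0, 0) (by
              intro h; have := congrArg Prod.fst h; simp only at this; omega)]
        rw [this]
      have hd2 : DepOn (fun i : Ix => i = (n, 0, 0))
          (· ∈ {η : Om d | η (n, 0, 0) Finset.univ = e}) := by
        intro η η' h
        simp only [mem_setOf_eq, h (n, 0, 0) rfl]
      have := indep_mixP (fun i : Ix => IM (P i.2.1)) (fun i => i = (n, 0, 0))
        (measurableSet_pathEv (measurable_Xc 0) n w) hm2 hd1 hd2
      rw [← h0]
      show Pc P ({η | ∀ k ≤ n, Xc 0 k η = w k} ∩ {η | η (n, 0, 0) Finset.univ = e}) = _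
      rw [show Pc P = Measure.infinitePi (fun i : Ix => IM (P i.2.1)) from rfl, this]
      congr 1
      exact Pc_eval P (n, 0, 0) Finset.univ e
    rw [mul_comm]
    by_cases hy : ∃ e, y = w n + vec e
    · obtain ⟨e, rfl⟩ := hy
      rw [stepA_vec, ← hind]
      congr 1
      ext η
      simp only [mem_setOf_eq]
      refine and_congr_right fun h => ?_
      have h1 : Xc 0 (n + 1) η = Xc 0 n η + vec (η (n, 0, 0) Finset.univ) := rfl
      rw [h1, h n le_rfl]
      exact ⟨fun h2 => vec_injective (add_left_cancel h2), fun h2 => by rw [h2]⟩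
    · push Not at hy
      rw [stepA_other _ _ hy, mul_zero]
      refine measure_mono_null ?_ (measure_empty (μ := Pc P))
      rintro η ⟨h1, h2⟩
      have h3 : Xc 0 (n + 1) η = Xc 0 n η + vec (η (n, 0, 0) Finset.univ) := rfl
      rw [h3, h1 n le_rfl] at h2
      exact hy _ h2.symm
  · simp only [hr, false_and]
    simp

lemma Xc_congr {η η' : Om d} (i : ℕ)
    (h : ∀ idx : Ix, idx.2.1 ≠ 1 → idx.2.1 < i + 2 → η idx = η' idx) (n : ℕ) :
    Xc i n η = Xc i n η' := by
  cases i with
  | zero =>
    show xs η n = xs η' n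
    rw [xs_congr fun idx h0 => h idx (by omega) (by omega)]
  | succ i =>
    show Wk none η (i + 2) (al none η i) n = Wk none η' (i + 2) (al none η' i) n
    rw [al_congr none i fun idx h1 h2 => h idx h1 (by omega),
      Wk_congr (fun idx h0 => h idx (by omega) (by omega))
      (fun idx h0 => h idx (by omega) (by omega))]

lemma recP_canon_succ (i : ℕ) (hi : (P (i + 2)).p = p (i + 1)) :
    RecP (Pc P) (Rr Xc (i + 1)) (Xc (i + 1)) (Tl p (i + 1)) := by
  have h := recP_canon_level (P := P) (a := i + 2) (by omega)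
    (fun v => measurable_al none i v)
    (fun η η' h => al_congr none i fun idx h1 h2 => h idx (by omega))
    (by filter_upwards [ae_legal P] with η hη; exact goodA_al hη i)
    (Rr_Xc_measurable (i + 1))
    (fun η η' h => by
      funext j n
      unfold Rr
      split_ifs with hj
      · exact Xc_congr j (fun idx _ h2 => h idx (by omega)) n
      · rfl)
    (measurable_Tl p (i + 1))
    (by
      filter_upwards [ae_legal P] with η hη x y hx
      unfold Tl
      rw [hi]
      refine stepProb_eq (fun a b => ?_) hx y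
      have e1 : envOf (i + 1) (Rr Xc (i + 1) η) = envOf (i + 1) (fun j n => Xc j n η) := by
        rw [← env_eq, env_eq']
      rw [e1]
      exact envOf_adj_iff hη i a b)
  exact h

lemma recP_canon_inf (hi : (P 1).p = pInf) : RecP (Pc P) (Einf Xc) (fun n η => Yc η n)
    (TInf pInf) := by
  have h := recP_canon_level (P := P) (a := 1) le_rfl
    (fun v => measurable_alInf none v)
    (fun η η' h => alInf_congr none h)
    (by filter_upwards [ae_legal P] with η hη; exact goodA_alInf hη)
    (measurable_Einf measurable_Xc)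
    (fun η η' h => by
      rw [Einf_eq, Einf_eq]
      have : (fun j n => Xc j n η) = fun j n => Xc j n η' := by
        funext j n
        exact Xc_congr j (fun idx h1 _ => h idx h1) n
      rw [this])
    (measurable_TInf pInf)
    (by
      filter_upwards [ae_legal P] with η hη x y hx
      unfold TInf
      rw [hi, fromRel_Einf]
      exact stepProb_eq (envInf_adj_iff' hη) hx y)
  exact h

end canon

section transfer

variable {Ω : Type*} [MeasurableSpace Ω] {μ : Measure Ω} [IsProbabilityMeasure μ]
  {p : ℕ → Dir d → ℝ} {pInf : Dir d → ℝ}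
  {X : ℕ → ℕ → Ω → Pt d} {Y : ℕ → Ω → Pt d} {P : ℕ → PD d}

/-- Insert a path at level `i`. -/
def upd (i : ℕ) (q : (ℕ → ℕ → Pt d) × (ℕ → Pt d)) : ℕ → ℕ → Pt d :=
  fun j n => if j = i then q.2 n else q.1 j n

lemma measurable_upd (i : ℕ) : Measurable (upd (d := d) i) := by
  refine measurable_pi_lambda _ fun j => measurable_pi_lambda _ fun n => ?_
  unfold upd
  by_cases hj : j = i
  · simp only [hj, if_true]; fun_prop
  · simp only [hj, if_false]; fun_prop

lemma Rr_succ {Ω : Type*} (X : ℕ → ℕ → Ω → Pt d) (i : ℕ) (ω : Ω) :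
    Rr X (i + 1) ω = upd i (Rr X i ω, fun n => X i n ω) := by
  funext j n
  unfold Rr upd
  by_cases hj : j = i
  · subst hj; simp
  · simp only [hj, if_false]
    by_cases h2 : j < i
    · simp [h2, show j < i + 1 by omega]
    · simp [h2, show ¬ j < i + 1 by omega]

lemma law_Rr (h : IsIteratedWalk μ p pInf X Y) (h0 : (P 0).p = p 0)
    (hi : ∀ i, (P (i + 2)).p = p (i + 1)) (i : ℕ) :
    μ.map (Rr X i) = (Pc P).map (Rr Xc i) := by
  induction i with
  | zero =>
    have e1 : Rr X 0 = fun _ : Ω => (fun _ _ => 0 : ℕ → ℕ → Pt d) := by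
      funext ω j n; simp [Rr]
    have e2 : Rr (Xc (d := d)) 0 = fun _ : Om d => (fun _ _ => 0 : ℕ → ℕ → Pt d) := by
      funext ω j n; simp [Rr]
    rw [e1, e2, Measure.map_const, Measure.map_const, measure_univ, measure_univ]
  | succ i ih =>
    have hX := recP_X h i
    have hXc : RecP (Pc P) (Rr Xc i) (Xc i) (Tl p i) := by
      cases i with
      | zero => exact recP_canon_zero h0
      | succ i => exact recP_canon_succ i (hi i)
    have hlaw := law_unique (measurable_Tl p i) hX hXc ih
    have e1 : Rr X (i + 1) = upd i ∘ fun ω => (Rr X i ω, fun n => X i n ω) := by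
      funext ω; exact Rr_succ X i ω
    have e2 : Rr (Xc (d := d)) (i + 1) = upd i ∘ fun η => (Rr Xc i η, fun n => Xc i n η) := by
      funext ω; exact Rr_succ Xc i ω
    have m1 : Measurable fun ω => (Rr X i ω, fun n => X i n ω) :=
      hX.mR.prodMk (measurable_pi_lambda _ hX.mW)
    have m2 : Measurable fun η : Om d => (Rr Xc i η, fun n => Xc i n η) :=
      hXc.mR.prodMk (measurable_pi_lambda _ hXc.mW)
    rw [e1, e2, ← Measure.map_map (measurable_upd i) m1, ← Measure.map_map (measurable_upd i) m2,
      hlaw]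

lemma law_X (h : IsIteratedWalk μ p pInf X Y) (h0 : (P 0).p = p 0)
    (hi : ∀ i, (P (i + 2)).p = p (i + 1)) :
    μ.map (fun ω j n => X j n ω) = (Pc P).map (fun η j n => Xc j n η) := by
  have m1 : Measurable fun ω j n => X j n ω :=
    measurable_pi_lambda _ fun j => measurable_pi_lambda _ fun n => (h.walk j).measurable n
  have m2 : Measurable fun (η : Om d) j n => Xc j n η :=
    measurable_pi_lambda _ fun j => measurable_pi_lambda _ fun n => measurable_Xc j n
  have hr1 : ∀ i, Measurable (Rr X i) := fun i => (recP_X h i).mR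
  have hr2 : ∀ i, Measurable (Rr (Xc (d := d)) i) := Rr_Xc_measurable
  haveI : IsProbabilityMeasure (μ.map (fun ω j n => X j n ω)) :=
    Measure.isProbabilityMeasure_map m1.aemeasurable
  have h1 : IsProjectiveLimit (α := fun _ : ℕ => (ℕ → Pt d)) (μ.map (fun ω j n => X j n ω))
      (fun I => (μ.map (fun ω j n => X j n ω)).map I.restrict) := fun I => rfl
  have h2 : IsProjectiveLimit (α := fun _ : ℕ => (ℕ → Pt d)) ((Pc P).map (fun η j n => Xc j n η))
      (fun I => (μ.map (fun ω j n => X j n ω)).map I.restrict) := by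
    intro I
    set N := I.sup id + 1 with hN
    have hsub : ∀ j ∈ I, j < N := by
      intro j hj
      have : j ≤ I.sup id := Finset.le_sup (f := id) hj
      omega
    have e2 : (I.restrict : (ℕ → ℕ → Pt d) → _) ∘
        (fun (η : Om d) j n => Xc j n η) = (I.restrict : (ℕ → ℕ → Pt d) → _) ∘ (Rr Xc N) := by
      funext ω j n
      simp [Rr, Finset.restrict, hsub j.1 j.2]
    have e3 : (I.restrict : (ℕ → ℕ → Pt d) → _) ∘
        (fun ω j n => X j n ω) = (I.restrict : (ℕ → ℕ → Pt d) → _) ∘ (Rr X N) := by
      funext ω j n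
      simp [Rr, Finset.restrict, hsub j.1 j.2]
    show Measure.map I.restrict (Measure.map (fun (η : Om d) j n => Xc j n η) (Pc P)) =
      Measure.map I.restrict (Measure.map (fun ω j n => X j n ω) μ)
    rw [Measure.map_map (by fun_prop) m2, Measure.map_map (by fun_prop) m1, e2, e3,
      ← Measure.map_map (by fun_prop) (hr2 N), ← Measure.map_map (by fun_prop) (hr1 N),
      law_Rr h h0 hi N]
  exact h1.unique h2

lemma law_Y (h : IsIteratedWalk μ p pInf X Y) (h0 : (P 0).p = p 0)
    (hi : ∀ i, (P (i + 2)).p = p (i + 1)) (hinf : (P 1).p = pInf) :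
    μ.map (fun ω n => Y n ω) = (Pc P).map (fun η n => Yc η n) := by
  have m1 : Measurable fun ω j n => X j n ω :=
    measurable_pi_lambda _ fun j => measurable_pi_lambda _ fun n => (h.walk j).measurable n
  have m2 : Measurable fun (η : Om d) j n => Xc j n η :=
    measurable_pi_lambda _ fun j => measurable_pi_lambda _ fun n => measurable_Xc j n
  have hE : μ.map (Einf X) = (Pc P).map (Einf Xc) := by
    have e1 : Einf X = (fun (r : ℕ → ℕ → Pt d) (a b : Pt d) => ∀ i, (envOf i r).Adj a b) ∘
        (fun ω j n => X j n ω) := by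
      funext ω
      exact Einf_eq X ω
    have e2 : Einf (Xc (d := d)) = (fun (r : ℕ → ℕ → Pt d) (a b : Pt d) =>
        ∀ i, (envOf i r).Adj a b) ∘ (fun η j n => Xc j n η) := by
      funext ω
      exact Einf_eq Xc ω
    rw [e1, e2, ← Measure.map_map measurable_envInfRel m1, ← Measure.map_map measurable_envInfRel m2,
      law_X h h0 hi]
  have hY := recP_Y h
  have hYc := recP_canon_inf (P := P) hinf
  have hlaw := law_unique (measurable_TInf pInf) hY hYc hE
  have n1 : Measurable fun ω => (Einf X ω, fun n => Y n ω) :=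
    hY.mR.prodMk (measurable_pi_lambda _ hY.mW)
  have n2 : Measurable fun η : Om d => (Einf Xc η, fun n => Yc η n) :=
    hYc.mR.prodMk (measurable_pi_lambda _ hYc.mW)
  have h3 := congrArg (fun ν => Measure.map Prod.snd ν) hlaw
  rw [Measure.map_map measurable_snd n1, Measure.map_map measurable_snd n2] at h3
  exact h3

end transfer

end Pool.Agent.Helper97.IW
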