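import Mathlib
import Pool.Agent.Helper97.IterWalk.Law4

open MeasureTheory ProbabilityTheory Filter Topology Set

namespace Pool.Agent.Helper97.IW

set_option linter.unusedSectionVars false

variable {d : ℕ} {i₀ : Fin d} {p : ℕ → Dir d → ℝ} {pInf : Dir d → ℝ}

/-- The distributions arranged by level. -/
def mkP (hC : CondC i₀ p pInf) : ℕ → PD d
  | 0 => ⟨p 0, hC.pos 0, hC.sum_one 0⟩
  | 1 => ⟨pInf, hC.pos_inf, hC.sum_one_inf⟩
  | k + 2 => ⟨p (k + 1), hC.pos (k + 1), hC.sum_one (k + 1)⟩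

lemma dot_of_ell {δ : Fin d → ℝ} {q : Dir d → ℝ} (h : 0 < ∑ j, δ j * ell q j) :
    0 < ∑ j, δ j * ellHat q j := by
  set s := Real.sqrt (∑ k, ellHat q k ^ 2) with hs
  have h1 : ∑ j, δ j * ell q j = (∑ j, δ j * ellHat q j) / s := by
    rw [Finset.sum_div]
    refine Finset.sum_congr rfl fun j _ => ?_
    unfold ell
    rw [mul_div_assoc]
  rw [h1] at h
  have hs0 : 0 ≤ s := Real.sqrt_nonneg _
  rcases hs0.eq_or_lt with h0 | h0
  · rw [← h0, div_zero] at h
    exact absurd h (lt_irrefl _)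
  · by_contra hcon
    push Not at hcon
    have := div_nonpos_of_nonpos_of_nonneg hcon h0.le
    linarith

lemma hc_mkP (hC : CondC i₀ p pInf) : HC i₀ (mkP hC) := by
  refine ⟨hC.drift_pos, fun a ha => ?_⟩
  match a, ha with
  | 1, _ => exact dot_of_ell hC.dot_pos_inf
  | k + 2, _ => exact dot_of_ell (hC.dot_pos (k + 1) (by omega))

theorem main_transfer (hC : CondC i₀ p pInf) : ∃ κ : ℝ, 0 ≤ κ ∧
    ∀ (Ω : Type*) [MeasurableSpace Ω] (μ : Measure Ω) [IsProbabilityMeasure μ]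
      (X : ℕ → ℕ → Ω → Pt d) (Y : ℕ → Ω → Pt d), IsIteratedWalk μ p pInf X Y →
      ∀ᵐ ω ∂μ, Tendsto (fun (n : ℕ) (j : Fin d) => ((Y n ω j : ℤ) : ℝ) / n) atTop
        (𝓝 fun j => κ * drift (p 0) j) := by
  obtain ⟨κ, hκ, hv⟩ := canon_speed (hc_mkP hC)
  refine ⟨κ, hκ, fun Ω _ μ _ X Y h => ?_⟩
  have hlaw := law_Y (P := mkP hC) h rfl (fun i => rfl) rfl
  set S : Set (ℕ → Pt d) := {x | ∀ j, Tendsto (fun n : ℕ => ((x n j : ℤ) : ℝ) / n) atTop
    (𝓝 (κ * drift (p 0) j))} with hS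
  have hSm : MeasurableSet S := by
    rw [hS]
    simp only [setOf_forall]
    refine MeasurableSet.iInter fun j => ?_
    refine measurableSet_tendsto _ fun n => ?_
    have h1 : Measurable fun x : ℕ → Pt d => ((x n j : ℤ) : ℝ) := by
      have : (fun x : ℕ → Pt d => ((x n j : ℤ) : ℝ)) =
          (fun v : Pt d => ((v j : ℤ) : ℝ)) ∘ (fun x : ℕ → Pt d => x n) := rfl
      rw [this]
      exact (measurable_of_countable _).comp (measurable_pi_apply n)
    exact h1.div_const _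
  have m1 : Measurable fun ω (n : ℕ) => Y n ω := measurable_pi_lambda _ h.walkInf.measurable
  have m2 : Measurable fun (η : Om d) (n : ℕ) => Yc η n :=
    measurable_pi_lambda _ fun n => measurable_WInf none n
  have hc : ∀ᵐ x ∂((Pc (mkP hC)).map fun (η : Om d) (n : ℕ) => Yc η n), x ∈ S :=
    (ae_map_iff m2.aemeasurable hSm).2 hv
  rw [← hlaw] at hc
  have hd : ∀ᵐ ω ∂μ, (fun n => Y n ω) ∈ S := (ae_map_iff m1.aemeasurable hSm).1 hc
  filter_upwards [hd] with ω hω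
  rw [tendsto_pi_nhds]
  exact hω

end Pool.Agent.Helper97.IW
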