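import Mathlib
import Pool.Agent.Helper97.IterWalk.Final

open MeasureTheory ProbabilityTheory Filter Topology Set

namespace Pool.Agent.Helper97.IW

set_option linter.unusedSectionVars false

variable {d : ℕ}

lemma isWalkOn_of_recP {𝓡 : Type*} [MeasurableSpace 𝓡] {Ω : Type*} {m : MeasurableSpace Ω}
    [mΩ : MeasurableSpace Ω] {μ : Measure Ω} {R : Ω → 𝓡} {W : ℕ → Ω → Pt d}
    {T : 𝓡 → Pt d → Pt d → ENNReal} (h : RecP μ R W T)
    (hm : m ≤ MeasurableSpace.comap R inferInstance)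
    {p : Dir d → ℝ} {G : Ω → SimpleGraph (Pt d)}
    (hT : ∀ ω x y, T (R ω) x y = ENNReal.ofReal (stepProb p (G ω) x y)) :
    IsWalkOn m μ p G W := by
  refine ⟨h.mW, h.start, fun n y A hA => ?_⟩
  set φ : Ω → 𝓡 × (Fin (n + 1) → Pt d) := fun ω => (R ω, fun k => W k ω) with hφ
  have hle : m ⊔ ⨆ k : Fin (n + 1), MeasurableSpace.comap (W k) ⊤ ≤
      MeasurableSpace.comap φ inferInstance := by
    refine sup_le (hm.trans ?_) (iSup_le fun k => ?_)
    · rintro s ⟨B, hB, rfl⟩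
      exact ⟨Prod.fst ⁻¹' B, measurable_fst hB, rfl⟩
    · rintro s ⟨B, _, rfl⟩
      refine ⟨(fun q : 𝓡 × (Fin (n + 1) → Pt d) => q.2 k) ⁻¹' B, ?_, rfl⟩
      have hk : Measurable fun q : 𝓡 × (Fin (n + 1) → Pt d) => q.2 k := by fun_prop
      exact hk (Set.to_countable B).measurableSet
  obtain ⟨C, hC, rfl⟩ := hle _ hA
  have mφ : Measurable[mΩ] φ := h.mR.prodMk (measurable_pi_lambda _ fun k => h.mW k)
  have mψ : Measurable[mΩ] fun ω => (fun k : Fin (n + 1) => W k ω) :=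
    measurable_pi_lambda _ fun k => h.mW k
  have hAm : MeasurableSet[mΩ] (φ ⁻¹' C) := mφ hC
  rw [measure_eq_tsum_fiber μ mψ (hAm.inter (measurableSet_eq_pt (h.mW (n + 1)) y))]
  have hun : φ ⁻¹' C = ⋃ w : Fin (n + 1) → Pt d,
      φ ⁻¹' C ∩ (fun ω => (fun k : Fin (n + 1) => W k ω)) ⁻¹' {w} := by
    ext ω; simp
  have hR : ∫⁻ ω in φ ⁻¹' C, ENNReal.ofReal (stepProb p (G ω) (W n ω) y) ∂μ =
      ∑' w : Fin (n + 1) → Pt d, ∫⁻ ω in φ ⁻¹' C ∩
        (fun ω => (fun k : Fin (n + 1) => W k ω)) ⁻¹' {w},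
        ENNReal.ofReal (stepProb p (G ω) (W n ω) y) ∂μ := by
    conv_lhs => rw [hun]
    rw [lintegral_iUnion]
    · intro w
      exact hAm.inter (mψ (measurableSet_singleton w))
    · intro w w' hww
      refine Set.disjoint_left.2 fun ω h1 h2 => hww ?_
      exact (h1.2 : _ = w).symm.trans h2.2
  rw [hR]
  refine tsum_congr fun w => ?_
  set w' : ℕ → Pt d := fun k => if h : k < n + 1 then w ⟨k, h⟩ else 0 with hw'
  have hfib : ∀ ω, (fun k : Fin (n + 1) => W k ω) = w ↔ ∀ k ≤ n, W k ω = w' k := by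
    intro ω
    constructor
    · intro h k hk
      rw [hw', ← h]
      simp only [show k < n + 1 by omega, dif_pos]
    · intro h
      funext k
      have := h k (by omega)
      rw [hw'] at this
      simp only [k.2, dif_pos] at this
      exact this
  have hCw : MeasurableSet {r : 𝓡 | (r, w) ∈ C} :=
    (measurable_id.prodMk measurable_const : Measurable fun r : 𝓡 => (r, w)) hC
  have e0 : φ ⁻¹' C ∩ (fun ω => (fun k : Fin (n + 1) => W k ω)) ⁻¹' {w} =
      {ω | R ω ∈ {r : 𝓡 | (r, w) ∈ C} ∧ ∀ k ≤ n, W k ω = w' k} := by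
    ext ω
    simp only [mem_inter_iff, mem_preimage, mem_singleton_iff, mem_setOf_eq, ← hfib]
    constructor
    · rintro ⟨h1, h2⟩
      refine ⟨?_, h2⟩
      rw [← h2]; exact h1
    · rintro ⟨h1, h2⟩
      refine ⟨?_, h2⟩
      rw [← h2] at h1; exact h1
  have e1 : φ ⁻¹' C ∩ {ω | W (n + 1) ω = y} ∩ (fun ω => (fun k : Fin (n + 1) => W k ω)) ⁻¹' {w} =
      {ω | R ω ∈ {r : 𝓡 | (r, w) ∈ C} ∧ (∀ k ≤ n, W k ω = w' k) ∧ W (n + 1) ω = y} := by
    have : φ ⁻¹' C ∩ {ω | W (n + 1) ω = y} ∩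
        (fun ω => (fun k : Fin (n + 1) => W k ω)) ⁻¹' {w} =
        (φ ⁻¹' C ∩ (fun ω => (fun k : Fin (n + 1) => W k ω)) ⁻¹' {w}) ∩
          {ω | W (n + 1) ω = y} := by
      ext ω; simp only [mem_inter_iff]; tauto
    rw [this, e0]
    ext ω
    simp only [mem_inter_iff, mem_setOf_eq]
    tauto
  rw [e1, e0, h.step n w' _ hCw y]
  have hms : MeasurableSet[mΩ] {ω | R ω ∈ {r : 𝓡 | (r, w) ∈ C} ∧ ∀ k ≤ n, W k ω = w' k} := by
    rw [← e0]
    exact hAm.inter (mψ (measurableSet_singleton w))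
  refine setLIntegral_congr_fun hms fun ω hω => ?_
  simp only [mem_setOf_eq] at hω
  rw [hT, hω.2 n le_rfl]

/-- The processes of the problem exist: the canonical construction. -/
theorem exists_iteratedWalk {i₀ : Fin d} {p : ℕ → Dir d → ℝ} {pInf : Dir d → ℝ}
    (hC : CondC i₀ p pInf) :
    IsIteratedWalk (Pc (mkP hC)) p pInf Xc (fun n η => Yc η n) := by
  refine ⟨fun i => ?_, ?_⟩
  · have hrec : RecP (Pc (mkP hC)) (Rr Xc i) (Xc i) (Tl p i) := by
      cases i with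
      | zero => exact recP_canon_zero rfl
      | succ i => exact recP_canon_succ i rfl
    refine isWalkOn_of_recP hrec ?_ (fun ω x y => by rw [env_eq]; rfl)
    refine iSup_le fun j => iSup_le fun n => ?_
    rintro s ⟨B, _, rfl⟩
    refine ⟨(fun r : ℕ → ℕ → Pt d => r j n) ⁻¹' B, ?_, ?_⟩
    · have hk : Measurable fun r : ℕ → ℕ → Pt d => r j n := by fun_prop
      exact hk (Set.to_countable B).measurableSet
    · ext η
      simp [Rr, j.2]
  · refine isWalkOn_of_recP (recP_canon_inf (P := mkP hC) (pInf := pInf) rfl) ?_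
      (fun ω x y => by unfold TInf; rw [fromRel_Einf])
    refine iSup_le fun ab => ?_
    rintro s ⟨B, hB, rfl⟩
    refine ⟨(fun r : Pt d → Pt d → Prop => r ab.1 ab.2) ⁻¹' B, ?_, rfl⟩
    have hk : Measurable fun r : Pt d → Pt d → Prop => r ab.1 ab.2 := by fun_prop
    exact hk hB

end Pool.Agent.Helper97.IW
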